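import Pool.Agent.Helper5.Vass.WS

set_option autoImplicit false

/-!
# Attaching a leg to an edge
-/

namespace Pool.Agent.Helper5.Vass

open Equiv Finset

section
variable {V U : Type} [DecidableEq V] [DecidableEq U]

/-- The inclusion of the old half-edges. -/
def incl : HalfEdge V U → HalfEdge (Option V) (Option U)
  | Sum.inl (v, i) => Sum.inl (some v, i)
  | Sum.inr u => Sum.inr (some u)

theorem incl_inj : Function.Injective (incl : HalfEdge V U → _) := by
  intro a b h
  rcases a with ⟨v, i⟩ | u <;> rcases b with ⟨v', i'⟩ | u' <;> simp [incl] at h ⊢ <;> exact h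

/-- The gluing of the graph with one more leg, attached at the half-edge `h`. -/
def addFun (e : HalfEdge V U → HalfEdge V U) (h : HalfEdge V U) :
    HalfEdge (Option V) (Option U) → HalfEdge (Option V) (Option U)
  | Sum.inl (none, i) => if i = 0 then incl h else if i = 1 then incl (e h) else Sum.inr none
  | Sum.inr none => Sum.inl (none, 2)
  | Sum.inl (some v, i) => if Sum.inl (v, i) = h then Sum.inl (none, 0) else
      if Sum.inl (v, i) = e h then Sum.inl (none, 1) else incl (e (Sum.inl (v, i)))
  | Sum.inr (some u) => if Sum.inr u = h then Sum.inl (none, 0) else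
      if Sum.inr u = e h then Sum.inl (none, 1) else incl (e (Sum.inr u))

theorem addFun_incl (e : HalfEdge V U → HalfEdge V U) (h k : HalfEdge V U) :
    addFun e h (incl k) = if k = h then Sum.inl (none, 0) else
      if k = e h then Sum.inl (none, 1) else incl (e k) := by
  rcases k with ⟨v, i⟩ | u <;> rfl

theorem cases_half {P : HalfEdge (Option V) (Option U) → Prop} (h0 : P (Sum.inl (none, 0)))
    (h1 : P (Sum.inl (none, 1))) (h2 : P (Sum.inl (none, 2))) (h3 : P (Sum.inr none))
    (h4 : ∀ k, P (incl k)) : ∀ k, P k := by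
  rintro (⟨_ | v, i⟩ | _ | u)
  · fin_cases i
    · exact h0
    · exact h1
    · exact h2
  · exact h4 (Sum.inl (v, i))
  · exact h3
  · exact h4 (Sum.inr u)

theorem incl_ne_inl (k : HalfEdge V U) (i : Fin 3) : incl k ≠ Sum.inl (none, i) := by
  rcases k with ⟨v, j⟩ | u <;> simp [incl]

theorem incl_ne_inr (k : HalfEdge V U) : incl k ≠ Sum.inr none := by
  rcases k with ⟨v, j⟩ | u <;> simp [incl]

/-- Attach a leg to the edge `{h, e h}`. -/
def addLeg (G : UTGraph V U) (h : HalfEdge V U) : UTGraph (Option V) (Option U) where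
  e := Function.Involutive.toPerm (addFun G.e h) (by
    refine cases_half ?_ ?_ ?_ ?_ ?_
    · show addFun G.e h (incl h) = _
      rw [addFun_incl, if_pos rfl]
    · show addFun G.e h (incl (G.e h)) = _
      rw [addFun_incl, if_neg (G.fpf h), if_pos rfl]
    · rfl
    · rfl
    · intro k
      rw [addFun_incl]
      split_ifs with h1 h2
      · rw [h1]; rfl
      · rw [h2]; rfl
      · rw [addFun_incl, if_neg, if_neg, G.invol]
        · exact fun hh => h1 (G.e.injective hh)
        · exact fun hh => h2 (by rw [← hh, G.invol]))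
  invol := by
    intro k
    exact Function.Involutive.toPerm_involutive _ k
  fpf := by
    intro k
    show addFun G.e h k ≠ k
    revert k
    refine cases_half ?_ ?_ ?_ ?_ ?_
    · exact incl_ne_inl _ _
    · exact incl_ne_inl _ _
    · simp [addFun]
    · simp [addFun]
    · intro k
      rw [addFun_incl]
      split_ifs with h1 h2
      · exact (incl_ne_inl _ _).symm
      · exact (incl_ne_inl _ _).symm
      · exact fun hh => G.fpf k (incl_inj hh)

theorem addLeg_e (G : UTGraph V U) (h : HalfEdge V U) (k : HalfEdge (Option V) (Option U)) :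
    (addLeg G h).e k = addFun G.e h k := rfl

theorem addLeg_connected (G : UTGraph V U) (h : HalfEdge V U) (hG : G.Connected) :
    (addLeg G h).Connected := by
  intro S hne hS hV
  have hv : ∀ i j, (Sum.inl (none, i) : HalfEdge (Option V) (Option U)) ∈ S →
      Sum.inl (none, j) ∈ S := fun i j => hV none i j
  -- membership of the new half-edges
  have h0 : (Sum.inl (none, 0) : HalfEdge (Option V) (Option U)) ∈ S → incl h ∈ S := by
    intro h1
    exact hS _ h1
  have h1 : incl h ∈ S → (Sum.inl (none, 0) : HalfEdge (Option V) (Option U)) ∈ S := by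
    intro h1
    have := hS _ h1
    rwa [addLeg_e, addFun_incl, if_pos rfl] at this
  have h2 : (Sum.inl (none, 1) : HalfEdge (Option V) (Option U)) ∈ S → incl (G.e h) ∈ S := by
    intro h1
    exact hS _ h1
  have h3 : incl (G.e h) ∈ S → (Sum.inl (none, 1) : HalfEdge (Option V) (Option U)) ∈ S := by
    intro h1
    have := hS _ h1
    rwa [addLeg_e, addFun_incl, if_neg (G.fpf h), if_pos rfl] at this
  have h4 : (Sum.inr none : HalfEdge (Option V) (Option U)) ∈ S →
      (Sum.inl (none, 2) : HalfEdge (Option V) (Option U)) ∈ S := by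
    intro h1
    exact hS _ h1
  have h5 : (Sum.inl (none, 2) : HalfEdge (Option V) (Option U)) ∈ S →
      (Sum.inr none : HalfEdge (Option V) (Option U)) ∈ S := by
    intro h1
    exact hS _ h1
  have hne' : (incl ⁻¹' S : Set (HalfEdge V U)).Nonempty := by
    obtain ⟨k, hk⟩ := hne
    revert hk
    revert k
    refine cases_half ?_ ?_ ?_ ?_ ?_
    · intro hk; exact ⟨h, h0 hk⟩
    · intro hk; exact ⟨h, h0 (hv 1 0 hk)⟩
    · intro hk; exact ⟨h, h0 (hv 2 0 hk)⟩
    · intro hk; exact ⟨h, h0 (hv 2 0 (h4 hk))⟩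
    · intro k hk; exact ⟨k, hk⟩
  have huniv := hG (incl ⁻¹' S) hne' ?_ ?_
  · have hall : ∀ k, incl k ∈ S := fun k => by
      have : k ∈ (incl ⁻¹' S : Set (HalfEdge V U)) := by rw [huniv]; trivial
      exact this
    rw [Set.eq_univ_iff_forall]
    refine cases_half ?_ ?_ ?_ ?_ ?_
    · exact h1 (hall h)
    · exact h3 (hall _)
    · exact hv 0 2 (h1 (hall h))
    · exact h5 (hv 0 2 (h1 (hall h)))
    · exact hall
  · intro k hk
    show incl (G.e k) ∈ S
    by_cases hk1 : k = h
    · subst hk1
      exact h2 (hv 0 1 (h1 hk))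
    · by_cases hk2 : k = G.e h
      · subst hk2
        rw [G.invol]
        exact h0 (hv 1 0 (h3 hk))
      · have := hS _ hk
        rwa [addLeg_e, addFun_incl, if_neg hk1, if_neg hk2] at this
  · intro v i j hk
    exact hV (some v) i j hk

end

section
variable {V U I : Type} [Fintype V] [DecidableEq V] [Fintype U] [DecidableEq U] [Fintype I]
  [DecidableEq I] {C : I → I → I → ℤ} {τ : I → I} {l : I → ℤ}

/-- Labellings of the half-edges of the larger graph. -/
def splitLab : (HalfEdge (Option V) (Option U) → I) ≃ (HalfEdge V U → I) × I × I × I × I where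
  toFun x := (fun k => x (incl k), x (Sum.inl (none, 0)), x (Sum.inl (none, 1)),
    x (Sum.inl (none, 2)), x (Sum.inr none))
  invFun p := fun k => match k with
    | Sum.inl (none, i) => if i = 0 then p.2.1 else if i = 1 then p.2.2.1 else p.2.2.2.1
    | Sum.inr none => p.2.2.2.2
    | Sum.inl (some v, i) => p.1 (Sum.inl (v, i))
    | Sum.inr (some u) => p.1 (Sum.inr u)
  left_inv x := by
    funext k
    revert k
    refine cases_half ?_ ?_ ?_ ?_ ?_
    · rfl
    · rfl
    · rfl
    · rfl
    · rintro (⟨v, i⟩ | u) <;> rfl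
  right_inv p := by
    obtain ⟨f, a, b, c, d⟩ := p
    refine Prod.ext ?_ rfl
    funext k
    rcases k with ⟨v, i⟩ | u <;> rfl

theorem Fprod_split (x : HalfEdge (Option V) (Option U) → I) :
    Fprod C l x = Fprod C l (fun k => x (incl k)) *
      (C (x (Sum.inl (none, 0))) (x (Sum.inl (none, 1))) (x (Sum.inl (none, 2))) *
        l (x (Sum.inr none))) := by
  unfold Fprod
  rw [Fintype.prod_option, Fintype.prod_option]
  simp only [incl]
  ring

theorem W_addLeg_aux (hτ : ∀ x, τ (τ x) = x) (G : UTGraph V U) (h : HalfEdge V U)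
    (w : (HalfEdge V U → I) → ℤ) :
    W C τ l (addLeg G h).e (fun x => w (fun k => x (incl k))) =
      ∑ x : HalfEdge V U → I, if ∀ k, k ≠ h → k ≠ G.e h → x (G.e k) = τ (x k) then
        Fprod C l x * w x * ∑ z, C (τ (x h)) (τ (x (G.e h))) z * l (τ z) else 0 := by
  unfold W
  rw [← Equiv.sum_comp (splitLab (V := V) (U := U) (I := I)).symm, Fintype.sum_prod_type]
  refine Finset.sum_congr rfl fun x _ => ?_
  simp only [Fintype.sum_prod_type]
  have hcond : ∀ a b c d, (∀ k, (splitLab (V := V) (U := U) (I := I)).symm (x, a, b, c, d)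
      ((addLeg G h).e k) = τ ((splitLab (V := V) (U := U) (I := I)).symm (x, a, b, c, d) k)) ↔
      (a = τ (x h) ∧ b = τ (x (G.e h)) ∧ d = τ c ∧
        ∀ k, k ≠ h → k ≠ G.e h → x (G.e k) = τ (x k)) := by
    intro a b c d
    set y := (splitLab (V := V) (U := U) (I := I)).symm (x, a, b, c, d) with hy
    have y0 : y (Sum.inl (none, 0)) = a := rfl
    have y1 : y (Sum.inl (none, 1)) = b := rfl
    have y2 : y (Sum.inl (none, 2)) = c := rfl
    have y3 : y (Sum.inr none) = d := rfl
    have y4 : ∀ k, y (incl k) = x k := by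
      intro k
      rcases k with ⟨v, i⟩ | u <;> rfl
    constructor
    · intro hk
      refine ⟨?_, ?_, ?_, ?_⟩
      · have := hk (incl h)
        rwa [addLeg_e, addFun_incl, if_pos rfl, y0, y4] at this
      · have := hk (incl (G.e h))
        rwa [addLeg_e, addFun_incl, if_neg (G.fpf h), if_pos rfl, y1, y4] at this
      · have := hk (Sum.inl (none, 2))
        rwa [y2, show (addLeg G h).e (Sum.inl (none, 2)) = Sum.inr none from rfl, y3] at this
      · intro k h1 h2
        have := hk (incl k)
        rwa [addLeg_e, addFun_incl, if_neg h1, if_neg h2, y4, y4] at this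
    · rintro ⟨h1, h2, h3, h4⟩
      refine cases_half ?_ ?_ ?_ ?_ ?_
      · rw [show (addLeg G h).e (Sum.inl (none, 0)) = incl h from rfl, y4, y0, h1, hτ]
      · rw [show (addLeg G h).e (Sum.inl (none, 1)) = incl (G.e h) from rfl, y4, y1, h2, hτ]
      · rw [show (addLeg G h).e (Sum.inl (none, 2)) = Sum.inr none from rfl, y2, y3, h3]
      · rw [show (addLeg G h).e (Sum.inr none) = Sum.inl (none, 2) from rfl, y2, y3, h3, hτ]
      · intro k
        rw [addLeg_e, addFun_incl]
        split_ifs with hk1 hk2
        · rw [y0, y4, hk1, h1]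
        · rw [y1, y4, hk2, h2]
        · rw [y4, y4, h4 k hk1 hk2]
  have hval : ∀ a b c d, Fprod C l ((splitLab (V := V) (U := U) (I := I)).symm (x, a, b, c, d)) =
      Fprod C l x * (C a b c * l d) := by
    intro a b c d
    rw [Fprod_split]
    congr 2
    funext k
    rcases k with ⟨v, i⟩ | u <;> rfl
  have hw : ∀ a b c d, (fun k => (splitLab (V := V) (U := U) (I := I)).symm (x, a, b, c, d)
      (incl k)) = x := by
    intro a b c d
    funext k
    rcases k with ⟨v, i⟩ | u <;> rfl
  simp only [hcond, hval, hw]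
  by_cases hQ : ∀ k, k ≠ h → k ≠ G.e h → x (G.e k) = τ (x k)
  · rw [if_pos hQ]
    have hQ' := eq_true hQ
    simp only [hQ', and_true]
    rw [Finset.sum_eq_single (τ (x h))]
    · rw [Finset.sum_eq_single (τ (x (G.e h)))]
      · rw [Finset.mul_sum]
        refine Finset.sum_congr rfl fun c _ => ?_
        rw [Finset.sum_eq_single (τ c)]
        · simp only [true_and, if_true]
          ring
        · intro d _ hd
          simp [hd]
        · simp
      · intro b _ hb
        simp [hb]
      · simp
    · intro a _ ha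
      simp [ha]
    · simp
  · rw [if_neg hQ]
    have hQ' := eq_false hQ
    simp only [hQ', and_false, if_false, Finset.sum_const_zero]

theorem fix_iff (hτ : ∀ x, τ (τ x) = x) (G : UTGraph V U) (h : HalfEdge V U)
    (x : HalfEdge V U → I) : (∀ k, x (G.e k) = τ (x k)) ↔
      ((∀ k, k ≠ h → k ≠ G.e h → x (G.e k) = τ (x k)) ∧ x h = τ (x (G.e h))) := by
  constructor
  · intro hx
    exact ⟨fun k _ _ => hx k, by rw [hx, hτ]⟩
  · rintro ⟨h1, h2⟩ k
    by_cases hk : k = h
    · subst hk
      rw [h2, hτ]
    · by_cases hk2 : k = G.e h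
      · subst hk2
        rw [G.invol, h2]
      · exact h1 k hk hk2

theorem W_addLeg (hτ : ∀ x, τ (τ x) = x) {lam : I → ℤ}
    (hM : ∀ a b, ∑ z, C (τ a) b z * l (τ z) = if a = b then lam a else 0)
    (G : UTGraph V U) (h : HalfEdge V U) (w : (HalfEdge V U → I) → ℤ) :
    W C τ l (addLeg G h).e (fun x => w (fun k => x (incl k))) =
      W C τ l G.e (fun x => w x * lam (x h)) := by
  rw [W_addLeg_aux hτ]
  unfold W
  refine Finset.sum_congr rfl fun x _ => ?_
  rw [hM]
  by_cases h1 : ∀ k, k ≠ h → k ≠ G.e h → x (G.e k) = τ (x k)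
  · rw [if_pos h1]
    by_cases h2 : x h = τ (x (G.e h))
    · rw [if_pos h2, if_pos ((fix_iff hτ G h x).2 ⟨h1, h2⟩)]
      ring
    · rw [if_neg h2, if_neg (fun hh => h2 ((fix_iff hτ G h x).1 hh).2), mul_zero]
  · rw [if_neg h1, if_neg (fun hh => h1 ((fix_iff hτ G h x).1 hh).1)]

/-- A symmetry `ρ` of the label set, under which the tensors are odd. -/
structure IsOdd (C : I → I → I → ℤ) (τ ρ : I → I) (l : I → ℤ) : Prop where
  invol : ∀ x, ρ (ρ x) = x
  comm : ∀ x, τ (ρ x) = ρ (τ x)
  odd : ∀ x y z, C (ρ x) y z = - C x y z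
  oddl : ∀ x, l (ρ x) = - l x

theorem IsOdd.odd2 {ρ : I → I} (hρ : IsOdd C τ ρ l) (hcyc : ∀ x y z, C x y z = C y z x)
    (x y z : I) : C x (ρ y) z = - C x y z := by
  rw [hcyc, hρ.odd, ← hcyc]

theorem IsOdd.odd3 {ρ : I → I} (hρ : IsOdd C τ ρ l) (hcyc : ∀ x y z, C x y z = C y z x)
    (x y z : I) : C x y (ρ z) = - C x y z := by
  rw [hcyc, hρ.odd2 hcyc, ← hcyc]

theorem Fprod_update {ρ : I → I} (hρ : IsOdd C τ ρ l) (hcyc : ∀ x y z, C x y z = C y z x)
    (x : HalfEdge V U → I) (k : HalfEdge V U) :
    Fprod C l (Function.update x k (ρ (x k))) = - Fprod C l x := by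
  unfold Fprod
  rcases k with ⟨v, i⟩ | u
  · rw [← neg_mul]
    congr 1
    · rw [← Finset.mul_prod_erase univ _ (Finset.mem_univ v),
        ← Finset.mul_prod_erase univ (fun v => C (x (Sum.inl (v, 0))) _ _) (Finset.mem_univ v),
        ← neg_mul]
      congr 1
      · have hi : i = 0 ∨ i = 1 ∨ i = 2 := by revert i; decide
        rcases hi with rfl | rfl | rfl
        · rw [Function.update_self, Function.update_of_ne (by simp), Function.update_of_ne (by simp),
            hρ.odd]
        · rw [Function.update_self, Function.update_of_ne (by simp), Function.update_of_ne (by simp),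
            hρ.odd2 hcyc]
        · rw [Function.update_self, Function.update_of_ne (by simp), Function.update_of_ne (by simp),
            hρ.odd3 hcyc]
      · refine Finset.prod_congr rfl fun v' hv' => ?_
        have hne : v' ≠ v := Finset.ne_of_mem_erase hv'
        rw [Function.update_of_ne (by simp [hne]), Function.update_of_ne (by simp [hne]),
          Function.update_of_ne (by simp [hne])]
  · rw [neg_mul_eq_mul_neg]
    congr 1
    rw [← Finset.mul_prod_erase univ _ (Finset.mem_univ u),
      ← Finset.mul_prod_erase univ (fun u => l (x (Sum.inr u))) (Finset.mem_univ u), ← neg_mul]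
    congr 1
    · rw [Function.update_self, hρ.oddl]
    · refine Finset.prod_congr rfl fun u' hu' => ?_
      have hne : u' ≠ u := Finset.ne_of_mem_erase hu'
      rw [Function.update_of_ne (by simp [hne])]

theorem W_addLeg_odd (hL : IsLie C τ) {ρ : I → I} (hρ : IsOdd C τ ρ l) {lam : I → ℤ}
    (hM : ∀ a b, ∑ z, C (τ a) b z * l (τ z) =
      (if a = b then lam a else 0) - (if a = ρ b then lam a else 0))
    (G : UTGraph V U) (h : HalfEdge V U) (w : (HalfEdge V U → I) → ℤ)
    (hw : ∀ x k, w (Function.update x k (ρ (x k))) = w x) :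
    W C τ l (addLeg G h).e (fun x => w (fun k => x (incl k))) =
      2 * W C τ l G.e (fun x => w x * lam (x h)) := by
  rw [W_addLeg_aux hL.invol]
  have hne : h ≠ G.e h := (G.fpf h).symm
  -- the term with the twist
  have htw : ∑ x : HalfEdge V U → I, (if ∀ k, k ≠ h → k ≠ G.e h → x (G.e k) = τ (x k) then
        Fprod C l x * w x * (if x h = ρ (τ (x (G.e h))) then lam (x h) else 0) else 0) =
      - ∑ x : HalfEdge V U → I, (if ∀ k, k ≠ h → k ≠ G.e h → x (G.e k) = τ (x k) then
        Fprod C l x * w x * (if x h = τ (x (G.e h)) then lam (x h) else 0) else 0) := by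
    rw [← Finset.sum_neg_distrib]
    let φ : (HalfEdge V U → I) → (HalfEdge V U → I) := fun x =>
      Function.update x (G.e h) (ρ (x (G.e h)))
    have hφ : Function.Involutive φ := by
      intro x
      funext k
      by_cases hk : k = G.e h
      · subst hk
        simp only [φ, Function.update_self, hρ.invol]
      · simp only [φ, Function.update_of_ne hk]
    rw [← Equiv.sum_comp hφ.toPerm]
    refine Finset.sum_congr rfl fun x _ => ?_
    show (if ∀ k, k ≠ h → k ≠ G.e h → φ x (G.e k) = τ (φ x k) then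
        Fprod C l (φ x) * w (φ x) * (if φ x h = ρ (τ (φ x (G.e h))) then lam (φ x h) else 0) else 0)
      = _
    have e1 : φ x h = x h := Function.update_of_ne hne _ _
    have e2 : φ x (G.e h) = ρ (x (G.e h)) := Function.update_self _ _ _
    have e3 : (∀ k, k ≠ h → k ≠ G.e h → φ x (G.e k) = τ (φ x k)) ↔
        (∀ k, k ≠ h → k ≠ G.e h → x (G.e k) = τ (x k)) := by
      refine forall_congr' fun k => forall_congr' fun h1 => forall_congr' fun h2 => ?_
      have e4 : φ x (G.e k) = x (G.e k) :=
        Function.update_of_ne (fun hh => h1 (G.e.injective hh)) _ _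
      have e5 : φ x k = x k := Function.update_of_ne h2 _ _
      rw [e4, e5]
    rw [e1, e2, hρ.comm, hρ.invol, show Fprod C l (φ x) = - Fprod C l x from
      Fprod_update hρ hL.cyc x _, show w (φ x) = w x from hw x _]
    by_cases hQ : ∀ k, k ≠ h → k ≠ G.e h → x (G.e k) = τ (x k)
    · rw [if_pos hQ, if_pos (e3.2 hQ)]
      ring
    · rw [if_neg hQ, if_neg (fun hh => hQ (e3.1 hh)), neg_zero]
  have hmain : ∑ x : HalfEdge V U → I, (if ∀ k, k ≠ h → k ≠ G.e h → x (G.e k) = τ (x k) then
        Fprod C l x * w x * (if x h = τ (x (G.e h)) then lam (x h) else 0) else 0) =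
      W C τ l G.e (fun x => w x * lam (x h)) := by
    unfold W
    refine Finset.sum_congr rfl fun x _ => ?_
    by_cases h1 : ∀ k, k ≠ h → k ≠ G.e h → x (G.e k) = τ (x k)
    · rw [if_pos h1]
      by_cases h2 : x h = τ (x (G.e h))
      · rw [if_pos h2, if_pos ((fix_iff hL.invol G h x).2 ⟨h1, h2⟩)]
        ring
      · rw [if_neg h2, if_neg (fun hh => h2 ((fix_iff hL.invol G h x).1 hh).2), mul_zero]
    · rw [if_neg h1, if_neg (fun hh => h1 ((fix_iff hL.invol G h x).1 hh).1)]
  rw [← hmain, two_mul]
  nth_rewrite 2 [← neg_neg (∑ x : HalfEdge V U → I, (if ∀ k, k ≠ h → k ≠ G.e h →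
    x (G.e k) = τ (x k) then Fprod C l x * w x *
      (if x h = τ (x (G.e h)) then lam (x h) else 0) else 0))]
  rw [← htw, ← sub_eq_add_neg, ← Finset.sum_sub_distrib]
  refine Finset.sum_congr rfl fun x _ => ?_
  rw [hM]
  split_ifs <;> ring

end

end Pool.Agent.Helper5.Vass
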