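import Pool.Agent.Helper5.Vass.Main

set_option autoImplicit false

/-!
# The lower bound `39 ≤ β 23 20`
-/

namespace Pool.Agent.Helper5.Vass

open Equiv Finset

theorem evalA_cast' (n : ℕ × ℕ × ℕ × ℕ) (h : List ℕ) (hlen : h.length = 5)
    (hle : ∀ x ∈ h, x ≤ 31) : ((evalA n h : ℕ) : ZMod 31) =
      ((symA ![n.1, n.2.1, n.2.2.1, n.2.2.2] (fun k => ((h.getD k.val 0 : ℕ) : ℤ)) : ℤ) :
        ZMod 31) := by
  obtain ⟨n0, n1, n2, n3⟩ := n
  match h, hlen, hle with
  | [a, b, c, d, e], _, hle => exact evalA_cast n0 n1 n2 n3 a b c d e hle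

theorem evalD_cast' (n : ℕ × ℕ × ℕ) (h : List ℕ) (hlen : h.length = 4)
    (hle : ∀ x ∈ h, x ≤ 31) : ((evalD n h : ℕ) : ZMod 31) =
      ((symD ![n.1, n.2.1, n.2.2] (fun k => ((h.getD k.val 0 : ℕ) : ℤ)) : ℤ) : ZMod 31) := by
  obtain ⟨x, y, z⟩ := n
  match h, hlen, hle with
  | [a, b, c, d], _, hle => exact evalD_cast x y z a b c d hle

/-- The exponents for the prism. -/
def rowA (i : Fin 28) : Fin 4 → ℕ :=
  ![(rowsA.getD i.val (0, 0, 0, 0)).1, (rowsA.getD i.val (0, 0, 0, 0)).2.1,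
    (rowsA.getD i.val (0, 0, 0, 0)).2.2.1, (rowsA.getD i.val (0, 0, 0, 0)).2.2.2]

/-- The labels for the prism. -/
def colA (j : Fin 28) (k : Fin 5) : ℤ := (((colsA.getD j.val []).getD k.val 0 : ℕ) : ℤ)

/-- The exponents for `K_{3,3}`. -/
def rowD (i : Fin 11) : Fin 3 → ℕ :=
  ![(rowsD.getD i.val (0, 0, 0)).1, (rowsD.getD i.val (0, 0, 0)).2.1,
    (rowsD.getD i.val (0, 0, 0)).2.2]

/-- The labels for `K_{3,3}`. -/
def colD (j : Fin 11) (k : Fin 4) : ℤ := (((colsD.getD j.val []).getD k.val 0 : ℕ) : ℤ)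

theorem rowA_sum : ∀ i, ∑ l, rowA i l = 20 := by decide +kernel

theorem rowD_sum : ∀ i, ∑ l, rowD i l = 20 := by decide +kernel

theorem matA_cast (i j : Fin 28) : ((symA (rowA i) (colA j) : ℤ) : ZMod 31) =
    (((tabA.getD i.val []).getD j.val 0 : ℕ) : ZMod 31) := by
  obtain ⟨hr, hc, _, hh⟩ := rowsA_ok
  have hi : i.val < rowsA.length := by rw [hr]; exact i.2
  have hj : j.val < colsA.length := by rw [hc]; exact j.2
  rw [← tabA_ok, getD_map' rowsA _ i.val (0, 0, 0, 0) [] hi, getD_map' colsA _ j.val [] 0 hj]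
  have hmem : colsA.getD j.val [] ∈ colsA := by
    rw [List.getD_eq_getElem _ _ hj]
    exact List.getElem_mem _
  obtain ⟨h1, h2⟩ := hh _ hmem
  have h3 := evalA_cast' (rowsA.getD i.val (0, 0, 0, 0)) (colsA.getD j.val []) h1 h2
  have h4 : ((Nat.mod (evalA (rowsA.getD i.val (0, 0, 0, 0)) (colsA.getD j.val [])) 31 : ℕ) :
      ZMod 31) = ((evalA (rowsA.getD i.val (0, 0, 0, 0)) (colsA.getD j.val []) : ℕ) : ZMod 31) :=
    ZMod.natCast_mod _ 31
  rw [h4, h3]
  rfl

theorem matD_cast (i j : Fin 11) : ((symD (rowD i) (colD j) : ℤ) : ZMod 31) =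
    (((tabD.getD i.val []).getD j.val 0 : ℕ) : ZMod 31) := by
  obtain ⟨hr, hc, _, hh⟩ := rowsD_ok
  have hi : i.val < rowsD.length := by rw [hr]; exact i.2
  have hj : j.val < colsD.length := by rw [hc]; exact j.2
  rw [← tabD_ok, getD_map' rowsD _ i.val (0, 0, 0) [] hi, getD_map' colsD _ j.val [] 0 hj]
  have hmem : colsD.getD j.val [] ∈ colsD := by
    rw [List.getD_eq_getElem _ _ hj]
    exact List.getElem_mem _
  obtain ⟨h1, h2⟩ := hh _ hmem
  have h3 := evalD_cast' (rowsD.getD i.val (0, 0, 0)) (colsD.getD j.val []) h1 h2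
  have h4 : ((Nat.mod (evalD (rowsD.getD i.val (0, 0, 0)) (colsD.getD j.val [])) 31 : ℕ) :
      ZMod 31) = ((evalD (rowsD.getD i.val (0, 0, 0)) (colsD.getD j.val []) : ℕ) : ZMod 31) :=
    ZMod.natCast_mod _ 31
  rw [h4, h3]
  rfl

instance fact31 : Fact (Nat.Prime 31) := ⟨by norm_num⟩

theorem indepA (a : Fin 28 → ℚ)
    (ha : ∀ j, ∑ i, a i * ((symA (rowA i) (colA j) : ℤ) : ℚ) = 0) : a = 0 := by
  obtain ⟨h1, h2, h3, h4⟩ := tabA_length
  exact rows_indep 31 (fun i j => symA (rowA i) (colA j)) tabA invA h1 h2 h3 h4 matA_cast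
    invA_ok a ha

theorem indepD (a : Fin 11 → ℚ)
    (ha : ∀ j, ∑ i, a i * ((symD (rowD i) (colD j) : ℤ) : ℚ) = 0) : a = 0 := by
  obtain ⟨h1, h2, h3, h4⟩ := tabD_length
  exact rows_indep 31 (fun i j => symD (rowD i) (colD j)) tabD invD h1 h2 h3 h4 matD_cast
    invD_ok a ha

/-- The lower bound. -/
theorem beta_ge : 39 ≤ β 23 20 := by
  have hA : ∀ i : Fin 28, ∃ G : UTGraph (Fin 26) (Fin 20), G.Connected ∧
      (∀ hh, funA hh G = -2 * symA (rowA i) hh) := by
    intro i
    obtain ⟨G, M, hG, hc⟩ := exists_graph prism prism_connected markP (rowA i) (rowA_sum i)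
    refine ⟨G, hG, fun hh => ?_⟩
    rw [funA_eq hh hc]
    exact topW_prism_gl (rowA i) (by rw [rowA_sum]; decide) hh
  have hD : ∀ i : Fin 11, ∃ G : UTGraph (Fin 26) (Fin 20), G.Connected ∧
      (∀ hh, funA hh G = 0) ∧ (∀ η, funD η G = 2 ^ 20 * (512 * 2 ^ 20 * symD (rowD i) η)) := by
    intro i
    obtain ⟨G, M, hG, hc⟩ := exists_graph k33 k33_connected markK (rowD i) (rowD_sum i)
    refine ⟨G, hG, fun hh => ?_, fun η => ?_⟩
    · rw [funA_eq hh hc]
      exact topW_k33_gl markK (rowD i) hh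
    · rw [funD_eq η hc, topW_k33_so, rowD_sum]
  choose GA hGA hfA using hA
  choose GD hGD hfD0 hfD using hD
  choose φ hφ using fun j : Fin 28 => (isWeight_funA (colA j)).functional
  choose ψ hψ using fun j : Fin 11 => (isWeight_funD (colD j)).functional
  set v : Fin 28 ⊕ Fin 11 → BConn (Fin 26) (Fin 20) := fun s => match s with
    | Sum.inl i => ⟨cls (GA i), Submodule.subset_span ⟨GA i, hGA i, rfl⟩⟩
    | Sum.inr i => ⟨cls (GD i), Submodule.subset_span ⟨GD i, hGD i, rfl⟩⟩ with hv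
  have hlin : LinearIndependent ℚ v := by
    rw [Fintype.linearIndependent_iff]
    intro g hg
    rw [Fintype.sum_sum_type] at hg
    have hg' := congrArg (Submodule.subtype _) hg
    simp only [map_add, map_sum, map_smul, map_zero, Submodule.subtype_apply] at hg'
    have ea : (fun i => g (Sum.inl i)) = 0 := by
      apply indepA
      intro j
      have h1 := congrArg (φ j) hg'
      simp only [map_add, map_sum, map_smul, map_zero, hv, hφ, hfA, hfD0, smul_eq_mul,
        Int.cast_zero, mul_zero, Finset.sum_const_zero, add_zero] at h1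
      have h2 : ∑ i, g (Sum.inl i) * ((-2 * symA (rowA i) (colA j) : ℤ) : ℚ) =
          -2 * ∑ i, g (Sum.inl i) * ((symA (rowA i) (colA j) : ℤ) : ℚ) := by
        rw [Finset.mul_sum]
        refine Finset.sum_congr rfl fun i _ => ?_
        push_cast
        ring
      rw [h2] at h1
      exact (mul_eq_zero.1 h1).resolve_left (by norm_num)
    have ea' : ∀ i, g (Sum.inl i) = 0 := fun i => congrFun ea i
    have ed : (fun i => g (Sum.inr i)) = 0 := by
      apply indepD
      intro j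
      have h1 := congrArg (ψ j) hg'
      simp only [map_add, map_sum, map_smul, map_zero, hv, hψ, hfD, ea', zero_smul,
        Finset.sum_const_zero, zero_add, smul_eq_mul] at h1
      have h2 : ∑ i, g (Sum.inr i) *
          ((2 ^ 20 * (512 * 2 ^ 20 * symD (rowD i) (colD j)) : ℤ) : ℚ) =
          (2 ^ 20 * (512 * 2 ^ 20)) * ∑ i, g (Sum.inr i) * ((symD (rowD i) (colD j) : ℤ) : ℚ) := by
        rw [Finset.mul_sum]
        refine Finset.sum_congr rfl fun i _ => ?_
        push_cast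
        ring
      rw [h2] at h1
      exact (mul_eq_zero.1 h1).resolve_left (by norm_num)
    have ed' : ∀ i, g (Sum.inr i) = 0 := fun i => congrFun ed i
    rintro (i | i)
    · exact ea' i
    · exact ed' i
  have hfin : Module.Finite ℚ (BConn (Fin 26) (Fin 20)) := inferInstance
  have h1 := hlin.fintype_card_le_finrank
  have h2 : 39 ≤ Module.finrank ℚ (BConn (Fin 26) (Fin 20)) := by simpa using h1
  exact h2

end Pool.Agent.Helper5.Vass
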