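import Pool.Agent.Helper5.Vass.Enum

set_option autoImplicit false

/-!
# The independence certificate for the prism graphs
-/

namespace Pool.Agent.Helper5.Vass

/-- The exponents: the numbers of legs on the four marked edges. -/
def rowsA : List (ℕ × ℕ × ℕ × ℕ) := [(20, 0, 0, 0),
  (18, 2, 0, 0),
  (18, 1, 1, 0),
  (16, 4, 0, 0),
  (16, 3, 1, 0),
  (16, 2, 2, 0),
  (16, 2, 1, 1),
  (14, 6, 0, 0),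
  (14, 5, 1, 0),
  (14, 4, 2, 0),
  (14, 4, 1, 1),
  (14, 3, 3, 0),
  (14, 3, 2, 1),
  (14, 2, 2, 2),
  (12, 6, 2, 0),
  (12, 6, 1, 1),
  (12, 5, 3, 0),
  (12, 5, 2, 1),
  (12, 4, 4, 0),
  (12, 4, 3, 1),
  (12, 4, 2, 2),
  (12, 3, 3, 2),
  (10, 5, 5, 0),
  (10, 5, 4, 1),
  (10, 5, 3, 2),
  (10, 4, 4, 2),
  (10, 4, 3, 3),
  (8, 4, 4, 4)]

/-- The values of the labels. -/
def colsA : List (List ℕ) := [[0, 2, 3, 4, 6],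
  [0, 2, 4, 6, 8],
  [0, 2, 3, 5, 8],
  [0, 2, 3, 5, 6],
  [0, 1, 5, 6, 8],
  [0, 1, 3, 6, 8],
  [0, 1, 2, 4, 7],
  [0, 3, 4, 5, 7],
  [0, 1, 2, 4, 5],
  [0, 1, 4, 5, 7],
  [0, 1, 3, 4, 8],
  [0, 1, 3, 6, 7],
  [0, 2, 3, 4, 8],
  [0, 1, 3, 5, 8],
  [0, 2, 4, 5, 7],
  [0, 3, 4, 6, 8],
  [0, 1, 3, 5, 7],
  [0, 1, 2, 6, 8],
  [0, 4, 5, 6, 7],
  [0, 1, 2, 4, 6],
  [0, 1, 5, 6, 7],
  [0, 1, 2, 5, 8],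
  [0, 2, 3, 6, 8],
  [0, 1, 4, 6, 8],
  [0, 1, 4, 5, 8],
  [0, 3, 4, 6, 7],
  [0, 3, 4, 5, 6],
  [0, 1, 3, 5, 6]]

/-- The values of the symmetrised products modulo `31`. -/
def tabA : List (List ℕ) := [[16, 30, 20, 11, 3, 20, 11, 25, 8, 11, 25, 28, 8, 3, 3, 25, 25, 25, 25, 8, 3, 11, 11, 25, 25, 19, 25, 3],
  [5, 14, 13, 27, 21, 15, 16, 16, 27, 2, 26, 18, 2, 15, 5, 20, 16, 2, 20, 5, 15, 20, 24, 7, 24, 18, 27, 18],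
  [4, 15, 19, 28, 26, 1, 10, 22, 28, 28, 15, 20, 7, 26, 15, 10, 16, 26, 3, 19, 21, 8, 11, 3, 11, 14, 22, 21],
  [4, 10, 19, 13, 18, 2, 22, 28, 12, 24, 14, 6, 4, 9, 15, 8, 21, 12, 11, 24, 3, 24, 24, 10, 20, 23, 18, 1],
  [24, 10, 18, 12, 5, 2, 28, 13, 2, 2, 26, 19, 4, 0, 0, 24, 28, 24, 20, 4, 10, 28, 10, 1, 17, 16, 28, 24],
  [28, 11, 30, 5, 28, 14, 10, 10, 7, 3, 19, 18, 12, 2, 25, 30, 20, 30, 17, 3, 29, 15, 22, 22, 1, 2, 22, 9],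
  [0, 24, 15, 5, 1, 16, 29, 29, 10, 17, 18, 18, 13, 0, 0, 4, 1, 13, 28, 16, 21, 9, 30, 4, 27, 17, 4, 6],
  [24, 30, 6, 14, 20, 18, 12, 26, 13, 23, 19, 20, 17, 10, 30, 27, 17, 22, 1, 16, 22, 19, 15, 19, 17, 11, 10, 27],
  [23, 23, 24, 16, 28, 18, 5, 4, 26, 3, 2, 21, 11, 28, 28, 29, 3, 4, 23, 16, 3, 12, 4, 16, 25, 24, 1, 15],
  [27, 3, 18, 9, 17, 26, 5, 21, 26, 28, 16, 21, 2, 28, 28, 20, 4, 22, 16, 15, 27, 6, 4, 0, 7, 5, 25, 18],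
  [6, 14, 15, 30, 24, 11, 15, 26, 4, 8, 21, 1, 22, 3, 20, 2, 8, 14, 22, 27, 2, 3, 25, 25, 24, 26, 24, 20],
  [9, 30, 17, 11, 6, 22, 30, 15, 18, 30, 10, 3, 25, 4, 2, 4, 4, 22, 20, 26, 19, 3, 12, 19, 12, 1, 14, 26],
  [23, 10, 2, 24, 8, 19, 23, 27, 6, 24, 2, 14, 21, 28, 25, 2, 10, 6, 12, 17, 22, 24, 27, 4, 20, 2, 2, 13],
  [29, 4, 20, 13, 9, 15, 25, 14, 16, 8, 20, 19, 29, 30, 3, 11, 29, 1, 0, 24, 19, 12, 4, 5, 29, 3, 9, 8],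
  [11, 21, 16, 1, 15, 23, 10, 25, 9, 23, 17, 6, 17, 6, 28, 7, 6, 30, 21, 12, 11, 21, 12, 7, 13, 28, 0, 14],
  [30, 13, 3, 22, 10, 12, 3, 25, 15, 2, 16, 28, 20, 12, 24, 2, 14, 16, 19, 1, 29, 25, 17, 24, 6, 14, 17, 1],
  [21, 28, 20, 19, 16, 24, 13, 12, 3, 17, 23, 9, 21, 28, 27, 3, 15, 0, 23, 16, 15, 12, 18, 29, 0, 4, 20, 29],
  [24, 13, 21, 25, 12, 30, 7, 28, 22, 12, 30, 16, 3, 9, 27, 2, 29, 29, 28, 13, 25, 19, 5, 0, 14, 30, 30, 25],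
  [1, 12, 3, 24, 26, 26, 18, 18, 23, 8, 19, 10, 22, 10, 24, 26, 21, 5, 8, 21, 18, 10, 8, 6, 0, 25, 20, 15],
  [20, 25, 11, 21, 15, 11, 1, 28, 24, 7, 19, 23, 5, 26, 25, 21, 19, 16, 18, 1, 8, 17, 26, 11, 4, 4, 26, 24],
  [1, 16, 8, 7, 2, 19, 28, 3, 22, 12, 25, 4, 25, 18, 21, 6, 11, 1, 27, 6, 5, 13, 27, 15, 12, 26, 8, 22],
  [12, 19, 19, 15, 24, 12, 11, 23, 5, 15, 22, 3, 15, 19, 26, 30, 13, 23, 12, 12, 23, 4, 30, 1, 0, 16, 18, 12],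
  [11, 9, 18, 21, 4, 19, 23, 23, 30, 4, 10, 14, 24, 23, 19, 14, 14, 6, 22, 8, 7, 22, 2, 20, 5, 28, 3, 14],
  [2, 15, 2, 15, 19, 0, 5, 24, 14, 4, 10, 14, 21, 11, 24, 2, 22, 3, 5, 16, 11, 22, 7, 14, 15, 9, 13, 26],
  [22, 26, 20, 28, 2, 3, 27, 15, 16, 18, 14, 14, 8, 5, 8, 14, 30, 7, 27, 7, 22, 23, 9, 15, 15, 0, 14, 4],
  [22, 0, 19, 29, 23, 29, 21, 14, 16, 8, 19, 27, 28, 12, 18, 21, 28, 10, 26, 6, 2, 16, 21, 27, 16, 30, 4, 6],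
  [0, 9, 9, 8, 11, 24, 30, 2, 18, 15, 18, 5, 29, 26, 8, 6, 3, 22, 10, 22, 8, 11, 7, 11, 19, 25, 4, 13],
  [15, 5, 19, 24, 30, 15, 13, 7, 16, 21, 15, 1, 5, 25, 7, 4, 3, 24, 22, 13, 13, 12, 28, 21, 23, 13, 20, 23]]

/-- The inverse matrix modulo `31`. -/
def invA : List (List ℕ) := [[22, 27, 15, 18, 10, 18, 20, 17, 18, 18, 7, 24, 5, 0, 3, 0, 13, 4, 13, 6, 24, 18, 4, 2, 6, 2, 21, 7],
  [25, 23, 4, 4, 23, 5, 18, 29, 8, 11, 7, 19, 2, 26, 20, 17, 28, 8, 28, 23, 11, 30, 1, 9, 22, 23, 12, 8],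
  [30, 20, 1, 5, 29, 24, 13, 28, 30, 8, 28, 6, 2, 16, 20, 13, 19, 25, 28, 7, 19, 16, 5, 10, 17, 13, 4, 11],
  [20, 12, 27, 27, 5, 20, 15, 17, 8, 12, 30, 7, 5, 15, 22, 20, 12, 9, 20, 6, 13, 0, 8, 0, 4, 10, 14, 15],
  [5, 27, 28, 10, 13, 21, 16, 2, 4, 7, 24, 0, 28, 5, 28, 15, 26, 8, 19, 16, 19, 2, 25, 18, 16, 14, 6, 11],
  [27, 15, 8, 18, 23, 1, 5, 29, 15, 19, 23, 12, 1, 30, 25, 3, 20, 22, 5, 27, 24, 19, 1, 16, 24, 15, 28, 17],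
  [9, 13, 14, 13, 0, 23, 25, 5, 18, 8, 6, 14, 9, 8, 3, 19, 10, 19, 20, 19, 2, 3, 29, 26, 2, 26, 23, 7],
  [19, 2, 7, 11, 18, 5, 2, 8, 5, 9, 7, 1, 27, 16, 25, 11, 13, 13, 29, 24, 6, 21, 5, 29, 1, 3, 10, 25],
  [18, 2, 14, 28, 22, 10, 18, 11, 4, 22, 10, 24, 22, 2, 10, 14, 27, 12, 4, 22, 1, 6, 15, 30, 20, 27, 10, 25],
  [3, 1, 24, 28, 3, 23, 14, 7, 4, 12, 30, 11, 23, 11, 12, 0, 6, 7, 24, 24, 28, 24, 4, 5, 23, 20, 4, 0],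
  [27, 10, 22, 21, 27, 15, 2, 30, 10, 16, 28, 8, 10, 11, 27, 21, 29, 28, 20, 11, 9, 25, 22, 26, 10, 24, 28, 5],
  [27, 14, 4, 6, 24, 26, 8, 23, 9, 16, 17, 22, 21, 18, 4, 12, 8, 5, 26, 22, 24, 13, 6, 13, 17, 26, 14, 30],
  [17, 26, 25, 16, 14, 23, 21, 15, 9, 15, 15, 12, 11, 30, 18, 16, 3, 10, 25, 30, 4, 0, 9, 7, 8, 20, 9, 10],
  [22, 0, 15, 20, 9, 11, 26, 13, 3, 25, 7, 19, 13, 18, 19, 16, 21, 19, 7, 11, 24, 28, 24, 1, 9, 10, 11, 24],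
  [12, 22, 0, 24, 16, 2, 4, 8, 6, 30, 17, 30, 3, 21, 19, 15, 30, 26, 19, 22, 14, 30, 19, 7, 4, 8, 29, 5],
  [11, 23, 11, 11, 29, 30, 9, 22, 28, 5, 27, 14, 6, 29, 24, 11, 22, 10, 18, 27, 26, 5, 12, 2, 20, 13, 11, 6],
  [26, 28, 23, 8, 22, 19, 19, 24, 7, 6, 18, 12, 15, 8, 4, 7, 28, 27, 19, 3, 15, 15, 7, 18, 27, 15, 24, 29],
  [3, 19, 0, 20, 13, 4, 7, 5, 1, 6, 29, 1, 6, 7, 9, 16, 8, 22, 3, 12, 7, 5, 14, 22, 26, 25, 23, 23],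
  [17, 30, 16, 1, 19, 8, 30, 26, 14, 6, 0, 13, 14, 14, 1, 17, 26, 8, 7, 3, 21, 4, 6, 15, 29, 20, 27, 28],
  [19, 9, 14, 13, 27, 16, 24, 21, 6, 15, 15, 28, 23, 7, 27, 8, 0, 8, 28, 25, 4, 5, 30, 5, 14, 16, 5, 11],
  [2, 13, 11, 17, 17, 11, 20, 24, 16, 8, 13, 23, 17, 5, 5, 19, 9, 12, 25, 19, 5, 24, 7, 19, 4, 14, 25, 4],
  [27, 5, 26, 27, 21, 7, 25, 2, 28, 19, 20, 22, 9, 21, 1, 7, 25, 9, 17, 23, 8, 3, 2, 22, 23, 13, 18, 4],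
  [29, 19, 12, 30, 5, 23, 13, 24, 9, 29, 12, 4, 13, 28, 21, 20, 22, 13, 30, 0, 10, 13, 30, 3, 22, 25, 22, 10],
  [10, 8, 23, 17, 8, 24, 10, 30, 3, 5, 23, 1, 8, 29, 10, 26, 10, 30, 27, 13, 21, 10, 3, 13, 25, 2, 25, 14],
  [30, 25, 20, 23, 20, 29, 23, 8, 3, 7, 27, 23, 18, 19, 11, 16, 11, 5, 30, 28, 28, 12, 10, 26, 27, 27, 10, 16],
  [9, 19, 28, 25, 0, 19, 3, 22, 10, 22, 19, 24, 14, 10, 26, 27, 14, 25, 3, 3, 13, 21, 19, 26, 6, 17, 15, 3],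
  [12, 15, 12, 30, 10, 13, 7, 3, 16, 12, 16, 8, 2, 0, 11, 26, 16, 7, 25, 4, 24, 22, 17, 15, 15, 25, 16, 13],
  [17, 17, 7, 26, 23, 12, 22, 10, 1, 6, 7, 26, 21, 4, 12, 2, 9, 18, 20, 29, 19, 19, 11, 28, 20, 23, 10, 14]]

/-- The product for one permutation, modulo `31`. -/
def leafA (n0 n1 n2 n3 a b c d e : ℕ) : ℕ :=
  Nat.mul (Nat.mul (Nat.pow (Nat.add b (Nat.sub 31 a)) n0)
    (Nat.pow (Nat.add c (Nat.sub 31 a)) n1))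
    (Nat.mul (Nat.pow (Nat.add d (Nat.sub 31 a)) n2)
    (Nat.pow (Nat.add e (Nat.sub 31 a)) n3))

/-- The symmetrised product modulo `31`. -/
def evalA : ℕ × ℕ × ℕ × ℕ → List ℕ → ℕ
  | (n0, n1, n2, n3), [a, b, c, d, e] => A5 (leafA n0 n1 n2 n3) a b c d e
  | _, _ => 0

theorem tabA_ok : rowsA.map (fun n => colsA.map fun h => Nat.mod (evalA n h) 31) = tabA := by
  decide +kernel

theorem invA_ok : tabA.map (fun r => invA.map fun c => dotN r c % 31) =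
      (List.range 28).map fun i => (List.range 28).map fun j => if i = j then 1 else 0 := by
  decide +kernel

theorem tabA_length : tabA.length = 28 ∧ invA.length = 28 ∧ (∀ r ∈ tabA, r.length = 28) ∧
    ∀ r ∈ invA, r.length = 28 := by
  decide +kernel

theorem rowsA_ok : rowsA.length = 28 ∧ colsA.length = 28 ∧
    (∀ n ∈ rowsA, n.1 + n.2.1 + n.2.2.1 + n.2.2.2 = 20) ∧
    ∀ h ∈ colsA, h.length = 5 ∧ ∀ x ∈ h, x ≤ 31 := by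
  decide +kernel

end Pool.Agent.Helper5.Vass
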