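import Pool.Agent.Helper5.Vass.Enum

set_option autoImplicit false

/-!
# The independence certificate for the `K_{3,3}` graphs
-/

namespace Pool.Agent.Helper5.Vass

/-- The exponents: the numbers of legs on the three marked edges. -/
def rowsD : List (ℕ × ℕ × ℕ) := [(0, 1, 19),
  (0, 2, 18),
  (0, 4, 16),
  (0, 5, 15),
  (0, 6, 14),
  (0, 7, 13),
  (0, 8, 12),
  (0, 10, 10),
  (2, 5, 13),
  (2, 6, 12),
  (2, 7, 11)]

/-- The values of the labels. -/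
def colsD : List (List ℕ) := [[0, 1, 3, 5],
  [0, 6, 7, 8],
  [2, 3, 5, 8],
  [1, 5, 7, 8],
  [1, 2, 5, 6],
  [1, 2, 3, 7],
  [0, 2, 3, 6],
  [0, 2, 5, 8],
  [1, 3, 7, 8],
  [2, 4, 6, 8],
  [1, 2, 5, 8]]

/-- The values of the symmetrised products modulo `31`. -/
def tabD : List (List ℕ) := [[15, 22, 5, 27, 27, 19, 27, 0, 19, 21, 13],
  [5, 24, 7, 27, 4, 8, 13, 0, 8, 0, 10],
  [28, 3, 11, 14, 6, 24, 3, 29, 13, 12, 3],
  [18, 18, 10, 1, 27, 6, 25, 24, 17, 28, 20],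
  [20, 10, 5, 16, 11, 8, 14, 11, 27, 28, 10],
  [18, 19, 19, 14, 9, 2, 17, 2, 24, 24, 7],
  [19, 16, 15, 8, 13, 2, 5, 19, 13, 28, 30],
  [13, 18, 12, 22, 19, 12, 7, 21, 29, 1, 15],
  [5, 17, 5, 23, 16, 20, 28, 12, 23, 4, 29],
  [8, 2, 23, 12, 2, 16, 0, 28, 18, 6, 17],
  [22, 9, 5, 0, 3, 3, 7, 14, 13, 7, 22]]

/-- The inverse matrix modulo `31`. -/
def invD : List (List ℕ) := [[18, 20, 4, 8, 1, 23, 13, 13, 26, 8, 14],
  [10, 15, 6, 26, 28, 23, 22, 23, 7, 10, 10],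
  [22, 10, 2, 11, 0, 25, 9, 17, 4, 9, 23],
  [24, 28, 20, 9, 10, 23, 25, 13, 5, 23, 22],
  [4, 25, 14, 8, 6, 5, 7, 7, 27, 5, 9],
  [16, 12, 2, 3, 16, 23, 10, 2, 12, 22, 21],
  [20, 20, 17, 21, 15, 3, 24, 15, 21, 15, 3],
  [7, 0, 5, 20, 3, 23, 2, 25, 26, 26, 20],
  [15, 11, 24, 1, 10, 14, 18, 1, 8, 5, 7],
  [19, 27, 10, 6, 25, 27, 4, 25, 21, 18, 7],
  [12, 12, 12, 21, 12, 14, 1, 3, 21, 19, 21]]

/-- The product for one signed permutation, modulo `31`. -/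
def leafD (x y z a0 a1 a2 a3 : ℕ) : ℕ :=
  Nat.mul (Nat.mul (Nat.pow (Nat.add a1 (Nat.sub 31 a0)) x)
    (Nat.pow (Nat.add a2 (Nat.sub 31 a1)) y))
    (Nat.add (Nat.add (Nat.pow (Nat.add a2 a0) z)
      (Nat.add (Nat.pow (Nat.add (Nat.sub 31 a1) (Nat.sub 31 a3)) z)
        (Nat.pow (Nat.add a3 (Nat.sub 31 a1)) z)))
      (Nat.mul 30 (Nat.add (Nat.pow (Nat.add a0 (Nat.sub 31 a3)) z)
        (Nat.add (Nat.pow (Nat.add a3 a0) z)
          (Nat.pow (Nat.add (Nat.sub 31 a1) (Nat.sub 31 a2)) z)))))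

/-- The symmetrised product modulo `31`. -/
def evalD : ℕ × ℕ × ℕ → List ℕ → ℕ
  | (x, y, z), [a, b, c, d] => D4 (leafD x y z) 31 a b c d
  | _, _ => 0

theorem tabD_ok : rowsD.map (fun n => colsD.map fun h => Nat.mod (evalD n h) 31) = tabD := by
  decide +kernel

theorem invD_ok : tabD.map (fun r => invD.map fun c => dotN r c % 31) =
      (List.range 11).map fun i => (List.range 11).map fun j => if i = j then 1 else 0 := by
  decide +kernel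

theorem tabD_length : tabD.length = 11 ∧ invD.length = 11 ∧ (∀ r ∈ tabD, r.length = 11) ∧
    ∀ r ∈ invD, r.length = 11 := by
  decide +kernel

theorem rowsD_ok : rowsD.length = 11 ∧ colsD.length = 11 ∧
    (∀ n ∈ rowsD, n.1 + n.2.1 + n.2.2 = 20) ∧
    ∀ h ∈ colsD, h.length = 4 ∧ ∀ x ∈ h, x ≤ 31 := by
  decide +kernel

end Pool.Agent.Helper5.Vass
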