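import Pool.Agent.Helper5.Vass.Tensor

set_option autoImplicit false

/-!
# Top weight systems: all label types are used
-/

namespace Pool.Agent.Helper5.Vass

open Equiv Finset

section
variable {L K : Type} [Fintype L] [DecidableEq L] [Fintype K] [DecidableEq K]

theorem sum_fix {H : Type} [Fintype H] [DecidableEq H] (e : H → H) (he : ∀ h, e (e h) = h)
    (f : (H → L × L) → ℤ) :
    ∑ x : H → L × L, (if ∀ h, x (e h) = (x h).swap then f x else 0) =
      ∑ i : H → L, f (fun h => (i h, i (e h))) := by
  rw [← Finset.sum_filter]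
  symm
  refine Finset.sum_nbij' (fun i => fun h => (i h, i (e h))) (fun x => fun h => (x h).1)
    ?_ ?_ ?_ ?_ ?_
  · intro i _
    simp only [Finset.mem_filter, Finset.mem_univ, true_and]
    intro h
    rw [he]
    rfl
  · intro x _
    exact Finset.mem_univ _
  · intro i _
    rfl
  · intro x hx
    simp only [Finset.mem_filter, Finset.mem_univ, true_and] at hx
    funext h
    refine Prod.ext rfl ?_
    show (x (e h)).1 = (x h).2
    rw [hx]
    rfl
  · intro i _
    rfl

theorem incl_excl (R : Finset K) :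
    ∑ S : Finset K, (-1 : ℤ) ^ (Sᶜ).card * (if R ⊆ S then 1 else 0) =
      if R = Finset.univ then 1 else 0 := by
  have h1 : ∑ S : Finset K, (-1 : ℤ) ^ (Sᶜ).card * (if R ⊆ S then 1 else 0) =
      ∑ S ∈ (Rᶜ).powerset, (-1 : ℤ) ^ S.card := by
    rw [← Equiv.sum_comp (⟨compl, compl, compl_compl, compl_compl⟩ : Finset K ≃ Finset K)]
    rw [← Finset.sum_filter_add_sum_filter_not Finset.univ (fun S => S ⊆ Rᶜ)]
    have h2 : ∑ S ∈ (Finset.univ.filter fun S : Finset K => ¬ S ⊆ Rᶜ), (-1 : ℤ) ^
        (((⟨compl, compl, compl_compl, compl_compl⟩ : Finset K ≃ Finset K) S)ᶜ).card *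
        (if R ⊆ (⟨compl, compl, compl_compl, compl_compl⟩ : Finset K ≃ Finset K) S
          then 1 else 0) = 0 := by
      refine Finset.sum_eq_zero fun S hS => ?_
      have hS' := (Finset.mem_filter.1 hS).2
      have : ¬ (R ⊆ (⟨compl, compl, compl_compl, compl_compl⟩ : Finset K ≃ Finset K) S) := by
        intro hh
        apply hS'
        show S ≤ Rᶜ
        have hh' : R ≤ Sᶜ := hh
        exact le_compl_comm.1 hh'
      rw [if_neg this, mul_zero]
    rw [h2, add_zero]
    have h3 : (Finset.univ.filter fun S : Finset K => S ⊆ Rᶜ) = (Rᶜ).powerset := by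
      ext S
      simp
    rw [h3]
    refine Finset.sum_congr rfl fun S hS => ?_
    have hS' : S ≤ Rᶜ := Finset.mem_powerset.1 hS
    have h4 : R ⊆ (⟨compl, compl, compl_compl, compl_compl⟩ : Finset K ≃ Finset K) S := by
      show R ≤ Sᶜ
      exact le_compl_comm.1 hS'
    rw [if_pos h4, mul_one]
    congr 2
    exact compl_compl S
  rw [h1, Finset.sum_powerset_neg_one_pow_card]
  refine if_congr ?_ rfl rfl
  exact compl_eq_bot

end

section
variable {V U L K : Type} [Fintype V] [DecidableEq V] [Fintype U] [DecidableEq U]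
  [Fintype L] [DecidableEq L] [Fintype K] [DecidableEq K]

/-- The alternating sum of the weights over all sets of label types. -/
def topW (κ : L → K) (C : L × L → L × L → L × L → ℤ) (l : L × L → ℤ)
    (e : HalfEdge V U → HalfEdge V U) (w : Finset K → (HalfEdge V U → L × L) → ℤ) : ℤ :=
  ∑ S : Finset K, (-1 : ℤ) ^ (Sᶜ).card * W (resC κ S C) Prod.swap l e (w S)

theorem topW_core [IsEmpty U] (κ : L → K) (C : L × L → L × L → L × L → ℤ) (l : L × L → ℤ)
    (G : UTGraph V U) (lam : L × L → ℤ) {m : ℕ} (M : Fin m → HalfEdge V U) (n : Fin m → ℕ) :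
    topW κ C l G.e (fun S => pw (resl κ S lam) M n) =
      ∑ i : HalfEdge V U → L, if (Finset.univ.image fun h => κ (i h)) = Finset.univ then
        (∏ v, C (i (Sum.inl (v, 0)), i (G.e (Sum.inl (v, 0))))
          (i (Sum.inl (v, 1)), i (G.e (Sum.inl (v, 1))))
          (i (Sum.inl (v, 2)), i (G.e (Sum.inl (v, 2))))) *
        ∏ j, lam (i (M j), i (G.e (M j))) ^ n j else 0 := by
  unfold topW W
  have h1 : ∀ S : Finset K, ∑ x : HalfEdge V U → L × L, (if ∀ h, x (G.e h) = (x h).swap then
      Fprod (resC κ S C) l x * pw (resl κ S lam) M n x else 0) =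
      ∑ i : HalfEdge V U → L, (if (Finset.univ.image fun h => κ (i h)) ⊆ S then 1 else 0) *
        ((∏ v, C (i (Sum.inl (v, 0)), i (G.e (Sum.inl (v, 0))))
          (i (Sum.inl (v, 1)), i (G.e (Sum.inl (v, 1))))
          (i (Sum.inl (v, 2)), i (G.e (Sum.inl (v, 2))))) *
        ∏ j, lam (i (M j), i (G.e (M j))) ^ n j) := by
    intro S
    rw [sum_fix (fun h => G.e h) G.invol]
    refine Finset.sum_congr rfl fun i _ => ?_
    by_cases hS : (Finset.univ.image fun h => κ (i h)) ⊆ S
    · have hall : ∀ h, κ (i h) ∈ S := fun h =>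
        hS (Finset.mem_image_of_mem _ (Finset.mem_univ h))
      have hin : ∀ h, inS κ S (i h, i (G.e h)) := fun h => ⟨hall h, hall _⟩
      rw [if_pos hS, one_mul]
      congr 1
      · unfold Fprod
        rw [Fintype.prod_empty (ι := U), mul_one]
        refine Finset.prod_congr rfl fun v _ => ?_
        unfold resC
        rw [if_pos ⟨hin _, hin _, hin _⟩]
      · unfold pw
        refine Finset.prod_congr rfl fun j _ => ?_
        unfold resl
        rw [if_pos (hin _)]
    · rw [if_neg hS, zero_mul]
      have hex : ∃ v q, κ (i (Sum.inl (v, q))) ∉ S := by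
        by_contra hcon
        push Not at hcon
        apply hS
        intro k hk
        obtain ⟨h, _, rfl⟩ := Finset.mem_image.1 hk
        rcases h with ⟨v, q⟩ | u
        · exact hcon v q
        · exact (IsEmpty.false u).elim
      obtain ⟨v, q, hvq⟩ := hex
      have hz : Fprod (resC κ S C) l (fun h => (i h, i (G.e h))) = 0 := by
        unfold Fprod
        rw [Finset.prod_eq_zero (Finset.mem_univ v), zero_mul]
        unfold resC
        rw [if_neg]
        rintro ⟨a0, a1, a2⟩
        have hq := (by decide : ∀ q : Fin 3, q = 0 ∨ q = 1 ∨ q = 2) q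
        rcases hq with rfl | rfl | rfl
        · exact hvq a0.1
        · exact hvq a1.1
        · exact hvq a2.1
      rw [hz, zero_mul]
  simp only [h1, Finset.mul_sum]
  rw [Finset.sum_comm]
  refine Finset.sum_congr rfl fun i _ => ?_
  simp only [← mul_assoc]
  rw [← Finset.sum_mul, ← Finset.sum_mul]
  rw [incl_excl]
  split_ifs with h
  · ring
  · ring

end

end Pool.Agent.Helper5.Vass
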