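import Pool.Agent.Helper5.Vass.Gl

set_option autoImplicit false

/-!
# The two core graphs: the prism and `K_{3,3}`
-/

namespace Pool.Agent.Helper5.Vass

open Equiv Finset

/-- The vertices of the core graphs. -/
abbrev V0 : Type := Bool × Fin 3

/-- The half-edges of the core graphs. -/
abbrev H0 : Type := HalfEdge V0 Empty

/-- The gluing of the prism. -/
def prismFun : H0 → H0
  | Sum.inl ((b, p), q) => if q = 0 then Sum.inl ((!b, p), 0) else
      if q = 1 then Sum.inl ((b, p + 1), 2) else Sum.inl ((b, p + 2), 1)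

/-- The gluing of `K_{3,3}`. -/
def k33Fun : H0 → H0
  | Sum.inl ((b, p), q) => Sum.inl ((!b, q), p)

/-- The prism. -/
def prism : UTGraph V0 Empty where
  e := Function.Involutive.toPerm prismFun (by unfold Function.Involutive; decide)
  invol := by decide
  fpf := by decide

/-- The graph `K_{3,3}`. -/
def k33 : UTGraph V0 Empty where
  e := Function.Involutive.toPerm k33Fun (by unfold Function.Involutive; decide)
  invol := by decide
  fpf := by decide

theorem k33_connected : k33.Connected := by
  intro S hne hS hV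
  have he : ∀ b p q, (Sum.inl ((b, p), q) : H0) ∈ S → (Sum.inl ((!b, q), p) : H0) ∈ S :=
    fun b p q h => hS _ h
  have hbase : (Sum.inl ((false, 0), 0) : H0) ∈ S := by
    obtain ⟨⟨⟨b, p⟩, q⟩ | u, hx⟩ := hne
    · cases b with
      | false =>
        have h1 := hV _ _ 0 (he _ _ _ hx)
        exact hV _ _ 0 (he _ _ _ h1)
      | true =>
        have h1 := he _ _ _ (hV _ _ 0 hx)
        exact hV _ _ 0 h1
    · exact u.elim
  have htrue : ∀ p q, (Sum.inl ((true, p), q) : H0) ∈ S := by
    intro p q
    have h1 := he _ _ _ (hV _ _ p hbase)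
    exact hV _ _ q h1
  rw [Set.eq_univ_iff_forall]
  rintro (⟨⟨b, p⟩, q⟩ | u)
  · cases b with
    | false => exact he true q p (htrue q p)
    | true => exact htrue p q
  · exact u.elim

theorem prism_connected : prism.Connected := by
  intro S hne hS hV
  have h0 : ∀ b p, (Sum.inl ((b, p), 0) : H0) ∈ S → (Sum.inl ((!b, p), 0) : H0) ∈ S :=
    fun b p h => hS _ h
  have h1 : ∀ b p, (Sum.inl ((b, p), 0) : H0) ∈ S → (Sum.inl ((b, p + 1), 0) : H0) ∈ S :=
    fun b p h => hV _ 2 0 (hS _ (hV _ _ 1 h))
  have h2 : ∀ b p, (Sum.inl ((b, p), 0) : H0) ∈ S → ∀ p', (Sum.inl ((b, p'), 0) : H0) ∈ S := by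
    intro b p h p'
    have e1 := h1 b p h
    have e2 := h1 b _ e1
    have hp := (by decide : ∀ p p' : Fin 3, p' = p ∨ p' = p + 1 ∨ p' = p + 1 + 1) p p'
    rcases hp with rfl | rfl | rfl
    · exact h
    · exact e1
    · exact e2
  rw [Set.eq_univ_iff_forall]
  obtain ⟨⟨⟨b, p⟩, q⟩ | u, hx⟩ := hne
  · have hx0 := hV _ _ 0 hx
    rintro (⟨⟨b', p'⟩, q'⟩ | u)
    · refine hV _ 0 q' ?_
      by_cases hb : b' = b
      · subst hb
        exact h2 _ _ hx0 _
      · have hb' : b' = !b := (by decide : ∀ b b' : Bool, b' ≠ b → b' = !b) b b' hb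
        subst hb'
        exact h2 _ _ (h0 _ _ hx0) _
    · exact u.elim
  · exact u.elim

/-- The index of a half-edge. -/
def idx0 : H0 → ℕ
  | Sum.inl ((b, p), q) => (if b then 9 else 0) + 3 * p.val + q.val

/-- The rotation at the vertices for a choice of reversals. -/
def rotS (s : V0 → Bool) : H0 → H0
  | Sum.inl (v, q) => Sum.inl (v, nxt (s v) q)

/-- Six Booleans give a choice of reversals. -/
def mk6 (a b c d e f : Bool) : V0 → Bool
  | (false, p) => if p = 0 then a else if p = 1 then b else c
  | (true, p) => if p = 0 then d else if p = 1 then e else f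

theorem mk6_eq (s : V0 → Bool) : s = mk6 (s (false, 0)) (s (false, 1)) (s (false, 2))
    (s (true, 0)) (s (true, 1)) (s (true, 2)) := by
  funext v
  obtain ⟨b, p⟩ := v
  have hp := (by decide : ∀ q : Fin 3, q = 0 ∨ q = 1 ∨ q = 2) p
  cases b <;> rcases hp with rfl | rfl | rfl <;> rfl

/-- The number of half-edges of smallest index in their orbits. -/
def numMin (f : H0 → H0) : ℕ :=
  (Finset.univ.filter fun x : H0 => allLe idx0 f (idx0 x) 18 x = true).card

theorem k33_gl_count : ∀ a b c d e f : Bool,
    numMin (fun x => rotS (mk6 a b c d e f) (k33Fun x)) < 5 := by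
  decide +kernel

/-- The two planar choices. -/
def isPl (a b c d e f : Bool) : Bool :=
  (!a && !b && !c && d && e && f) || (a && b && c && !d && !e && !f)

theorem prism_gl_count : ∀ a b c d e f : Bool, isPl a b c d e f = false →
    numMin (fun x => rotS (mk6 a b c d e f) (prismFun x)) < 5 := by
  decide +kernel

theorem isPl_iff : ∀ a b c d e f : Bool, isPl a b c d e f = true →
    (a, b, c, d, e, f) = (false, false, false, true, true, true) ∨
    (a, b, c, d, e, f) = (true, true, true, false, false, false) := by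
  decide

section
variable {L : Type} [Fintype L] [DecidableEq L]

theorem glConstr_iff (G : UTGraph V0 Empty) (s : V0 → Bool) (i : H0 → L) :
    (∀ v q, i (G.e (Sum.inl (v, q))) = i (Sum.inl (v, nxt (s v) q))) ↔
      ∀ x, i (rotS s (G.e x)) = i x := by
  constructor
  · intro h x
    obtain ⟨⟨v, q⟩ | u, hx⟩ : ∃ y, y = G.e x := ⟨_, rfl⟩
    · have h1 := h v q
      rw [← hx]
      show i (Sum.inl (v, nxt (s v) q)) = i x
      rw [← h1, hx, G.invol]
    · exact u.elim
  · intro h v q
    have h1 := h (G.e (Sum.inl (v, q)))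
    rw [G.invol] at h1
    exact h1.symm

theorem glTerm_eq_zero (G : UTGraph V0 Empty) (s : V0 → Bool) (hs : numMin (fun x => rotS s (G.e x)) <
    Fintype.card L) {m : ℕ} (M : Fin m → H0) (n : Fin m → ℕ) (hh : L → ℤ) :
    glTerm G.e s M n hh = 0 := by
  unfold glTerm
  refine Finset.sum_eq_zero fun i _ => ?_
  rw [if_neg]
  rintro ⟨h1, h2⟩
  have h3 := (glConstr_iff G s i).1 h2
  have h4 := card_le_minima idx0 (fun x => rotS s (G.e x)) 18 i h3 h1
  unfold numMin at hs
  omega

theorem topW_k33_gl {m : ℕ} (M : Fin m → H0) (n : Fin m → ℕ) (hh : Fin 5 → ℤ) :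
    topW (id : Fin 5 → Fin 5) Cg (legv hh) k33.e
      (fun S => pw (resl id S (fun a => hh a.2 - hh a.1)) M n) = 0 := by
  rw [topW_gl]
  refine Finset.sum_eq_zero fun s _ => ?_
  rw [glTerm_eq_zero k33 s _ M n hh, mul_zero]
  rw [mk6_eq s]
  exact k33_gl_count _ _ _ _ _ _

end

/-- The four marked half-edges of the prism: the boundary of a quadrangular face. -/
def markP : Fin 4 → H0
  | 0 => Sum.inl ((false, 0), 0)
  | 1 => Sum.inl ((false, 2), 1)
  | 2 => Sum.inl ((true, 2), 0)
  | 3 => Sum.inl ((true, 0), 2)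

/-- The faces of the prism for the first planar choice. -/
def face1 : H0 → Fin 5
  | Sum.inl ((b, p), q) =>
    (if b then (if p = 0 then (if q = 0 then 1 else if q = 1 then 4 else 0) else
        if p = 1 then (if q = 0 then 3 else if q = 1 then 4 else 1) else
          (if q = 0 then 0 else if q = 1 then 4 else 3)) else
      (if p = 0 then (if q = 0 then 0 else if q = 1 then 1 else 2) else
        if p = 1 then (if q = 0 then 1 else if q = 1 then 3 else 2) else
          (if q = 0 then 3 else if q = 1 then 0 else 2)))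

/-- The faces of the prism for the second planar choice. -/
def face2 : H0 → Fin 5
  | Sum.inl ((b, p), q) =>
    (if b then (if p = 0 then (if q = 0 then 2 else if q = 1 then 0 else 4) else
        if p = 1 then (if q = 0 then 0 else if q = 1 then 3 else 4) else
          (if q = 0 then 3 else if q = 1 then 2 else 4)) else
      (if p = 0 then (if q = 0 then 0 else if q = 1 then 1 else 2) else
        if p = 1 then (if q = 0 then 3 else if q = 1 then 1 else 0) else
          (if q = 0 then 2 else if q = 1 then 1 else 3)))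

def rep1 : Fin 5 → H0
  | 0 => Sum.inl ((false, 0), 0)
  | 1 => Sum.inl ((false, 0), 1)
  | 2 => Sum.inl ((false, 0), 2)
  | 3 => Sum.inl ((false, 1), 1)
  | 4 => Sum.inl ((true, 0), 1)

def rep2 : Fin 5 → H0
  | 0 => Sum.inl ((false, 0), 0)
  | 1 => Sum.inl ((false, 0), 1)
  | 2 => Sum.inl ((false, 0), 2)
  | 3 => Sum.inl ((false, 1), 0)
  | 4 => Sum.inl ((true, 0), 2)

def s1 : V0 → Bool := mk6 false false false true true true
def s2 : V0 → Bool := mk6 true true true false false false

theorem face1_step : ∀ x, face1 (rotS s1 (prismFun x)) = face1 x := by decide +kernel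
theorem face2_step : ∀ x, face2 (rotS s2 (prismFun x)) = face2 x := by decide +kernel
theorem face1_rep : ∀ k, face1 (rep1 k) = k := by decide +kernel
theorem face2_rep : ∀ k, face2 (rep2 k) = k := by decide +kernel
theorem cov1 : ∀ x, ∃ n : Fin 5, (fun x => rotS s1 (prismFun x))^[n.val] x = rep1 (face1 x) := by
  decide +kernel
theorem cov2 : ∀ x, ∃ n : Fin 5, (fun x => rotS s2 (prismFun x))^[n.val] x = rep2 (face2 x) := by
  decide +kernel

/-- The symmetrised product. -/
def symA (n : Fin 4 → ℕ) (hh : Fin 5 → ℤ) : ℤ :=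
  ∑ j : Fin 5 → Fin 5, if Finset.univ.image j = Finset.univ then
    ∏ m : Fin 4, (hh (j m.succ) - hh (j 0)) ^ n m else 0

theorem glTerm1 (n : Fin 4 → ℕ) (hh : Fin 5 → ℤ) :
    glTerm prism.e s1 markP n hh = symA n hh := by
  unfold glTerm symA
  have h1 : ∀ i : H0 → Fin 5, ((Finset.univ.image i = Finset.univ) ∧
      (∀ v q, i (prism.e (Sum.inl (v, q))) = i (Sum.inl (v, nxt (s1 v) q)))) ↔
      ((Finset.univ.image i = Finset.univ) ∧ ∀ x, i ((fun x => rotS s1 (prismFun x)) x) = i x) := by
    intro i
    exact and_congr_right fun _ => glConstr_iff prism s1 i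
  simp only [h1]
  rw [sum_orbits (fun x => rotS s1 (prismFun x)) face1 rep1 face1_step face1_rep
    (fun x => ⟨_, (cov1 x).choose_spec⟩)
    (fun i => ∏ j, (hh (i (prism.e (markP j))) - hh (i (markP j))) ^ n j)]
  refine Finset.sum_congr rfl fun j _ => ?_
  refine if_congr Iff.rfl ?_ rfl
  refine Finset.prod_congr rfl fun m _ => ?_
  have e1 : ∀ m : Fin 4, face1 (prism.e (markP m)) = m.succ := by decide +kernel
  have e2 : ∀ m : Fin 4, face1 (markP m) = 0 := by decide +kernel
  simp only [e1, e2]

/-- The relabelling of the faces. -/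
def perm2 : Perm (Fin 5) where
  toFun := ![2, 0, 1, 3, 4]
  invFun := ![1, 2, 0, 3, 4]
  left_inv := by decide
  right_inv := by decide

theorem glTerm2 (n : Fin 4 → ℕ) (hn : Even (∑ i, n i)) (hh : Fin 5 → ℤ) :
    glTerm prism.e s2 markP n hh = symA n hh := by
  unfold glTerm symA
  have h1 : ∀ i : H0 → Fin 5, ((Finset.univ.image i = Finset.univ) ∧
      (∀ v q, i (prism.e (Sum.inl (v, q))) = i (Sum.inl (v, nxt (s2 v) q)))) ↔
      ((Finset.univ.image i = Finset.univ) ∧ ∀ x, i ((fun x => rotS s2 (prismFun x)) x) = i x) := by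
    intro i
    exact and_congr_right fun _ => glConstr_iff prism s2 i
  simp only [h1]
  rw [sum_orbits (fun x => rotS s2 (prismFun x)) face2 rep2 face2_step face2_rep
    (fun x => ⟨_, (cov2 x).choose_spec⟩)
    (fun i => ∏ j, (hh (i (prism.e (markP j))) - hh (i (markP j))) ^ n j)]
  rw [← Equiv.sum_comp (Equiv.arrowCongr perm2 (Equiv.refl (Fin 5)))]
  refine Finset.sum_congr rfl fun j _ => ?_
  have e0 : ∀ k, (Equiv.arrowCongr perm2 (Equiv.refl (Fin 5))) j (perm2 k) = j k := by
    intro k
    simp [Equiv.arrowCongr]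
  refine if_congr ?_ ?_ rfl
  · have : Finset.univ.image ((Equiv.arrowCongr perm2 (Equiv.refl (Fin 5))) j) =
        Finset.univ.image j := by
      ext a
      simp only [Finset.mem_image, Finset.mem_univ, true_and]
      constructor
      · rintro ⟨k, hk⟩
        obtain ⟨k', rfl⟩ := perm2.surjective k
        exact ⟨k', by rw [← hk, e0]⟩
      · rintro ⟨k, hk⟩
        exact ⟨perm2 k, by rw [e0, hk]⟩
    rw [this]
  · have e1 : ∀ m : Fin 4, face2 (prism.e (markP m)) = perm2 0 := by decide +kernel
    have e2 : ∀ m : Fin 4, face2 (markP m) = perm2 m.succ := by decide +kernel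
    have e3 : ∀ m : Fin 4, (hh ((Equiv.arrowCongr perm2 (Equiv.refl (Fin 5))) j
        (face2 (prism.e (markP m)))) - hh ((Equiv.arrowCongr perm2 (Equiv.refl (Fin 5))) j
        (face2 (markP m)))) ^ n m = (-1) ^ n m * (hh (j m.succ) - hh (j 0)) ^ n m := by
      intro m
      rw [e1, e2, e0, e0, ← mul_pow]
      congr 1
      ring
    simp only [e3]
    rw [Finset.prod_mul_distrib, Finset.prod_pow_eq_pow_sum, hn.neg_one_pow, one_mul]

theorem topW_prism_gl (n : Fin 4 → ℕ) (hn : Even (∑ i, n i)) (hh : Fin 5 → ℤ) :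
    topW (id : Fin 5 → Fin 5) Cg (legv hh) prism.e
      (fun S => pw (resl id S (fun a => hh a.2 - hh a.1)) markP n) = -2 * symA n hh := by
  rw [topW_gl]
  have hne : s1 ≠ s2 := by
    intro h
    have := congrFun h (false, 0)
    exact absurd this (by decide)
  rw [← Finset.sum_subset (Finset.subset_univ {s1, s2}), Finset.sum_pair hne, glTerm1,
    glTerm2 n hn]
  · have e1 : sgnV s1 = -1 := by decide +kernel
    have e2 : sgnV s2 = -1 := by decide +kernel
    rw [e1, e2]
    ring
  · intro s _ hs
    rw [glTerm_eq_zero prism s _ markP n hh, mul_zero]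
    rw [mk6_eq s] at hs ⊢
    by_cases hp : isPl (s (false, 0)) (s (false, 1)) (s (false, 2)) (s (true, 0)) (s (true, 1))
      (s (true, 2)) = true
    · rcases isPl_iff _ _ _ _ _ _ hp with h | h
      · simp only [Prod.mk.injEq] at h
        obtain ⟨a, b, c, d, e, f⟩ := h
        rw [a, b, c, d, e, f] at hs
        exact absurd (by simp [s1]) hs
      · simp only [Prod.mk.injEq] at h
        obtain ⟨a, b, c, d, e, f⟩ := h
        rw [a, b, c, d, e, f] at hs
        exact absurd (by simp [s2]) hs
    · exact prism_gl_count _ _ _ _ _ _ (by simpa using hp)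

end Pool.Agent.Helper5.Vass
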