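import Mathlib

set_option autoImplicit false

/-!
# Uni-trivalent graphs modulo AS and IHX

The space `B` of uni-trivalent graphs with cyclically oriented trivalent vertices, modulo the AS and
IHX relations, and the dimensions `β d u` of the subspaces spanned by connected graphs with `2 * d`
vertices, `u` of them univalent.
-/

namespace Pool.Agent.Helper5.Vass

open Equiv

/-- The half-edges of a uni-trivalent graph with set `V` of trivalent vertices and set `U` of
univalent vertices: the three half-edges `(v, 0), (v, 1), (v, 2)` at `v : V`, in their cyclic order
(this is the cyclic orientation of `v`), and one half-edge at each `u : U`. -/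
abbrev HalfEdge (V U : Type) : Type := (V × Fin 3) ⊕ U

/-- A uni-trivalent graph with cyclically oriented trivalent vertices, with trivalent vertices `V`
and univalent vertices `U`: a fixed-point-free involution `e` of the half-edges; the edges of the
graph are the pairs `{h, e h}`. -/
structure UTGraph (V U : Type) where
  /-- the involution which sends each half-edge to the other half of its edge -/
  e : Perm (HalfEdge V U)
  invol : ∀ h, e (e h) = h
  fpf : ∀ h, e h ≠ h

variable {V U : Type}

/-- Transport of a graph along a permutation `π` of the half-edges: the half-edge `π h` of the new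
graph is glued to `π h'` if and only if `h` is glued to `h'` in the old one. -/
def UTGraph.map (π : Perm (HalfEdge V U)) (G : UTGraph V U) : UTGraph V U where
  e := (π.symm.trans G.e).trans π
  invol h := by simp [G.invol]
  fpf h := by
    intro hh
    have : G.e (π.symm h) = π.symm h := by
      apply π.injective
      simpa using hh
    exact G.fpf _ this

/-- `π` is an isomorphism for the vertex structure: it permutes the trivalent vertices, rotates the
half-edges at each trivalent vertex (so it preserves the cyclic orders) and permutes the univalent
vertices. -/
def IsOrientedIso (π : Perm (HalfEdge V U)) : Prop :=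
  ∃ (α : Perm V) (r : V → Fin 3) (β : Perm U),
    (∀ v i, π (Sum.inl (v, i)) = Sum.inl (α v, i + r v)) ∧ ∀ u, π (Sum.inr u) = Sum.inr (β u)

/-- A graph is connected: no proper nonempty set of half-edges is closed under going to the other
half of the edge and under going to another half-edge at the same vertex. -/
def UTGraph.Connected (G : UTGraph V U) : Prop :=
  ∀ S : Set (HalfEdge V U), S.Nonempty → (∀ h ∈ S, G.e h ∈ S) →
    (∀ v i j, Sum.inl (v, i) ∈ S → Sum.inl (v, j) ∈ S) → S = Set.univ

section
variable [DecidableEq V] [DecidableEq U]

/-- The reversal of the cyclic order at the trivalent vertex `v`. -/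
def flipAt (v : V) : Perm (HalfEdge V U) := swap (Sum.inl (v, 1)) (Sum.inl (v, 2))

/-- The cyclic permutation of the three half-edges `(v, 1), (v, 2), (w, 1)`. -/
def rotAt (v w : V) : Perm (HalfEdge V U) :=
  swap (Sum.inl (v, 1)) (Sum.inl (v, 2)) * swap (Sum.inl (v, 2)) (Sum.inl (w, 1))

/-- The relations among graphs: isomorphic graphs are equal; AS: reversing the cyclic order at a
trivalent vertex changes the sign; IHX: if `(v, 0)` and `(w, 0)` form an edge, the sum of the graphs
obtained by cyclically permuting what is attached to `(v, 1), (v, 2), (w, 1)` is zero. -/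
inductive Rel (V U : Type) [DecidableEq V] [DecidableEq U] : (UTGraph V U →₀ ℚ) → Prop
  | iso (G : UTGraph V U) (π : Perm (HalfEdge V U)) (h : IsOrientedIso π) :
      Rel V U (Finsupp.single (G.map π) 1 - Finsupp.single G 1)
  | as (G : UTGraph V U) (v : V) :
      Rel V U (Finsupp.single G 1 + Finsupp.single (G.map (flipAt v)) 1)
  | ihx (G : UTGraph V U) (v w : V) (h : G.e (Sum.inl (v, 0)) = Sum.inl (w, 0)) :
      Rel V U (Finsupp.single G 1 + Finsupp.single (G.map (rotAt v w)) 1 +
        Finsupp.single (G.map (rotAt v w * rotAt v w)) 1)

/-- The `ℚ`-vector space spanned by the uni-trivalent graphs with trivalent vertices `V` and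
univalent vertices `U`, modulo AS and IHX. -/
abbrev BSpace (V U : Type) [DecidableEq V] [DecidableEq U] : Type :=
  (UTGraph V U →₀ ℚ) ⧸ Submodule.span ℚ {x | Rel V U x}

/-- The class of a graph. -/
noncomputable def cls (G : UTGraph V U) : BSpace V U :=
  Submodule.Quotient.mk (Finsupp.single G 1)

/-- The subspace spanned by the connected graphs. -/
noncomputable def BConn (V U : Type) [DecidableEq V] [DecidableEq U] : Submodule ℚ (BSpace V U) :=
  Submodule.span ℚ {x | ∃ G : UTGraph V U, G.Connected ∧ cls G = x}

end

/-- `β d u` is the dimension of the space spanned by the connected uni-trivalent graphs with `2 * d`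
vertices, `u` of which are univalent, modulo AS and IHX. -/
noncomputable def β (d u : ℕ) : ℕ :=
  Module.finrank ℚ (BConn (Fin (2 * d - u)) (Fin u))

/-- The power series `F_j(t) = ∑_{k ≥ 0} β_{k+j,k} t^k`. -/
noncomputable def F (j : ℕ) : PowerSeries ℚ :=
  PowerSeries.mk fun k => (β (k + j) k : ℚ)

end Pool.Agent.Helper5.Vass
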