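import Mathlib

set_option autoImplicit false

/-!
# Enumeration of injections
-/

namespace Pool.Agent.Helper5.Vass

open Equiv Finset

/-- The sum of a list of natural numbers. -/
def sumN : List ℕ → ℕ
  | [] => 0
  | x :: xs => Nat.add x (sumN xs)

theorem sumN_eq (l : List ℕ) : sumN l = l.sum := by
  induction l with
  | nil => rfl
  | cons x xs ih =>
    rw [List.sum_cons, ← ih]
    rfl

section
variable {L K : Type} [Fintype L] [DecidableEq L] [DecidableEq K]

/-- The sum over the lists of labels of pairwise distinct types in `S`. -/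
def PS (fib : K → List L) : ℕ → List K → (List L → ℕ) → ℕ
  | 0, _, G => G []
  | n + 1, S, G => sumN (S.map fun k => sumN ((fib k).map fun x =>
      PS fib n (S.erase k) (fun l => G (x :: l))))

omit [DecidableEq L] in
theorem sum_cons {R : Type} [AddCommMonoid R] {k : ℕ} (F : (Fin (k + 1) → L) → R) :
    ∑ j, F j = ∑ a : L, ∑ j' : Fin k → L, F (Fin.cons a j') := by
  rw [← (Fin.consEquiv (fun _ => L)).sum_comp, Fintype.sum_prod_type]
  rfl

theorem PS_eq (fib : K → List L) (κ : L → K) (hnd : ∀ k, (fib k).Nodup)
    (hfib : ∀ k x, x ∈ fib k ↔ κ x = k) : ∀ (n : ℕ) (S : List K), S.Nodup →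
    ∀ G : List L → ℕ, PS fib n S G =
      ∑ j : Fin n → L, if Function.Injective (fun m => κ (j m)) ∧ ∀ m, κ (j m) ∈ S then
        G (List.ofFn j) else 0 := by
  intro n
  induction n with
  | zero =>
    intro S _ G
    have h1 : ∀ j : Fin 0 → L, (Function.Injective (fun m => κ (j m)) ∧ ∀ m, κ (j m) ∈ S) :=
      fun j => ⟨fun a => a.elim0, fun a => a.elim0⟩
    simp only [PS, h1]
    rw [Fintype.sum_unique]
    simp
  | succ n ih =>
    intro S hS G
    have h1 : ∀ k ∈ S, sumN ((fib k).map fun x => PS fib n (S.erase k) (fun l => G (x :: l))) =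
        ∑ x : L, if κ x = k then PS fib n (S.erase k) (fun l => G (x :: l)) else 0 := by
      intro k _
      rw [sumN_eq, ← List.sum_toFinset _ (hnd k), ← Finset.sum_filter]
      refine Finset.sum_congr ?_ fun _ _ => rfl
      ext x
      simp [hfib]
    have h2 : PS fib (n + 1) S G = ∑ x : L, if κ x ∈ S then
        PS fib n (S.erase (κ x)) (fun l => G (x :: l)) else 0 := by
      rw [PS, sumN_eq, List.map_congr_left h1, ← List.sum_toFinset _ hS, Finset.sum_comm]
      refine Finset.sum_congr rfl fun x _ => ?_
      rw [Finset.sum_ite_eq]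
      simp
    rw [h2, sum_cons]
    refine Finset.sum_congr rfl fun x _ => ?_
    by_cases hx : κ x ∈ S
    · rw [if_pos hx, ih _ (hS.erase _)]
      refine Finset.sum_congr rfl fun j _ => ?_
      have h3 : (fun m => κ ((Fin.cons x j : Fin (n + 1) → L) m)) =
          (Fin.cons (κ x) (fun m => κ (j m)) : Fin (n + 1) → K) := by
        funext m
        refine Fin.cases ?_ (fun m => ?_) m
        · rfl
        · rfl
      refine if_congr ?_ ?_ rfl
      · rw [h3, Fin.cons_injective_iff]
        constructor
        · rintro ⟨a, b⟩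
          refine ⟨⟨?_, a⟩, ?_⟩
          · rintro ⟨m, hm⟩
            exact ((hS.mem_erase_iff).1 (b m)).1 hm
          · intro m
            refine Fin.cases ?_ (fun m => ?_) m
            · exact hx
            · exact ((hS.mem_erase_iff).1 (b m)).2
        · rintro ⟨⟨a, b⟩, c⟩
          refine ⟨b, fun m => ?_⟩
          rw [hS.mem_erase_iff]
          exact ⟨fun h => a ⟨m, h⟩, c m.succ⟩
      · rw [List.ofFn_succ]
        rfl
    · rw [if_neg hx]
      symm
      refine Finset.sum_eq_zero fun j _ => ?_
      rw [if_neg]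
      rintro ⟨_, b⟩
      exact hx (b 0)

/-- All ways to pick an element of a list, with the list of the other elements. -/
def picks {α : Type} : List α → List (α × List α)
  | [] => []
  | x :: xs => (x, xs) :: (picks xs).map fun y => (y.1, x :: y.2)

theorem picks_map {α β : Type} (f : α → β) (l : List α) :
    picks (l.map f) = (picks l).map fun y => (f y.1, y.2.map f) := by
  induction l with
  | nil => rfl
  | cons x xs ih =>
    simp only [List.map_cons, picks, ih, List.map_map]
    rfl

omit [Fintype L] [DecidableEq L] in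
theorem picks_eq (l : List K) (hl : l.Nodup) : picks l = l.map fun x => (x, l.erase x) := by
  induction l with
  | nil => rfl
  | cons x xs ih =>
    have hx := (List.nodup_cons.1 hl).1
    rw [picks, ih (List.nodup_cons.1 hl).2, List.map_cons, List.erase_cons_head, List.map_map]
    congr 1
    refine List.map_congr_left fun y hy => ?_
    have hne : x ≠ y := fun h => hx (by rw [h]; exact hy)
    simp [List.erase_cons_tail, hne]

/-- The sum over picks, with values. -/
def PSv {β : Type} (fv : β → List β) : ℕ → List β → (List β → ℕ) → ℕ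
  | 0, _, G => G []
  | n + 1, S, G => sumN ((picks S).map fun y => sumN ((fv y.1).map fun x =>
      PSv fv n y.2 (fun l => G (x :: l))))

omit [Fintype L] [DecidableEq L] in
theorem PSv_eq {β : Type} (fib : K → List L) (fv : β → List β) (v : K → β) (w : L → β)
    (hv : ∀ k, fv (v k) = (fib k).map w) : ∀ (n : ℕ) (S : List K), S.Nodup →
    ∀ G : List β → ℕ, PSv fv n (S.map v) G = PS fib n S (fun l => G (l.map w)) := by
  intro n
  induction n with
  | zero => intro S _ G; rfl
  | succ n ih =>
    intro S hS G
    rw [PSv, PS, picks_map, picks_eq S hS, List.map_map, List.map_map]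
    congr 1
    refine List.map_congr_left fun k hk => ?_
    simp only [Function.comp_apply]
    rw [hv, List.map_map]
    congr 1
    refine List.map_congr_left fun x _ => ?_
    simp only [Function.comp_apply]
    rw [ih (S.erase k) (hS.erase k)]
    rfl

/-- Onto maps between sets of the same size. -/
theorem image_iff {n : ℕ} (g : Fin n → Fin n) :
    Finset.univ.image g = Finset.univ ↔ Function.Injective g := by
  rw [Finite.injective_iff_surjective]
  constructor
  · intro h k
    have : k ∈ Finset.univ.image g := by rw [h]; exact Finset.mem_univ k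
    obtain ⟨x, _, hx⟩ := Finset.mem_image.1 this
    exact ⟨x, hx⟩
  · intro h
    ext k
    simp only [Finset.mem_image, Finset.mem_univ, true_and, iff_true]
    exact h k

end

/-! ### Explicit forms -/

section
variable (G : ℕ → ℕ → ℕ → ℕ → ℕ → ℕ)

/-- Two elements left. -/
def A2 (x y z d e : ℕ) : ℕ := Nat.add (G x y z d e) (G x y z e d)

/-- Three elements left. -/
def A3 (x y c d e : ℕ) : ℕ := Nat.add (A2 G x y c d e) (Nat.add (A2 G x y d c e) (A2 G x y e c d))

/-- Four elements left. -/
def A4 (x b c d e : ℕ) : ℕ := Nat.add (A3 G x b c d e) (Nat.add (A3 G x c b d e)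
  (Nat.add (A3 G x d b c e) (A3 G x e b c d)))

/-- Five elements left. -/
def A5 (a b c d e : ℕ) : ℕ := Nat.add (A4 G a b c d e) (Nat.add (A4 G b a c d e)
  (Nat.add (A4 G c a b d e) (Nat.add (A4 G d a b c e) (A4 G e a b c d))))

/-- A function of five arguments as a function on lists. -/
def unc5 : List ℕ → ℕ
  | [a, b, c, d, e] => G a b c d e
  | _ => 0

/-- The one-element list. -/
def fvA (x : ℕ) : List ℕ := [x]

theorem PSv_A5 (a b c d e : ℕ) : PSv fvA 5 [a, b, c, d, e] (unc5 G) = A5 G a b c d e := by
  simp only [PSv, picks, List.map, sumN, fvA, unc5, A5, A4, A3, A2, Nat.add_eq, add_zero]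

end

section
variable (G : ℕ → ℕ → ℕ → ℕ → ℕ) (p : ℕ)

/-- One element left. -/
def D1 (x y z d : ℕ) : ℕ := Nat.add (G x y z d) (G x y z (Nat.sub p d))

/-- Two elements left. -/
def D2 (x y c d : ℕ) : ℕ := Nat.add (Nat.add (D1 G p x y c d) (D1 G p x y (Nat.sub p c) d))
  (Nat.add (D1 G p x y d c) (D1 G p x y (Nat.sub p d) c))

/-- Three elements left. -/
def D3 (x b c d : ℕ) : ℕ := Nat.add (Nat.add (D2 G p x b c d) (D2 G p x (Nat.sub p b) c d))
  (Nat.add (Nat.add (D2 G p x c b d) (D2 G p x (Nat.sub p c) b d))
    (Nat.add (D2 G p x d b c) (D2 G p x (Nat.sub p d) b c)))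

/-- Four elements left. -/
def D4 (a b c d : ℕ) : ℕ := Nat.add (Nat.add (D3 G p a b c d) (D3 G p (Nat.sub p a) b c d))
  (Nat.add (Nat.add (D3 G p b a c d) (D3 G p (Nat.sub p b) a c d))
  (Nat.add (Nat.add (D3 G p c a b d) (D3 G p (Nat.sub p c) a b d))
    (Nat.add (D3 G p d a b c) (D3 G p (Nat.sub p d) a b c))))

/-- A function of four arguments as a function on lists. -/
def unc4 : List ℕ → ℕ
  | [a, b, c, d] => G a b c d
  | _ => 0

/-- The list of the two signed values. -/
def fvD (p x : ℕ) : List ℕ := [x, Nat.sub p x]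

theorem PSv_D4 (a b c d : ℕ) : PSv (fvD p) 4 [a, b, c, d] (unc4 G) = D4 G p a b c d := by
  simp only [PSv, picks, List.map, sumN, fvD, unc4, D4, D3, D2, D1, Nat.add_eq, add_zero]

end

/-- The scalar product of two lists. -/
def dotN : List ℕ → List ℕ → ℕ
  | [], _ => 0
  | _ :: _, [] => 0
  | x :: xs, y :: ys => Nat.add (Nat.mul x y) (dotN xs ys)

theorem dotN_eq : ∀ (n : ℕ) (l₁ l₂ : List ℕ), l₁.length = n → l₂.length = n →
    dotN l₁ l₂ = ∑ j : Fin n, l₁.getD j.val 0 * l₂.getD j.val 0 := by
  intro n
  induction n with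
  | zero =>
    intro l₁ l₂ h₁ _
    rw [List.length_eq_zero_iff] at h₁
    subst h₁
    simp [dotN]
  | succ n ih =>
    intro l₁ l₂ h₁ h₂
    cases l₁ with
    | nil => simp at h₁
    | cons x xs =>
      cases l₂ with
      | nil => simp at h₂
      | cons y ys =>
        rw [Fin.sum_univ_succ]
        simp only [List.length_cons, Nat.add_right_cancel_iff] at h₁ h₂
        have := ih xs ys h₁ h₂
        show x * y + dotN xs ys = _
        rw [this]
        simp

theorem getD_map' {α β : Type} (l : List α) (f : α → β) (i : ℕ) (d : α) (d' : β)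
    (hi : i < l.length) : (l.map f).getD i d' = f (l.getD i d) := by
  rw [List.getD_eq_getElem _ _ (by simpa using hi), List.getD_eq_getElem _ _ hi,
    List.getElem_map]

/-- A criterion for the independence of the rows of an integer matrix. -/
theorem rows_indep {n : ℕ} (p : ℕ) [Fact p.Prime] (A : Fin n → Fin n → ℤ) (T N : List (List ℕ))
    (hT : T.length = n) (hN : N.length = n)
    (hT' : ∀ r ∈ T, r.length = n) (hN' : ∀ r ∈ N, r.length = n)
    (hA : ∀ i j : Fin n, (A i j : ZMod p) = (((T.getD i.val []).getD j.val 0 : ℕ) : ZMod p))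
    (hTN : T.map (fun r => N.map fun c => dotN r c % p) =
      (List.range n).map fun i => (List.range n).map fun j => if i = j then 1 else 0)
    (a : Fin n → ℚ) (ha : ∀ j, ∑ i, a i * (A i j : ℚ) = 0) : a = 0 := by
  set B : Matrix (Fin n) (Fin n) ℤ := Matrix.of A with hB
  set C : Matrix (Fin n) (Fin n) ℤ := Matrix.of fun j k =>
    (((N.getD k.val []).getD j.val 0 : ℕ) : ℤ) with hC
  have hlenT : ∀ i : Fin n, (T.getD i.val []).length = n := by
    intro i
    rw [List.getD_eq_getElem _ _ (by rw [hT]; exact i.2)]
    exact hT' _ (List.getElem_mem _)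
  have hlenN : ∀ i : Fin n, (N.getD i.val []).length = n := by
    intro i
    rw [List.getD_eq_getElem _ _ (by rw [hN]; exact i.2)]
    exact hN' _ (List.getElem_mem _)
  have hentry : ∀ i k : Fin n, dotN (T.getD i.val []) (N.getD k.val []) % p =
      if i = k then 1 else 0 := by
    intro i k
    have h1 : ((T.map (fun r => N.map fun c => dotN r c % p)).getD i.val []).getD k.val 0 =
      (((List.range n).map fun i => (List.range n).map fun j =>
        if i = j then 1 else 0).getD i.val []).getD k.val 0 := by rw [hTN]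
    have hi : i.val < T.length := by rw [hT]; exact i.2
    have hk : k.val < N.length := by rw [hN]; exact k.2
    have hi' : i.val < (List.range n).length := by simp
    have hk' : k.val < (List.range n).length := by simp
    rw [getD_map' T _ i.val [] [] hi, getD_map' N _ k.val [] 0 hk,
      getD_map' (List.range n) _ i.val 0 [] hi', getD_map' (List.range n) _ k.val 0 0 hk'] at h1
    rw [h1, List.getD_eq_getElem _ _ hi', List.getD_eq_getElem _ _ hk', List.getElem_range,
      List.getElem_range]
    simp [Fin.ext_iff]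
  have hBC : (B * C).map (Int.castRingHom (ZMod p)) = 1 := by
    ext i k
    rw [Matrix.map_apply, Matrix.mul_apply, map_sum, Matrix.one_apply]
    have h1 := hentry i k
    rw [dotN_eq n _ _ (hlenT i) (hlenN k)] at h1
    have h2 := congrArg (Nat.cast : ℕ → ZMod p) h1
    rw [ZMod.natCast_mod, Nat.cast_sum] at h2
    rw [show (if i = k then (1 : ZMod p) else 0) = ((if i = k then 1 else 0 : ℕ) : ZMod p) by
      split_ifs <;> simp, ← h2]
    refine Finset.sum_congr rfl fun j _ => ?_
    rw [map_mul, Nat.cast_mul, ← hA i j]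
    simp [hB, hC]
  have hdet : B.det ≠ 0 := by
    intro h0
    have h1 : (Int.castRingHom (ZMod p)) (B * C).det = 1 := by
      rw [RingHom.map_det, RingHom.mapMatrix_apply, hBC, Matrix.det_one]
    rw [Matrix.det_mul, h0, zero_mul, map_zero] at h1
    exact zero_ne_one h1
  have hdetQ : (B.map (Int.castRingHom ℚ)).det ≠ 0 := by
    rw [← RingHom.mapMatrix_apply, ← RingHom.map_det]
    simpa using hdet
  have h3 : Matrix.vecMul a (B.map (Int.castRingHom ℚ)) = 0 := by
    funext j
    rw [Matrix.vecMul, dotProduct]
    simpa [hB] using ha j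
  exact Matrix.eq_zero_of_vecMul_eq_zero hdetQ h3

end Pool.Agent.Helper5.Vass
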