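import Pool.Agent.Helper5.Vass.So3
import Pool.Agent.Helper5.Vass.CertA
import Pool.Agent.Helper5.Vass.CertD

set_option autoImplicit false

/-!
# The values of the weight systems modulo `31`
-/

namespace Pool.Agent.Helper5.Vass

open Equiv Finset

theorem ofFn5 {α : Type} (j : Fin 5 → α) : List.ofFn j = [j 0, j 1, j 2, j 3, j 4] := by
  simp only [List.ofFn_succ, List.ofFn_zero]
  rfl

theorem ofFn4 {α : Type} (j : Fin 4 → α) : List.ofFn j = [j 0, j 1, j 2, j 3] := by
  simp only [List.ofFn_succ, List.ofFn_zero]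
  rfl

theorem cast_sub31 {a : ℕ} (ha : a ≤ 31) : ((Nat.sub 31 a : ℕ) : ZMod 31) = - (a : ZMod 31) := by
  have h1 : Nat.sub 31 a + a = 31 := Nat.sub_add_cancel ha
  have h2 := congrArg (Nat.cast : ℕ → ZMod 31) h1
  rw [Nat.cast_add] at h2
  have h3 : ((31 : ℕ) : ZMod 31) = 0 := by exact_mod_cast ZMod.natCast_self 31
  rw [h3] at h2
  exact eq_neg_of_add_eq_zero_left h2

theorem leafA_cast (n0 n1 n2 n3 : ℕ) {a : ℕ} (ha : a ≤ 31) (b c d e : ℕ) :
    ((leafA n0 n1 n2 n3 a b c d e : ℕ) : ZMod 31) = ((b : ZMod 31) - a) ^ n0 *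
      ((c : ZMod 31) - a) ^ n1 * (((d : ZMod 31) - a) ^ n2 * ((e : ZMod 31) - a) ^ n3) := by
  unfold leafA
  simp only [Nat.mul_eq, Nat.add_eq, Nat.pow_eq, Nat.cast_mul, Nat.cast_pow, Nat.cast_add,
    cast_sub31 ha]
  simp only [← sub_eq_add_neg]

theorem evalA_cast (n0 n1 n2 n3 a b c d e : ℕ) (h : ∀ x ∈ [a, b, c, d, e], x ≤ 31) :
    ((evalA (n0, n1, n2, n3) [a, b, c, d, e] : ℕ) : ZMod 31) =
      ((symA ![n0, n1, n2, n3] (fun k => (([a, b, c, d, e].getD k.val 0 : ℕ) : ℤ)) : ℤ) :
        ZMod 31) := by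
  set v : Fin 5 → ℕ := fun k => [a, b, c, d, e].getD k.val 0 with hv
  have hv31 : ∀ k, v k ≤ 31 := by
    intro k
    refine h _ ?_
    have hk : k.val < [a, b, c, d, e].length := k.2
    rw [hv]
    simp only
    rw [List.getD_eq_getElem _ _ hk]
    exact List.getElem_mem _
  have hl : [a, b, c, d, e] = [0, 1, 2, 3, 4].map v := rfl
  have h1 : evalA (n0, n1, n2, n3) [a, b, c, d, e] =
      ∑ j : Fin 5 → Fin 5, if Finset.univ.image j = Finset.univ then
        leafA n0 n1 n2 n3 (v (j 0)) (v (j 1)) (v (j 2)) (v (j 3)) (v (j 4)) else 0 := by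
    show A5 (leafA n0 n1 n2 n3) a b c d e = _
    rw [← PSv_A5, hl, PSv_eq (fun k : Fin 5 => [k]) fvA v v (fun k => rfl) 5 _ (by decide),
      PS_eq (fun k : Fin 5 => [k]) (fun k => k) (fun k => by simp) (fun k x => by simp) 5 _
        (by decide)]
    refine Finset.sum_congr rfl fun j _ => ?_
    refine if_congr ?_ ?_ rfl
    · rw [image_iff]
      constructor
      · rintro ⟨h1, _⟩
        exact h1
      · intro h1
        refine ⟨h1, fun m => ?_⟩
        generalize j m = k
        revert k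
        decide
    · rw [ofFn5]
      rfl
  rw [h1]
  unfold symA
  rw [Nat.cast_sum, Int.cast_sum]
  refine Finset.sum_congr rfl fun j _ => ?_
  by_cases hj : Finset.univ.image j = Finset.univ
  · rw [if_pos hj, if_pos hj, leafA_cast _ _ _ _ (hv31 _), Int.cast_prod, Fin.prod_univ_four]
    simp only [Int.cast_pow, Int.cast_sub, Int.cast_natCast]
    exact (mul_assoc _ _ _).symm
  · rw [if_neg hj, if_neg hj]
    simp

/-! ### The orthogonal weight system -/

/-- The three marked half-edges of `K_{3,3}`. -/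
def markK : Fin 3 → H0
  | 0 => Sum.inl ((false, 0), 0)
  | 1 => Sum.inl ((false, 0), 1)
  | 2 => Sum.inl ((false, 1), 0)

/-- The involution of the labels. -/
def barL (i : Fin 4 × Bool) : Fin 4 × Bool := (i.1, !i.2)

/-- The values of the labels. -/
def hhL (η : Fin 4 → ℤ) (i : Fin 4 × Bool) : ℤ := sg i.2 * η i.1

theorem barL_barL (i : Fin 4 × Bool) : barL (barL i) = i := by
  obtain ⟨a, b⟩ := i
  cases b <;> rfl

theorem hhL_barL (η : Fin 4 → ℤ) (i : Fin 4 × Bool) : hhL η (barL i) = - hhL η i := by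
  obtain ⟨a, b⟩ := i
  cases b <;> simp [hhL, barL, sg]

/-- The product for one signed permutation. -/
def lfD {R : Type} [CommRing R] (n : Fin 3 → ℕ) (a : Fin 4 → R) : R :=
  (a 1 - a 0) ^ n 0 * (a 2 - a 1) ^ n 1 *
    ((a 2 + a 0) ^ n 2 + ((- a 1 - a 3) ^ n 2 + (a 3 - a 1) ^ n 2) -
      ((a 0 - a 3) ^ n 2 + ((a 3 + a 0) ^ n 2 + (- a 1 - a 2) ^ n 2)))

/-- The symmetrised product. -/
def symD (n : Fin 3 → ℕ) (η : Fin 4 → ℤ) : ℤ :=
  ∑ j : Fin 4 → Fin 4 × Bool, if (Finset.univ.image fun k => (j k).1) = Finset.univ then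
    lfD n (fun k => hhL η (j k)) else 0

theorem hh_bb (η : Fin 4 → ℤ) (s : Bool) (x : Fin 4 × Bool) :
    hhL η (bb barL s x) = sg s * hhL η x := by
  cases s
  · simp [bb, sg]
  · simp [bb, sg, hhL_barL]

theorem markK_data : ∀ (r : Fin 6) (l : Fin 3),
    (cpt r (k33.e (markK l)), bet r (k33.e (markK l)), cpt r (markK l), bet r (markK l)) =
    (if l = 0 then (1, false, 0, false) else if l = 1 then (2, false, 1, false) else
      if r = 0 then (0, false, 3, false) else if r = 1 then (3, false, 0, true) else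
      if r = 2 then (2, false, 0, true) else if r = 3 then (1, true, 2, false) else
      if r = 4 then (1, true, 3, false) else (3, false, 1, false)) := by
  decide +kernel

/-- The linear forms. -/
def frm (r : Fin 6) (l : Fin 3) (a : Fin 4 → ℤ) : ℤ :=
  if l = 0 then a 1 - a 0 else if l = 1 then a 2 - a 1 else
    if r = 0 then a 0 - a 3 else if r = 1 then a 3 + a 0 else if r = 2 then a 2 + a 0 else
      if r = 3 then - a 1 - a 2 else if r = 4 then - a 1 - a 3 else a 3 - a 1

theorem frm_eq (a : Fin 4 → ℤ) (r : Fin 6) (l : Fin 3) :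
    sg (bet r (k33.e (markK l))) * a (cpt r (k33.e (markK l))) -
      sg (bet r (markK l)) * a (cpt r (markK l)) = frm r l a := by
  have hr : r = 0 ∨ r = 1 ∨ r = 2 ∨ r = 3 ∨ r = 4 ∨ r = 5 := by revert r; decide
  have hl : l = 0 ∨ l = 1 ∨ l = 2 := by revert l; decide
  have h := markK_data r l
  unfold frm
  generalize cpt r (k33.e (markK l)) = x1 at *
  generalize bet r (k33.e (markK l)) = x2 at *
  generalize cpt r (markK l) = x3 at *
  generalize bet r (markK l) = x4 at *
  rcases hl with rfl | rfl | rfl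
  · rw [if_pos rfl] at h
    obtain ⟨rfl, rfl, rfl, rfl⟩ := by simpa only [Prod.mk.injEq] using h
    simp [sg]
  · rw [if_neg (by decide), if_pos rfl] at h
    obtain ⟨rfl, rfl, rfl, rfl⟩ := by simpa only [Prod.mk.injEq] using h
    simp [sg]
  · rw [if_neg (by decide), if_neg (by decide)] at h
    rcases hr with rfl | rfl | rfl | rfl | rfl | rfl
    · rw [if_pos rfl] at h
      obtain ⟨rfl, rfl, rfl, rfl⟩ := by simpa only [Prod.mk.injEq] using h
      simp [sg]
    · rw [if_neg (by decide), if_pos rfl] at h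
      obtain ⟨rfl, rfl, rfl, rfl⟩ := by simpa only [Prod.mk.injEq] using h
      simp [sg]
    · rw [if_neg (by decide), if_neg (by decide), if_pos rfl] at h
      obtain ⟨rfl, rfl, rfl, rfl⟩ := by simpa only [Prod.mk.injEq] using h
      simp [sg]
    · rw [if_neg (by decide), if_neg (by decide), if_neg (by decide), if_pos rfl] at h
      obtain ⟨rfl, rfl, rfl, rfl⟩ := by simpa only [Prod.mk.injEq] using h
      simp [sg]
    · rw [if_neg (by decide), if_neg (by decide), if_neg (by decide), if_neg (by decide),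
        if_pos rfl] at h
      obtain ⟨rfl, rfl, rfl, rfl⟩ := by simpa only [Prod.mk.injEq] using h
      simp [sg]
    · rw [if_neg (by decide), if_neg (by decide), if_neg (by decide), if_neg (by decide),
        if_neg (by decide)] at h
      obtain ⟨rfl, rfl, rfl, rfl⟩ := by simpa only [Prod.mk.injEq] using h
      simp [sg]

theorem frm_sum (n : Fin 3 → ℕ) (a : Fin 4 → ℤ) :
    ∑ r : Fin 6, sgnt r * ∏ l, (2 ^ n l * frm r l a ^ n l) = 2 ^ (∑ l, n l) * lfD n a := by
  simp only [Finset.prod_mul_distrib, Finset.prod_pow_eq_pow_sum, Fin.sum_univ_six,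
    Fin.prod_univ_three]
  simp only [frm, sgnt, lfD]
  simp
  ring

theorem topW_k33_so (n : Fin 3 → ℕ) (η : Fin 4 → ℤ) :
    topW (Prod.fst : Fin 4 × Bool → Fin 4) (Co barL) (legv (hhL η)) k33.e
      (fun S => pw (resl Prod.fst S (fun a => 2 * (hhL η a.2 - hhL η a.1))) markK n) =
      512 * 2 ^ (∑ l, n l) * symD n η := by
  refine (topW_so' barL_barL (Prod.fst : Fin 4 × Bool → Fin 4) (fun i => rfl) (hhL η)
    (hhL_barL η) markK n).trans ?_
  rw [mul_assoc (512 : ℤ)]
  refine congrArg (fun z : ℤ => 512 * z) ?_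
  unfold symD
  rw [Finset.mul_sum]
  have h0 : ∀ r : Fin 6, sgnt r *
        ∑ j : Fin 4 → Fin 4 × Bool, (if (Finset.univ.image fun k => (j k).1) = Finset.univ then
          ∏ l, (2 * (hhL η (bb barL (bet r (k33.e (markK l))) (j (cpt r (k33.e (markK l))))) -
            hhL η (bb barL (bet r (markK l)) (j (cpt r (markK l)))))) ^ n l else 0) =
      ∑ j : Fin 4 → Fin 4 × Bool, sgnt r *
        (if (Finset.univ.image fun k => (j k).1) = Finset.univ then
          ∏ l, (2 * (hhL η (bb barL (bet r (k33.e (markK l))) (j (cpt r (k33.e (markK l))))) -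
            hhL η (bb barL (bet r (markK l)) (j (cpt r (markK l)))))) ^ n l else 0) :=
    fun r => Finset.mul_sum _ _ _
  refine (Finset.sum_congr rfl fun r _ => h0 r).trans ?_
  rw [Finset.sum_comm]
  refine Finset.sum_congr rfl fun j _ => ?_
  by_cases hj : (Finset.univ.image fun k => (j k).1) = Finset.univ
  · simp only [if_pos hj]
    have key : ∀ r l, (2 * (hhL η (bb barL (bet r (k33.e (markK l)))
        (j (cpt r (k33.e (markK l))))) -
        hhL η (bb barL (bet r (markK l)) (j (cpt r (markK l)))))) ^ n l =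
        2 ^ n l * (sg (bet r (k33.e (markK l))) * hhL η (j (cpt r (k33.e (markK l)))) -
        sg (bet r (markK l)) * hhL η (j (cpt r (markK l)))) ^ n l := by
      intro r l
      rw [hh_bb, hh_bb, mul_pow]
    simp only [key]
    rw [← frm_sum]
    refine Finset.sum_congr rfl fun r _ => ?_
    congr 1
    refine Finset.prod_congr rfl fun l _ => ?_
    rw [← frm_eq (fun k => hhL η (j k))]
  · simp only [if_neg hj, mul_zero, Finset.sum_const_zero]

theorem leafD_cast (x y z : ℕ) {a0 a1 a2 a3 : ℕ} (h0 : a0 ≤ 31) (h1 : a1 ≤ 31) (h2 : a2 ≤ 31)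
    (h3 : a3 ≤ 31) : ((leafD x y z a0 a1 a2 a3 : ℕ) : ZMod 31) =
      lfD ![x, y, z] ![(a0 : ZMod 31), (a1 : ZMod 31), (a2 : ZMod 31), (a3 : ZMod 31)] := by
  unfold leafD lfD
  simp only [Nat.mul_eq, Nat.add_eq, Nat.pow_eq, Nat.cast_mul, Nat.cast_pow, Nat.cast_add,
    cast_sub31 h0, cast_sub31 h1, cast_sub31 h2, cast_sub31 h3]
  have h30 : ((30 : ℕ) : ZMod 31) = -1 := by decide
  rw [h30]
  simp
  ring

theorem evalD_cast (x y z a b c d : ℕ) (h : ∀ x ∈ [a, b, c, d], x ≤ 31) :
    ((evalD (x, y, z) [a, b, c, d] : ℕ) : ZMod 31) =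
      ((symD ![x, y, z] (fun k => (([a, b, c, d].getD k.val 0 : ℕ) : ℤ)) : ℤ) : ZMod 31) := by
  set v : Fin 4 → ℕ := fun k => [a, b, c, d].getD k.val 0 with hv
  have hv31 : ∀ k, v k ≤ 31 := by
    intro k
    refine h _ ?_
    have hk : k.val < [a, b, c, d].length := k.2
    rw [hv]
    simp only
    rw [List.getD_eq_getElem _ _ hk]
    exact List.getElem_mem _
  set w : Fin 4 × Bool → ℕ := fun y => if y.2 then Nat.sub 31 (v y.1) else v y.1 with hw
  have hw31 : ∀ y, w y ≤ 31 := by
    rintro ⟨k, s⟩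
    cases s
    · exact hv31 k
    · exact Nat.sub_le _ _
  have hwc : ∀ y, ((w y : ℕ) : ZMod 31) = ((hhL (fun k => ((v k : ℕ) : ℤ)) y : ℤ) : ZMod 31) := by
    rintro ⟨k, s⟩
    cases s
    · simp [hw, hhL, sg]
    · show ((Nat.sub 31 (v k) : ℕ) : ZMod 31) = _
      rw [cast_sub31 (hv31 k)]
      simp [hhL, sg]
  have hl : [a, b, c, d] = [0, 1, 2, 3].map v := rfl
  have h1 : evalD (x, y, z) [a, b, c, d] =
      ∑ j : Fin 4 → Fin 4 × Bool, if (Finset.univ.image fun k => (j k).1) = Finset.univ then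
        leafD x y z (w (j 0)) (w (j 1)) (w (j 2)) (w (j 3)) else 0 := by
    show D4 (leafD x y z) 31 a b c d = _
    rw [← PSv_D4, hl, PSv_eq (fun k : Fin 4 => [(k, false), (k, true)]) (fvD 31) v w
      (fun k => rfl) 4 _ (by decide),
      PS_eq (fun k : Fin 4 => [(k, false), (k, true)]) Prod.fst (fun k => by simp)
        (fun k x => by
          obtain ⟨k', s⟩ := x
          cases s <;> simp) 4 _ (by decide)]
    refine Finset.sum_congr rfl fun j _ => ?_
    refine if_congr ?_ ?_ rfl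
    · rw [image_iff]
      constructor
      · rintro ⟨h1, _⟩
        exact h1
      · intro h1
        refine ⟨h1, fun m => ?_⟩
        generalize (j m).1 = k
        revert k
        decide
    · rw [ofFn4]
      rfl
  rw [h1]
  unfold symD
  rw [Nat.cast_sum, Int.cast_sum]
  refine Finset.sum_congr rfl fun j _ => ?_
  by_cases hj : (Finset.univ.image fun k => (j k).1) = Finset.univ
  · rw [if_pos hj, if_pos hj, leafD_cast _ _ _ (hw31 _) (hw31 _) (hw31 _) (hw31 _)]
    simp only [hwc]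
    simp only [lfD, Int.cast_mul, Int.cast_pow, Int.cast_sub, Int.cast_add, Int.cast_neg]
    rfl
  · rw [if_neg hj, if_neg hj]
    simp

end Pool.Agent.Helper5.Vass
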