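import Pool.Agent.Helper5.Vass.Core

set_option autoImplicit false

/-!
# Evaluation of the top general linear weight system
-/

namespace Pool.Agent.Helper5.Vass

open Equiv Finset

/-- The neighbour in the cyclic order, or in the reversed cyclic order. -/
def nxt (b : Bool) (q : Fin 3) : Fin 3 := if b then q + 2 else q + 1

section
variable {V U L : Type} [Fintype V] [DecidableEq V] [Fintype U] [DecidableEq U]
  [Fintype L] [DecidableEq L]

/-- The sign of a choice of reversals. -/
def sgnV (s : V → Bool) : ℤ := ∏ v, if s v then -1 else 1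

theorem prod_Cg (e : HalfEdge V U → HalfEdge V U) (i : HalfEdge V U → L) :
    (∏ v : V, Cg (i (Sum.inl (v, 0)), i (e (Sum.inl (v, 0))))
          (i (Sum.inl (v, 1)), i (e (Sum.inl (v, 1))))
          (i (Sum.inl (v, 2)), i (e (Sum.inl (v, 2))))) =
      ∑ s : V → Bool, if (∀ v q, i (e (Sum.inl (v, q))) = i (Sum.inl (v, nxt (s v) q))) then
        sgnV s else 0 := by
  have h1 : ∀ v : V, Cg (i (Sum.inl (v, 0)), i (e (Sum.inl (v, 0))))
          (i (Sum.inl (v, 1)), i (e (Sum.inl (v, 1))))
          (i (Sum.inl (v, 2)), i (e (Sum.inl (v, 2)))) =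
      ∑ b : Bool, if (∀ q, i (e (Sum.inl (v, q))) = i (Sum.inl (v, nxt b q))) then
        (if b then (-1 : ℤ) else 1) else 0 := by
    intro v
    rw [Fintype.sum_bool]
    unfold Cg T
    simp only [nxt, if_true, Bool.false_eq_true, if_false]
    have e1 : (i (e (Sum.inl (v, 0))) = i (Sum.inl (v, 1)) ∧
        i (e (Sum.inl (v, 1))) = i (Sum.inl (v, 2)) ∧
        i (e (Sum.inl (v, 2))) = i (Sum.inl (v, 0))) ↔
        ∀ q : Fin 3, i (e (Sum.inl (v, q))) = i (Sum.inl (v, q + 1)) := by
      constructor
      · rintro ⟨a, b, c⟩ q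
        have hq := (by decide : ∀ q : Fin 3, q = 0 ∨ q = 1 ∨ q = 2) q
        rcases hq with rfl | rfl | rfl
        · exact a
        · exact b
        · exact c
      · intro h
        exact ⟨h 0, h 1, h 2⟩
    have e2 : (i (e (Sum.inl (v, 1))) = i (Sum.inl (v, 0)) ∧
        i (e (Sum.inl (v, 0))) = i (Sum.inl (v, 2)) ∧
        i (e (Sum.inl (v, 2))) = i (Sum.inl (v, 1))) ↔
        ∀ q : Fin 3, i (e (Sum.inl (v, q))) = i (Sum.inl (v, q + 2)) := by
      constructor
      · rintro ⟨a, b, c⟩ q
        have hq := (by decide : ∀ q : Fin 3, q = 0 ∨ q = 1 ∨ q = 2) q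
        rcases hq with rfl | rfl | rfl
        · exact b
        · exact a
        · exact c
      · intro h
        exact ⟨h 1, h 0, h 2⟩
    rw [if_congr e1 rfl rfl, if_congr e2 rfl rfl]
    split_ifs <;> ring
  simp only [h1]
  rw [Finset.prod_univ_sum, Fintype.piFinset_univ]
  refine Finset.sum_congr rfl fun s _ => ?_
  by_cases hs : ∀ v q, i (e (Sum.inl (v, q))) = i (Sum.inl (v, nxt (s v) q))
  · rw [if_pos hs]
    unfold sgnV
    refine Finset.prod_congr rfl fun v _ => ?_
    rw [if_pos (hs v)]
  · rw [if_neg hs]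
    push Not at hs
    obtain ⟨v, q, hvq⟩ := hs
    refine Finset.prod_eq_zero (Finset.mem_univ v) ?_
    rw [if_neg]
    intro hh
    exact hvq (hh q)

/-- The sum over the labellings for a choice `s` of reversals. -/
def glTerm [IsEmpty U] (e : HalfEdge V U → HalfEdge V U) (s : V → Bool) {m : ℕ}
    (M : Fin m → HalfEdge V U) (n : Fin m → ℕ) (hh : L → ℤ) : ℤ :=
  ∑ i : HalfEdge V U → L, if (Finset.univ.image i = Finset.univ) ∧
      (∀ v q, i (e (Sum.inl (v, q))) = i (Sum.inl (v, nxt (s v) q))) then
    ∏ j, (hh (i (e (M j))) - hh (i (M j))) ^ n j else 0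

theorem topW_gl [IsEmpty U] (G : UTGraph V U) {m : ℕ} (M : Fin m → HalfEdge V U) (n : Fin m → ℕ)
    (hh : L → ℤ) :
    topW (id : L → L) Cg (legv hh) G.e (fun S => pw (resl id S (fun a => hh a.2 - hh a.1)) M n) =
      ∑ s : V → Bool, sgnV s * glTerm G.e s M n hh := by
  rw [topW_core]
  simp only [prod_Cg (fun h => G.e h)]
  unfold glTerm
  simp only [Finset.mul_sum]
  rw [Finset.sum_comm]
  refine Finset.sum_congr rfl fun i _ => ?_
  by_cases h1 : (Finset.univ.image i) = Finset.univ
  · have h1' : (Finset.univ.image fun h => id (i h)) = Finset.univ := h1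
    rw [if_pos h1', Finset.sum_mul]
    refine Finset.sum_congr rfl fun s _ => ?_
    by_cases h2 : ∀ v q, i (G.e (Sum.inl (v, q))) = i (Sum.inl (v, nxt (s v) q))
    · rw [if_pos h2, if_pos ⟨h1, h2⟩]
    · rw [if_neg h2, if_neg (fun hh => h2 hh.2)]
      ring
  · have h1' : ¬ (Finset.univ.image fun h => id (i h)) = Finset.univ := h1
    rw [if_neg h1']
    symm
    refine Finset.sum_eq_zero fun s _ => ?_
    rw [if_neg (fun hh => h1 hh.1), mul_zero]

end

/-! ### Functions constant along orbits -/

section
variable {X L : Type} [Fintype X] [DecidableEq X] [Fintype L] [DecidableEq L]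

/-- `x₀` has the smallest index among the first `n` elements of the orbit of `x`. -/
def allLe (idx : X → ℕ) (φ : X → X) (k : ℕ) : ℕ → X → Bool
  | 0, _ => true
  | n + 1, x => decide (k ≤ idx x) && allLe idx φ k n (φ x)

theorem allLe_of (idx : X → ℕ) (φ : X → X) (k : ℕ) (P : X → Prop) (hP : ∀ x, P x → P (φ x))
    (hk : ∀ x, P x → k ≤ idx x) : ∀ n x, P x → allLe idx φ k n x = true := by
  intro n
  induction n with
  | zero => intro x _; rfl
  | succ n ih =>
    intro x hx
    simp only [allLe, Bool.and_eq_true, decide_eq_true_eq]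
    exact ⟨hk x hx, ih _ (hP x hx)⟩

/-- A function constant along the orbits which is onto takes at most as many values as there are
elements of smallest index in their orbits. -/
theorem card_le_minima (idx : X → ℕ) (φ : X → X) (N : ℕ) {K : Type} [Fintype K]
    [DecidableEq K] (g : X → K) (hg : ∀ x, g (φ x) = g x)
    (hs : Finset.univ.image g = Finset.univ) :
    Fintype.card K ≤ (Finset.univ.filter fun x => allLe idx φ (idx x) N x = true).card := by
  have hne : ∀ k : K, (Finset.univ.filter fun x => g x = k).Nonempty := by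
    intro k
    have : k ∈ Finset.univ.image g := by rw [hs]; exact Finset.mem_univ k
    obtain ⟨x, _, hx⟩ := Finset.mem_image.1 this
    exact ⟨x, by simp [hx]⟩
  have hmin : ∀ k : K, ∃ x, g x = k ∧ ∀ y, g y = k → idx x ≤ idx y := by
    intro k
    obtain ⟨x, hx, hx2⟩ := Finset.exists_min_image _ idx (hne k)
    refine ⟨x, by simpa using hx, fun y hy => hx2 y (by simp [hy])⟩
  choose f hf1 hf2 using hmin
  have hinj : Function.Injective f := by
    intro a b hab
    rw [← hf1 a, ← hf1 b, hab]
  have hsub : Finset.univ.image f ⊆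
      (Finset.univ.filter fun x => allLe idx φ (idx x) N x = true) := by
    intro x hx
    obtain ⟨k, _, rfl⟩ := Finset.mem_image.1 hx
    simp only [Finset.mem_filter, Finset.mem_univ, true_and]
    exact allLe_of idx φ _ (fun y => g y = k) (fun y hy => by rw [hg, hy]) (hf2 k) N _ (hf1 k)
  have := Finset.card_le_card hsub
  rwa [Finset.card_image_of_injective _ hinj, Finset.card_univ] at this

theorem iter_eq (φ : X → X) {K : Type} (g : X → K) (hg : ∀ x, g (φ x) = g x) :
    ∀ n x, g (φ^[n] x) = g x := by
  intro n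
  induction n with
  | zero => intro x; rfl
  | succ n ih =>
    intro x
    rw [Function.iterate_succ_apply, ih, hg]

/-- Summation over the functions constant along the orbits. -/
theorem sum_orbits {K : Type} [Fintype K] [DecidableEq K] (φ : X → X) (c : X → K) (r : K → X)
    (hc : ∀ x, c (φ x) = c x) (hr : ∀ k, c (r k) = k)
    (hcov : ∀ x, ∃ n, φ^[n] x = r (c x)) (F : (X → L) → ℤ) :
    ∑ i : X → L, (if (Finset.univ.image i = Finset.univ) ∧ (∀ x, i (φ x) = i x) then F i else 0) =
      ∑ j : K → L, if Finset.univ.image j = Finset.univ then F (fun x => j (c x)) else 0 := by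
  have hcsurj : Finset.univ.image c = Finset.univ := by
    ext k
    simp only [Finset.mem_image, Finset.mem_univ, true_and, iff_true]
    exact ⟨r k, hr k⟩
  rw [← Finset.sum_filter, ← Finset.sum_filter]
  symm
  refine Finset.sum_nbij' (fun j => fun x => j (c x)) (fun i => fun k => i (r k)) ?_ ?_ ?_ ?_ ?_
  · intro j hj
    simp only [Finset.mem_filter, Finset.mem_univ, true_and] at hj ⊢
    refine ⟨?_, fun x => by rw [hc]⟩
    rw [← hj, ← hcsurj, Finset.image_image]
    rfl
  · intro i hi
    simp only [Finset.mem_filter, Finset.mem_univ, true_and] at hi ⊢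
    rw [← hi.1]
    ext a
    simp only [Finset.mem_image, Finset.mem_univ, true_and]
    constructor
    · rintro ⟨k, rfl⟩
      exact ⟨r k, rfl⟩
    · rintro ⟨x, rfl⟩
      obtain ⟨n, hn⟩ := hcov x
      refine ⟨c x, ?_⟩
      rw [← hn, iter_eq φ i hi.2]
  · intro j _
    funext k
    show j (c (r k)) = j k
    rw [hr]
  · intro i hi
    simp only [Finset.mem_filter, Finset.mem_univ, true_and] at hi
    funext x
    obtain ⟨n, hn⟩ := hcov x
    show i (r (c x)) = i x
    rw [← hn, iter_eq φ i hi.2]
  · intro j _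
    rfl

end

end Pool.Agent.Helper5.Vass
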