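import Pool.Agent.Helper5.Vass.AddLeg

set_option autoImplicit false

/-!
# Graphs with prescribed numbers of legs on the edges of a core graph
-/

namespace Pool.Agent.Helper5.Vass

open Equiv Finset

section
variable {V U V' U' : Type}

/-- The bijection of half-edges induced by bijections of the vertices. -/
def heEquiv (a : V ≃ V') (b : U ≃ U') : HalfEdge V U ≃ HalfEdge V' U' :=
  Equiv.sumCongr (Equiv.prodCongr a (Equiv.refl _)) b

/-- Transport of a graph along bijections of the vertices. -/
def transport (a : V ≃ V') (b : U ≃ U') (G : UTGraph V U) : UTGraph V' U' where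
  e := ((heEquiv a b).symm.trans G.e).trans (heEquiv a b)
  invol h := by simp [G.invol]
  fpf h := by
    intro hh
    have : G.e ((heEquiv a b).symm h) = (heEquiv a b).symm h := by
      apply (heEquiv a b).injective
      simpa using hh
    exact G.fpf _ this

theorem transport_e (a : V ≃ V') (b : U ≃ U') (G : UTGraph V U) (h : HalfEdge V U) :
    (transport a b G).e (heEquiv a b h) = heEquiv a b (G.e h) := by
  simp [transport]

theorem transport_connected (a : V ≃ V') (b : U ≃ U') (G : UTGraph V U) (hG : G.Connected) :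
    (transport a b G).Connected := by
  intro S hne hS hV
  have h1 : (heEquiv a b ⁻¹' S : Set (HalfEdge V U)) = Set.univ := by
    apply hG
    · obtain ⟨x, hx⟩ := hne
      exact ⟨(heEquiv a b).symm x, by simpa using hx⟩
    · intro h hh
      show heEquiv a b (G.e h) ∈ S
      rw [← transport_e]
      exact hS _ hh
    · intro v i j hh
      exact hV (a v) i j hh
  rw [Set.eq_univ_iff_forall] at h1 ⊢
  intro x
  have := h1 ((heEquiv a b).symm x)
  simpa using this

end

section
variable {V U V' U' I : Type} [Fintype V] [DecidableEq V] [Fintype U] [DecidableEq U]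
  [Fintype V'] [DecidableEq V'] [Fintype U'] [DecidableEq U'] [Fintype I]
  [DecidableEq I] {C : I → I → I → ℤ} {τ : I → I} {l : I → ℤ}

theorem W_transport (a : V ≃ V') (b : U ≃ U') (G : UTGraph V U)
    (w : (HalfEdge V U → I) → ℤ) :
    W C τ l (transport a b G).e (fun x => w (fun k => x (heEquiv a b k))) = W C τ l G.e w := by
  unfold W
  rw [← Equiv.sum_comp (Equiv.arrowCongr (heEquiv a b) (Equiv.refl I))]
  refine Finset.sum_congr rfl fun x _ => ?_
  have h1 : ∀ k, (Equiv.arrowCongr (heEquiv a b) (Equiv.refl I)) x (heEquiv a b k) = x k := by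
    intro k
    simp [Equiv.arrowCongr]
  have hiff : (∀ h, (Equiv.arrowCongr (heEquiv a b) (Equiv.refl I)) x ((transport a b G).e h) =
      τ ((Equiv.arrowCongr (heEquiv a b) (Equiv.refl I)) x h)) ↔ ∀ h, x (G.e h) = τ (x h) := by
    constructor
    · intro hx h
      have := hx (heEquiv a b h)
      rwa [transport_e, h1, h1] at this
    · intro hx h
      obtain ⟨k, rfl⟩ := (heEquiv a b).surjective h
      rw [transport_e, h1, h1, hx]
  have h2 : Fprod C l ((Equiv.arrowCongr (heEquiv a b) (Equiv.refl I)) x) = Fprod C l x := by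
    unfold Fprod
    rw [← Equiv.prod_comp a, ← Equiv.prod_comp b]
    congr 1
    · refine Finset.prod_congr rfl fun v _ => ?_
      have h3 : ∀ i, (Equiv.arrowCongr (heEquiv a b) (Equiv.refl I)) x (Sum.inl (a v, i)) =
          x (Sum.inl (v, i)) := fun i => h1 (Sum.inl (v, i))
      rw [h3, h3, h3]
    · refine Finset.prod_congr rfl fun u _ => ?_
      have h3 : (Equiv.arrowCongr (heEquiv a b) (Equiv.refl I)) x (Sum.inr (b u)) =
          x (Sum.inr u) := h1 (Sum.inr u)
      rw [h3]
  by_cases hc : ∀ h, x (G.e h) = τ (x h)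
  · rw [if_pos hc, if_pos (hiff.2 hc), h2]
    have h3 : (fun k => (Equiv.arrowCongr (heEquiv a b) (Equiv.refl I)) x (heEquiv a b k)) = x :=
      funext h1
    show Fprod C l x * w (fun k => (Equiv.arrowCongr (heEquiv a b) (Equiv.refl I)) x
      (heEquiv a b k)) = _
    rw [h3]
  · rw [if_neg hc, if_neg (fun h => hc (hiff.1 h))]

end

/-- The weight of a labelling given by powers of `lam` on marked half-edges. -/
def pw {V U I : Type} {m : ℕ} (lam : I → ℤ) (M : Fin m → HalfEdge V U) (n : Fin m → ℕ)
    (x : HalfEdge V U → I) : ℤ := ∏ i, lam (x (M i)) ^ n i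

/-- The weights of `G` are those of the core `G₀` with `c i` legs on the marked edge `i`. -/
def Carries {V U V₀ U₀ : Type} [Fintype V] [DecidableEq V] [Fintype U] [DecidableEq U]
    [Fintype V₀] [DecidableEq V₀] [Fintype U₀] [DecidableEq U₀] {m : ℕ}
    (G : UTGraph V U) (M : Fin m → HalfEdge V U) (G₀ : UTGraph V₀ U₀)
    (M₀ : Fin m → HalfEdge V₀ U₀) (c : Fin m → ℕ) : Prop :=
  (∀ (I : Type) (_ : Fintype I) (_ : DecidableEq I) (C : I → I → I → ℤ) (τ : I → I) (l : I → ℤ)
    (lam : I → ℤ), (∀ x, τ (τ x) = x) →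
    (∀ a b, ∑ z, C (τ a) b z * l (τ z) = if a = b then lam a else 0) →
    ∀ n : Fin m → ℕ, W C τ l G.e (pw lam M n) = W C τ l G₀.e (pw lam M₀ (fun i => c i + n i))) ∧
  (∀ (I : Type) (_ : Fintype I) (_ : DecidableEq I) (C : I → I → I → ℤ) (τ ρ : I → I) (l : I → ℤ)
    (lam : I → ℤ), IsLie C τ → IsOdd C τ ρ l → (∀ x, lam (ρ x) = lam x) →
    (∀ a b, ∑ z, C (τ a) b z * l (τ z) =
      (if a = b then lam a else 0) - (if a = ρ b then lam a else 0)) →
    ∀ n : Fin m → ℕ, W C τ l G.e (pw lam M n) =
      2 ^ (∑ i, c i) * W C τ l G₀.e (pw lam M₀ (fun i => c i + n i)))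

theorem carries_zero {V₀ U₀ : Type}
    [Fintype V₀] [DecidableEq V₀] [Fintype U₀] [DecidableEq U₀] {m : ℕ} (G₀ : UTGraph V₀ U₀)
    (M₀ : Fin m → HalfEdge V₀ U₀) : Carries G₀ M₀ G₀ M₀ 0 := by
  constructor
  · intros
    simp
  · intros
    simp

theorem pw_succ {V U I : Type} {m : ℕ} (lam : I → ℤ) (M : Fin m → HalfEdge V U) (n : Fin m → ℕ)
    (i : Fin m) (x : HalfEdge V U → I) :
    pw lam M n x * lam (x (M i)) = pw lam M (n + Pi.single i 1) x := by
  unfold pw
  simp only [Pi.add_apply, pow_add, Finset.prod_mul_distrib]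
  congr 1
  rw [Finset.prod_eq_single i]
  · simp
  · intro b _ hb
    rw [Pi.single_eq_of_ne hb, pow_zero]
  · simp

theorem carries_succ {V U V₀ U₀ : Type} [Fintype V] [DecidableEq V] [Fintype U] [DecidableEq U]
    [Fintype V₀] [DecidableEq V₀] [Fintype U₀] [DecidableEq U₀] {m : ℕ}
    (G : UTGraph V U) (M : Fin m → HalfEdge V U) (G₀ : UTGraph V₀ U₀)
    (M₀ : Fin m → HalfEdge V₀ U₀) (c : Fin m → ℕ) (h : Carries G M G₀ M₀ c) (i : Fin m) :
    Carries (addLeg G (M i)) (fun j => incl (M j)) G₀ M₀ (c + Pi.single i 1) := by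
  constructor
  · intro I _ _ C τ l lam hτ hM n
    have h1 := W_addLeg (l := l) hτ hM G (M i) (pw lam M n)
    have h2 : (fun x : HalfEdge (Option V) (Option U) → I => pw lam M n (fun k => x (incl k))) =
        pw lam (fun j => incl (M j)) n := rfl
    rw [h2] at h1
    rw [h1]
    simp only [pw_succ]
    have h3 := h.1 I _ _ C τ l lam hτ hM (n + Pi.single i 1)
    rw [show (fun x => pw lam M (n + Pi.single i 1) x) = pw lam M (n + Pi.single i 1) from rfl, h3]
    congr 2
    funext j
    simp only [Pi.add_apply]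
    ring
  · intro I _ _ C τ ρ l lam hL hρ hlam hM n
    have hw : ∀ x k, pw lam M n (Function.update x k (ρ (x k))) = pw lam M n x := by
      intro x k
      unfold pw
      refine Finset.prod_congr rfl fun j _ => ?_
      by_cases hj : M j = k
      · rw [hj, Function.update_self, hlam]
      · rw [Function.update_of_ne hj]
    have h1 := W_addLeg_odd hL hρ hM G (M i) (pw lam M n) hw
    have h2 : (fun x : HalfEdge (Option V) (Option U) → I => pw lam M n (fun k => x (incl k))) =
        pw lam (fun j => incl (M j)) n := rfl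
    rw [h2] at h1
    rw [h1]
    simp only [pw_succ]
    have h3 := h.2 I _ _ C τ ρ l lam hL hρ hlam hM (n + Pi.single i 1)
    rw [show (fun x => pw lam M (n + Pi.single i 1) x) = pw lam M (n + Pi.single i 1) from rfl, h3]
    have h4 : ∑ j, (c + Pi.single i 1 : Fin m → ℕ) j = (∑ j, c j) + 1 := by
      simp [Finset.sum_add_distrib]
    rw [h4, pow_succ]
    have h5 : (fun j => c j + (n + Pi.single i 1 : Fin m → ℕ) j) =
        fun j => (c + Pi.single i 1 : Fin m → ℕ) j + n j := by
      funext j
      simp only [Pi.add_apply]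
      ring
    rw [h5]
    ring

theorem carries_transport {V U V' U' V₀ U₀ : Type} [Fintype V] [DecidableEq V] [Fintype U]
    [DecidableEq U] [Fintype V'] [DecidableEq V'] [Fintype U'] [DecidableEq U']
    [Fintype V₀] [DecidableEq V₀] [Fintype U₀] [DecidableEq U₀] {m : ℕ}
    (G : UTGraph V U) (M : Fin m → HalfEdge V U) (G₀ : UTGraph V₀ U₀)
    (M₀ : Fin m → HalfEdge V₀ U₀) (c : Fin m → ℕ) (h : Carries G M G₀ M₀ c)
    (a : V ≃ V') (b : U ≃ U') :
    Carries (transport a b G) (fun j => heEquiv a b (M j)) G₀ M₀ c := by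
  constructor
  · intro I _ _ C τ l lam hτ hM n
    rw [← h.1 I _ _ C τ l lam hτ hM n, ← W_transport a b G]
    rfl
  · intro I _ _ C τ ρ l lam hL hρ hlam hM n
    rw [← h.2 I _ _ C τ ρ l lam hL hρ hlam hM n, ← W_transport a b G]
    rfl

theorem exists_carries {m t u : ℕ} (G₀ : UTGraph (Fin t) (Fin u)) (hG₀ : G₀.Connected)
    (M₀ : Fin m → HalfEdge (Fin t) (Fin u)) (N : ℕ) :
    ∀ c : Fin m → ℕ, ∑ i, c i = N → ∃ (G : UTGraph (Fin (t + N)) (Fin (u + N)))
      (M : Fin m → HalfEdge (Fin (t + N)) (Fin (u + N))), G.Connected ∧ Carries G M G₀ M₀ c := by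
  induction N with
  | zero =>
    intro c hc
    have : c = 0 := by
      funext i
      exact (Finset.sum_eq_zero_iff.1 hc) i (Finset.mem_univ i)
    subst this
    exact ⟨G₀, M₀, hG₀, carries_zero G₀ M₀⟩
  | succ N ih =>
    intro c hc
    obtain ⟨i, hi⟩ : ∃ i, c i ≠ 0 := by
      by_contra hcon
      push Not at hcon
      simp [hcon] at hc
    set c' : Fin m → ℕ := Function.update c i (c i - 1) with hc'
    have hcc : c = c' + Pi.single i 1 := by
      funext j
      by_cases hj : j = i
      · subst hj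
        simp only [hc', Pi.add_apply, Function.update_self, Pi.single_eq_same]
        omega
      · simp [hc', Function.update_of_ne hj, Pi.single_eq_of_ne hj]
    have hs : ∑ j, c' j = N := by
      have : ∑ j, c j = (∑ j, c' j) + 1 := by
        rw [hcc]
        simp [Finset.sum_add_distrib]
      omega
    obtain ⟨G, M, hG, hcar⟩ := ih c' hs
    have h1 := carries_succ G M G₀ M₀ c' hcar i
    have h2 := carries_transport _ _ _ _ _ h1 (finSuccEquiv (t + N)).symm (finSuccEquiv (u + N)).symm
    rw [← hcc] at h2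
    exact ⟨_, _, transport_connected _ _ _ (addLeg_connected G (M i) hG), h2⟩

end Pool.Agent.Helper5.Vass
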