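import Pool.Agent.Helper5.Vass.Eval

set_option autoImplicit false

/-!
# A lower bound for the number of uni-trivalent graphs with four loops and twenty legs
-/

namespace Pool.Agent.Helper5.Vass

open Equiv Finset

instance finite_UTGraph (V U : Type) [Finite V] [Finite U] : Finite (UTGraph V U) := by
  have : Function.Injective (fun G : UTGraph V U => G.e) := by
    intro G G' h
    cases G
    cases G'
    simp only at h
    subst h
    rfl
  exact Finite.of_injective _ this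

/-- Graphs on standard vertex sets with `c i` legs on the marked edges of a core graph. -/
theorem exists_graph {m : ℕ} (G₀ : UTGraph V0 Empty) (hG₀ : G₀.Connected) (M₀ : Fin m → H0)
    (c : Fin m → ℕ) (hc : ∑ i, c i = 20) :
    ∃ (G : UTGraph (Fin 26) (Fin 20)) (M : Fin m → HalfEdge (Fin 26) (Fin 20)),
      G.Connected ∧ Carries G M G₀ M₀ c := by
  have a : V0 ≃ Fin 6 := Fintype.equivFinOfCardEq (by simp)
  have b : Empty ≃ Fin 0 := Fintype.equivFinOfCardEq (by simp)
  obtain ⟨G, M, hG, h1, h2⟩ := exists_carries (transport a b G₀)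
    (transport_connected a b G₀ hG₀) (fun i => heEquiv a b (M₀ i)) 20 c hc
  refine ⟨G, M, hG, ?_, ?_⟩
  · intro I _ _ C τ l lam hτ hM n
    have e1 := h1 I _ _ C τ l lam hτ hM n
    rw [e1, ← W_transport a b G₀]
    rfl
  · intro I _ _ C τ ρ l lam hL hρ hlam hM n
    have e1 := h2 I _ _ C τ ρ l lam hL hρ hlam hM n
    rw [e1, ← W_transport a b G₀]
    rfl

/-- The functional of the general linear type. -/
def funA (hh : Fin 5 → ℤ) (G : UTGraph (Fin 26) (Fin 20)) : ℤ :=
  ∑ S : Finset (Fin 5), (-1 : ℤ) ^ (Sᶜ).card *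
    W (resC (id : Fin 5 → Fin 5) S Cg) Prod.swap (legv hh) G.e (fun _ => 1)

theorem isWeight_funA (hh : Fin 5 → ℤ) : IsWeight (funA hh) :=
  IsWeight.sum Finset.univ (fun S : Finset (Fin 5) => (-1 : ℤ) ^ (Sᶜ).card)
    (fun S G => W (resC (id : Fin 5 → Fin 5) S Cg) Prod.swap (legv hh) G.e (fun _ => 1))
    (fun _ => isWeight_W (isLie_res isLie_Cg Cg_local))

/-- The functional of the orthogonal type. -/
def funD (η : Fin 4 → ℤ) (G : UTGraph (Fin 26) (Fin 20)) : ℤ :=
  ∑ S : Finset (Fin 4), (-1 : ℤ) ^ (Sᶜ).card *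
    W (resC (Prod.fst : Fin 4 × Bool → Fin 4) S (Co barL)) Prod.swap (legv (hhL η)) G.e
      (fun _ => 1)

theorem isWeight_funD (η : Fin 4 → ℤ) : IsWeight (funD η) :=
  IsWeight.sum Finset.univ (fun S : Finset (Fin 4) => (-1 : ℤ) ^ (Sᶜ).card)
    (fun S G => W (resC (Prod.fst : Fin 4 × Bool → Fin 4) S (Co barL)) Prod.swap
      (legv (hhL η)) G.e (fun _ => 1))
    (fun _ => isWeight_W (isLie_res (isLie_Co barL_barL) (Co_local (fun _ => rfl))))

theorem pw_zero {V U I : Type} {m : ℕ} (lam : I → ℤ) (M : Fin m → HalfEdge V U) :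
    (pw lam M 0 : (HalfEdge V U → I) → ℤ) = fun _ => 1 := by
  funext x
  simp [pw]

theorem funA_eq {m : ℕ} (hh : Fin 5 → ℤ) {G : UTGraph (Fin 26) (Fin 20)}
    {M : Fin m → HalfEdge (Fin 26) (Fin 20)} {G₀ : UTGraph V0 Empty} {M₀ : Fin m → H0}
    {c : Fin m → ℕ} (h : Carries G M G₀ M₀ c) :
    funA hh G = topW (id : Fin 5 → Fin 5) Cg (legv hh) G₀.e
      (fun S => pw (resl id S (fun a => hh a.2 - hh a.1)) M₀ c) := by
  unfold funA topW
  refine Finset.sum_congr rfl fun S _ => ?_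
  refine congrArg (fun z : ℤ => (-1 : ℤ) ^ (Sᶜ).card * z) ?_
  have h1 := h.1 (Fin 5 × Fin 5) _ _ (resC (id : Fin 5 → Fin 5) S Cg) Prod.swap (legv hh)
    (resl id S (fun a => hh a.2 - hh a.1)) Prod.swap_swap
    (fun a b => Cg_res_leg hh a b) 0
  rw [pw_zero] at h1
  rw [h1]
  rfl

theorem funD_eq {m : ℕ} (η : Fin 4 → ℤ) {G : UTGraph (Fin 26) (Fin 20)}
    {M : Fin m → HalfEdge (Fin 26) (Fin 20)} {G₀ : UTGraph V0 Empty} {M₀ : Fin m → H0}
    {c : Fin m → ℕ} (h : Carries G M G₀ M₀ c) :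
    funD η G = 2 ^ (∑ i, c i) * topW (Prod.fst : Fin 4 × Bool → Fin 4) (Co barL)
      (legv (hhL η)) G₀.e
      (fun S => pw (resl Prod.fst S (fun a => 2 * (hhL η a.2 - hhL η a.1))) M₀ c) := by
  unfold funD topW
  rw [Finset.mul_sum]
  refine Finset.sum_congr rfl fun S _ => ?_
  rw [mul_left_comm]
  refine congrArg (fun z : ℤ => (-1 : ℤ) ^ (Sᶜ).card * z) ?_
  have hodd : IsOdd (Co barL) Prod.swap (rho barL) (legv (hhL η)) :=
    { invol := rho_rho barL_barL
      comm := fun _ => rfl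
      odd := Co_odd barL_barL
      oddl := legv_rho barL_barL (hhL_barL η) }
  have h1 := h.2 ((Fin 4 × Bool) × (Fin 4 × Bool)) _ _
    (resC (Prod.fst : Fin 4 × Bool → Fin 4) S (Co barL)) Prod.swap (rho barL) (legv (hhL η))
    (resl Prod.fst S (fun a => 2 * (hhL η a.2 - hhL η a.1)))
    (isLie_res (isLie_Co barL_barL) (Co_local (fun _ => rfl)))
    (isOdd_res (fun _ => rfl) hodd)
    (fun x => by
      unfold resl
      have h1 := inS_rho (bar := barL) (Prod.fst : Fin 4 × Bool → Fin 4) S (fun _ => rfl) x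
      by_cases hx : inS (Prod.fst : Fin 4 × Bool → Fin 4) S x
      · rw [if_pos hx, if_pos (h1.2 hx)]
        simp only [rho, hhL_barL]
        ring
      · rw [if_neg hx, if_neg (fun h => hx (h1.1 h))])
    (fun a b => Co_res_leg barL_barL (fun _ => rfl) (hhL_barL η) a b) 0
  rw [pw_zero] at h1
  rw [h1]
  rfl

end Pool.Agent.Helper5.Vass
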