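import Pool.Agent.Helper5.Vass.Cores

set_option autoImplicit false

/-!
# Evaluation of the top orthogonal weight system on `K_{3,3}`
-/

namespace Pool.Agent.Helper5.Vass

open Equiv Finset

/-- The sign of a Boolean. -/
def sg (b : Bool) : ℤ := if b then -1 else 1

theorem sg_mul_self (b : Bool) : sg b * sg b = 1 := by
  cases b <;> rfl

section
variable {L : Type} {bar : L → L}

/-- `bar` or the identity. -/
def bb (bar : L → L) (b : Bool) (x : L) : L := if b then bar x else x

/-- `rho` or the identity. -/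
def rb (bar : L → L) (b : Bool) (x : L × L) : L × L := if b then rho bar x else x

theorem bb_bb (hb : ∀ i, bar (bar i) = i) (s t : Bool) (x : L) :
    bb bar s (bb bar t x) = bb bar (xor s t) x := by
  cases s <;> cases t <;> simp [bb, hb]

theorem bb_self (hb : ∀ i, bar (bar i) = i) (s : Bool) (x : L) :
    bb bar s (bb bar s x) = x := by
  cases s <;> simp [bb, hb]

theorem bb_eq_iff (hb : ∀ i, bar (bar i) = i) (s t : Bool) (x y : L) :
    bb bar s x = bb bar t y ↔ x = bb bar (xor s t) y := by
  constructor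
  · intro h
    rw [← bb_bb hb, ← h, bb_self hb]
  · intro h
    rw [h, bb_bb hb]
    cases s <;> cases t <;> rfl

end

section
variable {L : Type} [Fintype L] [DecidableEq L] {bar : L → L}

theorem sum_fin3_bool (g : Bool → Bool → Bool → ℤ) :
    ∑ f : Fin 3 → Bool, g (f 0) (f 1) (f 2) = ∑ a, ∑ b, ∑ c, g a b c := by
  have h1 : ∑ f : Fin 3 → Bool, g (f 0) (f 1) (f 2) =
      ∑ x : Bool × Bool × Bool, g x.1 x.2.1 x.2.2 := by
    refine Fintype.sum_equiv (⟨fun f => (f 0, f 1, f 2), fun x => ![x.1, x.2.1, x.2.2], ?_, ?_⟩ :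
      (Fin 3 → Bool) ≃ Bool × Bool × Bool) _ _ (fun f => rfl)
    · intro f
      funext k
      fin_cases k <;> rfl
    · intro x
      rfl
  rw [h1, Fintype.sum_prod_type]
  refine Finset.sum_congr rfl fun a _ => ?_
  rw [Fintype.sum_prod_type]

theorem Co_expand (z : Fin 3 → L × L) :
    Co bar (z 0) (z 1) (z 2) = ∑ f : Fin 3 → Bool, (∏ q, sg (f q)) *
      T (rb bar (f 0) (z 0)) (rb bar (f 1) (z 1)) (rb bar (f 2) (z 2)) := by
  simp only [Fin.prod_univ_three]
  rw [sum_fin3_bool (fun a b c => sg a * sg b * sg c *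
    T (rb bar a (z 0)) (rb bar b (z 1)) (rb bar c (z 2)))]
  simp only [Fintype.sum_bool, sg, rb, if_true, Bool.false_eq_true, if_false]
  unfold Co
  ring

theorem T_fin3 (z : Fin 3 → L × L) :
    T (z 0) (z 1) (z 2) = if ∀ q, (z q).2 = (z (q + 1)).1 then 1 else 0 := by
  unfold T
  refine if_congr ?_ rfl rfl
  constructor
  · rintro ⟨a, b, c⟩ q
    have hq := (by decide : ∀ q : Fin 3, q = 0 ∨ q = 1 ∨ q = 2) q
    rcases hq with rfl | rfl | rfl
    · exact a
    · exact b
    · exact c
  · intro h
    exact ⟨h 0, h 1, h 2⟩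

theorem Co_rb (hb : ∀ i, bar (bar i) = i) (f : Fin 3 → Bool) (z : Fin 3 → L × L) :
    Co bar (rb bar (f 0) (z 0)) (rb bar (f 1) (z 1)) (rb bar (f 2) (z 2)) =
      (∏ q, sg (f q)) * Co bar (z 0) (z 1) (z 2) := by
  have h0 : ∀ (b : Bool) (x y z : L × L), Co bar (rb bar b x) y z = sg b * Co bar x y z := by
    intro b x y z
    cases b
    · simp [rb, sg]
    · simp [rb, sg, Co_odd hb]
  rw [h0, Co_cyc, h0, Co_cyc, h0, Co_cyc, Fin.prod_univ_three]
  ring

/-- The pair of labels at a half-edge of `K_{3,3}`. -/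
def pr (i : H0 → L) (b : Bool) (p q : Fin 3) : L × L :=
  (i (Sum.inl ((b, p), q)), i (Sum.inl ((!b, q), p)))

/-- The flips of edges of `K_{3,3}`. -/
def act (bar : L → L) (f : Fin 3 → Fin 3 → Bool) (i : H0 → L) : H0 → L
  | Sum.inl ((b, p), q) => if (if b then f q p else f p q) then bar (i (Sum.inl ((!b, q), p)))
      else i (Sum.inl ((b, p), q))

theorem act_act (hb : ∀ i, bar (bar i) = i) (f : Fin 3 → Fin 3 → Bool) (i : H0 → L) :
    act bar f (act bar f i) = i := by
  funext x
  obtain ⟨⟨b, p⟩, q⟩ | u := x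
  · cases b
    · cases h : f p q <;> simp [act, h, hb]
    · cases h : f q p <;> simp [act, h, hb]
  · exact u.elim

theorem pr_act_false (f : Fin 3 → Fin 3 → Bool) (i : H0 → L) (p q : Fin 3) :
    pr (act bar f i) false p q = rb bar (f p q) (pr i false p q) := by
  cases h : f p q <;> simp [act, pr, rb, rho, h]

theorem pr_act_true (f : Fin 3 → Fin 3 → Bool) (i : H0 → L) (p q : Fin 3) :
    pr (act bar f i) true q p = rb bar (f p q) (pr i true q p) := by
  cases h : f p q <;> simp [act, pr, rb, rho, h]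

/-- The vertices on the first side. -/
def prodF (C : L × L → L × L → L × L → ℤ) (i : H0 → L) : ℤ :=
  ∏ p : Fin 3, C (pr i false p 0) (pr i false p 1) (pr i false p 2)

/-- The vertices on the second side. -/
def prodS (C : L × L → L × L → L × L → ℤ) (i : H0 → L) : ℤ :=
  ∏ q : Fin 3, C (pr i true q 0) (pr i true q 1) (pr i true q 2)

theorem sum_flip (hb : ∀ i, bar (bar i) = i) (R : (H0 → L) → ℤ)
    (hR : ∀ f i, R (act bar f i) = (∏ p, ∏ q, sg (f p q)) * R i) :
    ∑ i : H0 → L, prodF (Co bar) i * R i = 512 * ∑ i : H0 → L, prodF T i * R i := by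
  have h1 : ∀ i : H0 → L, prodF (Co bar) i * R i =
      ∑ f : Fin 3 → Fin 3 → Bool, (∏ p, ∏ q, sg (f p q)) * prodF T (act bar f i) * R i := by
    intro i
    have : prodF (Co bar) i = ∏ p : Fin 3, ∑ g : Fin 3 → Bool, (∏ q, sg (g q)) *
        T (rb bar (g 0) (pr i false p 0)) (rb bar (g 1) (pr i false p 1))
          (rb bar (g 2) (pr i false p 2)) := by
      unfold prodF
      refine Finset.prod_congr rfl fun p _ => ?_
      exact Co_expand (fun q => pr i false p q)
    rw [this, Finset.prod_univ_sum, Fintype.piFinset_univ, Finset.sum_mul]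
    refine Finset.sum_congr rfl fun f _ => ?_
    rw [Finset.prod_mul_distrib]
    congr 2
    unfold prodF
    refine Finset.prod_congr rfl fun p _ => ?_
    rw [pr_act_false, pr_act_false, pr_act_false]
  simp only [h1]
  rw [Finset.sum_comm]
  have h2 : ∀ f : Fin 3 → Fin 3 → Bool, ∑ i : H0 → L,
      (∏ p, ∏ q, sg (f p q)) * prodF T (act bar f i) * R i =
      ∑ i : H0 → L, prodF T i * R i := by
    intro f
    have hinv : Function.Involutive (act bar f) := act_act hb f
    rw [← Equiv.sum_comp hinv.toPerm]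
    refine Finset.sum_congr rfl fun i _ => ?_
    show (∏ p, ∏ q, sg (f p q)) * prodF T (act bar f (act bar f i)) * R (act bar f i) = _
    rw [act_act hb, hR]
    have h3 : (∏ p, ∏ q, sg (f p q)) * (∏ p, ∏ q, sg (f p q)) = 1 := by
      rw [← Finset.prod_mul_distrib]
      refine Finset.prod_eq_one fun p _ => ?_
      rw [← Finset.prod_mul_distrib]
      refine Finset.prod_eq_one fun q _ => ?_
      exact sg_mul_self _
    calc (∏ p, ∏ q, sg (f p q)) * prodF T i * ((∏ p, ∏ q, sg (f p q)) * R i)
        = ((∏ p, ∏ q, sg (f p q)) * (∏ p, ∏ q, sg (f p q))) * (prodF T i * R i) := by ring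
      _ = _ := by rw [h3, one_mul]
  simp only [h2]
  rw [Finset.sum_const, Finset.card_univ]
  have : Fintype.card (Fin 3 → Fin 3 → Bool) = 512 := by
    simp
  rw [this]
  simp

/-- The outgoing half-edge. -/
def outt (t : Fin 3 → Fin 3 → Bool) (q p : Fin 3) : H0 :=
  if t q p then Sum.inl ((true, q), p) else Sum.inl ((false, p), q)

/-- The ingoing half-edge. -/
def inn (t : Fin 3 → Fin 3 → Bool) (q p : Fin 3) : H0 :=
  if t q p then Sum.inl ((false, p), q) else Sum.inl ((true, q), p)

/-- The constraints from the first side. -/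
def conA (i : H0 → L) : Prop :=
  ∀ p q : Fin 3, i (Sum.inl ((true, q), p)) = i (Sum.inl ((false, p), q + 1))

/-- The constraints from the second side. -/
def conB (bar : L → L) (t : Fin 3 → Fin 3 → Bool) (i : H0 → L) : Prop :=
  ∀ q p : Fin 3, bb bar (t q p) (i (outt t q p)) = bb bar (t q (p + 1)) (i (inn t q (p + 1)))

instance (i : H0 → L) : Decidable (conA i) := by unfold conA; infer_instance

instance (t : Fin 3 → Fin 3 → Bool) (i : H0 → L) : Decidable (conB bar t i) := by
  unfold conB; infer_instance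

theorem prodF_T (i : H0 → L) : prodF T i = if conA i then 1 else 0 := by
  unfold prodF
  have h1 : ∀ p, T (pr i false p 0) (pr i false p 1) (pr i false p 2) =
      if ∀ q, (pr i false p q).2 = (pr i false p (q + 1)).1 then 1 else 0 :=
    fun p => T_fin3 (fun q => pr i false p q)
  simp only [h1]
  rw [Finset.prod_ite_zero]
  simp only [Finset.mem_univ, true_imp_iff, Finset.prod_const_one]
  rfl

theorem prodS_Co (i : H0 → L) : prodS (Co bar) i =
    ∑ t : Fin 3 → Fin 3 → Bool, (∏ q, ∏ p, sg (t q p)) * if conB bar t i then 1 else 0 := by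
  have : prodS (Co bar) i = ∏ q : Fin 3, ∑ g : Fin 3 → Bool, (∏ p, sg (g p)) *
      T (rb bar (g 0) (pr i true q 0)) (rb bar (g 1) (pr i true q 1))
        (rb bar (g 2) (pr i true q 2)) := by
    unfold prodS
    refine Finset.prod_congr rfl fun p _ => ?_
    exact Co_expand (fun q => pr i true p q)
  rw [this, Finset.prod_univ_sum, Fintype.piFinset_univ]
  refine Finset.sum_congr rfl fun t _ => ?_
  rw [Finset.prod_mul_distrib]
  congr 1
  have h1 : ∀ q, T (rb bar (t q 0) (pr i true q 0)) (rb bar (t q 1) (pr i true q 1))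
        (rb bar (t q 2) (pr i true q 2)) =
      if ∀ p, (rb bar (t q p) (pr i true q p)).2 = (rb bar (t q (p + 1)) (pr i true q (p + 1))).1
        then 1 else 0 :=
    fun q => T_fin3 (fun p => rb bar (t q p) (pr i true q p))
  simp only [h1]
  rw [Finset.prod_ite_zero]
  simp only [Finset.mem_univ, true_imp_iff, Finset.prod_const_one]
  refine if_congr ?_ rfl rfl
  have h2 : ∀ q p, (rb bar (t q p) (pr i true q p)).2 = bb bar (t q p) (i (outt t q p)) := by
    intro q p
    cases h : t q p <;> simp [rb, bb, outt, pr, rho, h]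
  have h3 : ∀ q p, (rb bar (t q p) (pr i true q p)).1 = bb bar (t q p) (i (inn t q p)) := by
    intro q p
    cases h : t q p <;> simp [rb, bb, inn, pr, rho, h]
  simp only [h2, h3]
  rfl

end

end Pool.Agent.Helper5.Vass
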