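import Pool.Agent.Helper5.Vass.So

set_option autoImplicit false

/-!
# The orbits for the top orthogonal weight system on `K_{3,3}`
-/

namespace Pool.Agent.Helper5.Vass

open Equiv Finset

/-! ### Orbits of two maps -/

section
variable {X : Type} [Fintype X] [DecidableEq X]

/-- `k` is at most the indices along the alternating walk from `x`. -/
def allLe2 (idx : X → ℕ) (k : ℕ) : ℕ → (X → X) → (X → X) → X → Bool
  | 0, _, _, _ => true
  | n + 1, φ, ψ, x => decide (k ≤ idx x) && allLe2 idx k n ψ φ (φ x)

theorem allLe2_of (idx : X → ℕ) (k : ℕ) (P : X → Prop) (hk : ∀ x, P x → k ≤ idx x) :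
    ∀ n (φ ψ : X → X), (∀ x, P x → P (φ x)) → (∀ x, P x → P (ψ x)) → ∀ x, P x →
      allLe2 idx k n φ ψ x = true := by
  intro n
  induction n with
  | zero => intro φ ψ _ _ x _; rfl
  | succ n ih =>
    intro φ ψ hφ hψ x hx
    simp only [allLe2, Bool.and_eq_true, decide_eq_true_eq]
    exact ⟨hk x hx, ih ψ φ hψ hφ _ (hφ x hx)⟩

theorem card_le_minima2 (idx : X → ℕ) (φ ψ : X → X) (N : ℕ) {K : Type} [Fintype K]
    [DecidableEq K] (g : X → K) (hφ : ∀ x, g (φ x) = g x) (hψ : ∀ x, g (ψ x) = g x)
    (hs : Finset.univ.image g = Finset.univ) :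
    Fintype.card K ≤ (Finset.univ.filter fun x => allLe2 idx (idx x) N φ ψ x = true).card := by
  have hne : ∀ k : K, (Finset.univ.filter fun x => g x = k).Nonempty := by
    intro k
    have : k ∈ Finset.univ.image g := by rw [hs]; exact Finset.mem_univ k
    obtain ⟨x, _, hx⟩ := Finset.mem_image.1 this
    exact ⟨x, by simp [hx]⟩
  have hmin : ∀ k : K, ∃ x, g x = k ∧ ∀ y, g y = k → idx x ≤ idx y := by
    intro k
    obtain ⟨x, hx, hx2⟩ := Finset.exists_min_image _ idx (hne k)
    refine ⟨x, by simpa using hx, fun y hy => hx2 y (by simp [hy])⟩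
  choose f hf1 hf2 using hmin
  have hinj : Function.Injective f := by
    intro a b hab
    rw [← hf1 a, ← hf1 b, hab]
  have hsub : Finset.univ.image f ⊆
      (Finset.univ.filter fun x => allLe2 idx (idx x) N φ ψ x = true) := by
    intro x hx
    obtain ⟨k, _, rfl⟩ := Finset.mem_image.1 hx
    simp only [Finset.mem_filter, Finset.mem_univ, true_and]
    exact allLe2_of idx _ (fun y => g y = k) (hf2 k) N φ ψ (fun y hy => by rw [hφ, hy])
      (fun y hy => by rw [hψ, hy]) _ (hf1 k)
  have := Finset.card_le_card hsub
  rwa [Finset.card_image_of_injective _ hinj, Finset.card_univ] at this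

/-- The alternating walk. -/
def walk2 {Y : Type} : ℕ → (Y → Y) → (Y → Y) → Y → Y
  | 0, _, _, y => y
  | n + 1, φ, ψ, y => walk2 n ψ φ (φ y)

theorem walk2_eq {Y Z : Type} (g : Y → Z) : ∀ n (φ ψ : Y → Y), (∀ y, g (φ y) = g y) →
    (∀ y, g (ψ y) = g y) → ∀ y, g (walk2 n φ ψ y) = g y := by
  intro n
  induction n with
  | zero => intro φ ψ _ _ y; rfl
  | succ n ih =>
    intro φ ψ hφ hψ y
    simp only [walk2]
    rw [ih ψ φ hψ hφ, hφ]

end

/-- The first matching. -/
def stA : H0 → H0
  | Sum.inl ((true, q), p) => Sum.inl ((false, p), q + 1)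
  | Sum.inl ((false, p), q) => Sum.inl ((true, q + 2), p)

/-- The second matching. -/
def stB (t : Fin 3 → Fin 3 → Bool) : H0 → H0
  | Sum.inl ((true, q), p) => if t q p then inn t q (p + 1) else outt t q (p + 2)
  | Sum.inl ((false, p), q) => if t q p then outt t q (p + 2) else inn t q (p + 1)

/-- The sign change along the second matching. -/
def dlB (t : Fin 3 → Fin 3 → Bool) : H0 → Bool
  | Sum.inl ((true, q), p) => if t q p then xor (t q p) (t q (p + 1))
      else xor (t q p) (t q (p + 2))
  | Sum.inl ((false, p), q) => if t q p then xor (t q p) (t q (p + 2))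
      else xor (t q p) (t q (p + 1))

section
variable {L : Type} {bar : L → L}

theorem conA_st {i : H0 → L} (h : conA i) (x : H0) : i (stA x) = i x := by
  obtain ⟨⟨b, p⟩, q⟩ | u := x
  · cases b
    · show i (Sum.inl ((true, q + 2), p)) = i (Sum.inl ((false, p), q))
      rw [h p (q + 2)]
      have : q + 2 + 1 = q := by revert q; decide
      rw [this]
    · exact (h q p).symm
  · exact u.elim

theorem conB_st (hb : ∀ i, bar (bar i) = i) {t : Fin 3 → Fin 3 → Bool} {i : H0 → L}
    (h : conB bar t i) (x : H0) : bb bar (dlB t x) (i (stB t x)) = i x := by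
  have h1 : ∀ q p, bb bar (xor (t q p) (t q (p + 1))) (i (inn t q (p + 1))) =
      i (outt t q p) := fun q p => ((bb_eq_iff hb _ _ _ _).1 (h q p)).symm
  have h2 : ∀ q p, bb bar (xor (t q p) (t q (p + 2))) (i (outt t q (p + 2))) =
      i (inn t q p) := by
    intro q p
    have h3 := (h q (p + 2)).symm
    have : p + 2 + 1 = p := by
      clear h3
      revert p
      decide
    rw [this] at h3
    exact ((bb_eq_iff hb _ _ _ _).1 h3).symm
  obtain ⟨⟨b, p⟩, q⟩ | u := x
  · cases b
    · cases ht : t q p
      · have h3 := h1 q p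
        simp only [ht, outt, Bool.false_eq_true, if_false] at h3
        simpa [stB, dlB, ht] using h3
      · have h3 := h2 q p
        simp only [ht, inn, if_true] at h3
        simpa [stB, dlB, ht] using h3
    · cases ht : t p q
      · have h3 := h2 p q
        simp only [ht, inn, Bool.false_eq_true, if_false] at h3
        simpa [stB, dlB, ht] using h3
      · have h3 := h1 p q
        simp only [ht, outt, if_true] at h3
        simpa [stB, dlB, ht] using h3
  · exact u.elim

/-- The number of half-edges of smallest index on their alternating walks. -/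
def numMin2 (t : Fin 3 → Fin 3 → Bool) : ℕ :=
  (Finset.univ.filter fun x : H0 => allLe2 idx0 (idx0 x) 18 stA (stB t) x = true).card

/-- Nine Booleans give a choice of reversals. -/
def mk9 (a b c d e f g h k : Bool) : Fin 3 → Fin 3 → Bool := fun q p =>
  if q = 0 then (if p = 0 then a else if p = 1 then b else c)
  else if q = 1 then (if p = 0 then d else if p = 1 then e else f)
  else (if p = 0 then g else if p = 1 then h else k)

theorem mk9_eq (t : Fin 3 → Fin 3 → Bool) : t = mk9 (t 0 0) (t 0 1) (t 0 2) (t 1 0) (t 1 1)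
    (t 1 2) (t 2 0) (t 2 1) (t 2 2) := by
  funext q p
  have hp := (by decide : ∀ q : Fin 3, q = 0 ∨ q = 1 ∨ q = 2) p
  have hq := (by decide : ∀ q : Fin 3, q = 0 ∨ q = 1 ∨ q = 2) q
  rcases hq with rfl | rfl | rfl <;> rcases hp with rfl | rfl | rfl <;> rfl

/-- The six choices with four components. -/
def goodt : Fin 6 → Fin 3 → Fin 3 → Bool
  | 0 => mk9 false false true true false false false true false
  | 1 => mk9 false true false false false true true false false
  | 2 => mk9 false true true true true false true false true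
  | 3 => mk9 true false false false true false false false true
  | 4 => mk9 true false true false true true true true false
  | 5 => mk9 true true false true false true false true true

theorem numMin2_lt : ∀ a b c d e f g h k : Bool,
    numMin2 (mk9 a b c d e f g h k) < 4 ∨ ∃ r : Fin 6, goodt r = mk9 a b c d e f g h k := by
  decide +kernel

end

end Pool.Agent.Helper5.Vass
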