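import Pool.Agent.Helper5.Vass.So2

set_option autoImplicit false

/-!
# The top orthogonal weight system on `K_{3,3}`
-/

namespace Pool.Agent.Helper5.Vass

open Equiv Finset

/-- The components. -/
def tabC : Fin 6 → List (Fin 4)
  | 0 => [0, 1, 2, 3, 0, 2, 3, 1, 0, 1, 0, 1, 2, 2, 0, 0, 3, 3]
  | 1 => [0, 1, 2, 0, 3, 1, 1, 3, 2, 1, 3, 3, 2, 1, 2, 0, 0, 1]
  | 2 => [0, 1, 2, 0, 2, 3, 2, 1, 3, 1, 2, 1, 2, 3, 3, 0, 0, 2]
  | 3 => [0, 1, 2, 2, 1, 3, 0, 2, 3, 1, 1, 2, 2, 3, 3, 0, 2, 0]
  | 4 => [0, 1, 2, 3, 1, 0, 3, 0, 2, 1, 1, 0, 2, 0, 2, 0, 3, 3]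
  | 5 => [0, 1, 2, 1, 3, 2, 0, 3, 1, 1, 3, 3, 2, 2, 1, 0, 1, 0]

/-- The signs. -/
def tabB : Fin 6 → List Bool
  | 0 => [false, false, false, false, false, true, true, true, false, false, false, true, false, true, false, false, false, true]
  | 1 => [false, false, false, true, false, false, false, true, true, false, false, true, false, false, true, false, true, false]
  | 2 => [false, false, false, true, false, false, false, true, true, false, false, true, false, false, true, false, true, false]
  | 3 => [false, false, false, false, true, false, true, false, true, false, true, false, false, false, true, false, false, true]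
  | 4 => [false, false, false, false, true, false, true, false, true, false, true, false, false, false, true, false, false, true]
  | 5 => [false, false, false, false, false, true, true, true, false, false, false, true, false, true, false, false, false, true]

/-- The representatives. -/
def tabR : Fin 6 → Fin 4 → Fin 3 × Fin 3
  | 0 => ![(0, 0), (0, 1), (0, 2), (1, 0)]
  | 1 => ![(0, 0), (0, 1), (0, 2), (1, 1)]
  | 2 => ![(0, 0), (0, 1), (0, 2), (1, 2)]
  | 3 => ![(0, 0), (0, 1), (0, 2), (1, 2)]
  | 4 => ![(0, 0), (0, 1), (0, 2), (1, 0)]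
  | 5 => ![(0, 0), (0, 1), (0, 2), (1, 1)]

/-- The component of a half-edge. -/
def cpt (r : Fin 6) (x : H0) : Fin 4 := (tabC r).getD (idx0 x) 0

/-- The sign of a half-edge. -/
def bet (r : Fin 6) (x : H0) : Bool := (tabB r).getD (idx0 x) false

/-- The representative of a component. -/
def rp (r : Fin 6) (k : Fin 4) : H0 := Sum.inl ((false, (tabR r k).1), (tabR r k).2)

/-- The first matching with signs. -/
def wA (y : H0 × Bool) : H0 × Bool := (stA y.1, y.2)

/-- The second matching with signs. -/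
def wB (t : Fin 3 → Fin 3 → Bool) (y : H0 × Bool) : H0 × Bool := (stB t y.1, xor y.2 (dlB t y.1))

theorem cpt_rp : ∀ r k, cpt r (rp r k) = k ∧ bet r (rp r k) = false := by
  decide +kernel

theorem cover_walk : ∀ (r : Fin 6) (x : H0), ∃ n : Fin 19,
    walk2 n.val wA (wB (goodt r)) (x, bet r x) = (rp r (cpt r x), false) := by
  decide +kernel

theorem stepA_ok : ∀ (r : Fin 6) (p q : Fin 3),
    cpt r (Sum.inl ((true, q), p)) = cpt r (Sum.inl ((false, p), q + 1)) ∧
    bet r (Sum.inl ((true, q), p)) = bet r (Sum.inl ((false, p), q + 1)) := by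
  decide +kernel

theorem stepB_ok : ∀ (r : Fin 6) (q p : Fin 3),
    cpt r (outt (goodt r) q p) = cpt r (inn (goodt r) q (p + 1)) ∧
    xor (goodt r q p) (bet r (outt (goodt r) q p)) =
      xor (goodt r q (p + 1)) (bet r (inn (goodt r) q (p + 1))) := by
  decide +kernel

section
variable {L : Type} {bar : L → L}

theorem con_iff (hb : ∀ i, bar (bar i) = i) (r : Fin 6) (i : H0 → L) :
    (conA i ∧ conB bar (goodt r) i) ↔ ∀ x, i x = bb bar (bet r x) (i (rp r (cpt r x))) := by
  constructor
  · rintro ⟨hA, hB⟩ x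
    obtain ⟨n, hn⟩ := cover_walk r x
    have h1 := walk2_eq (fun y : H0 × Bool => bb bar y.2 (i y.1)) n.val wA (wB (goodt r))
      (fun y => by
        show bb bar y.2 (i (stA y.1)) = _
        rw [conA_st hA])
      (fun y => by
        show bb bar (xor y.2 (dlB (goodt r) y.1)) (i (stB (goodt r) y.1)) = _
        rw [← bb_bb hb, conB_st hb hB]) (x, bet r x)
    rw [hn] at h1
    have h2 : i (rp r (cpt r x)) = bb bar (bet r x) (i x) := h1
    rw [h2, bb_self hb]
  · intro h
    constructor
    · intro p q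
      rw [h, h (Sum.inl ((false, p), q + 1)), (stepA_ok r p q).1, (stepA_ok r p q).2]
    · intro q p
      rw [h (outt (goodt r) q p), h (inn (goodt r) q (p + 1)), bb_bb hb, bb_bb hb,
        (stepB_ok r q p).1, (stepB_ok r q p).2]

end

section
variable {L : Type} [Fintype L] [DecidableEq L] {K : Type} [Fintype K] [DecidableEq K]
  {bar : L → L}

theorem sum_comps (hb : ∀ i, bar (bar i) = i) (κ : L → K) (hκ : ∀ i, κ (bar i) = κ i)
    (r : Fin 6) (F : (H0 → L) → ℤ) :
    ∑ i : H0 → L, (if (Finset.univ.image fun h => κ (i h)) = Finset.univ ∧ conA i ∧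
      conB bar (goodt r) i then F i else 0) =
      ∑ j : Fin 4 → L, if (Finset.univ.image fun k => κ (j k)) = Finset.univ then
        F (fun x => bb bar (bet r x) (j (cpt r x))) else 0 := by
  have hκb : ∀ s x, κ (bb bar s x) = κ x := by
    intro s x
    cases s <;> simp [bb, hκ]
  rw [← Finset.sum_filter, ← Finset.sum_filter]
  symm
  refine Finset.sum_nbij' (fun j => fun x => bb bar (bet r x) (j (cpt r x)))
    (fun i => fun k => i (rp r k)) ?_ ?_ ?_ ?_ ?_
  · intro j hj
    simp only [Finset.mem_filter, Finset.mem_univ, true_and] at hj ⊢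
    refine ⟨?_, ?_⟩
    · rw [← hj]
      ext a
      simp only [Finset.mem_image, Finset.mem_univ, true_and, hκb]
      constructor
      · rintro ⟨x, hx⟩
        exact ⟨cpt r x, hx⟩
      · rintro ⟨k, hk⟩
        exact ⟨rp r k, by rw [(cpt_rp r k).1, hk]⟩
    · rw [con_iff hb]
      intro x
      show _ = bb bar (bet r x) (bb bar (bet r (rp r (cpt r x))) (j (cpt r (rp r (cpt r x)))))
      rw [(cpt_rp r _).1, (cpt_rp r _).2]
      rfl
  · intro i hi
    simp only [Finset.mem_filter, Finset.mem_univ, true_and] at hi ⊢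
    have hi2 := (con_iff hb r i).1 hi.2
    rw [← hi.1]
    ext a
    simp only [Finset.mem_image, Finset.mem_univ, true_and]
    constructor
    · rintro ⟨k, hk⟩
      exact ⟨rp r k, hk⟩
    · rintro ⟨x, hx⟩
      refine ⟨cpt r x, ?_⟩
      rw [← hx, hi2 x, hκb]
  · intro j _
    funext k
    show bb bar (bet r (rp r k)) (j (cpt r (rp r k))) = j k
    rw [(cpt_rp r k).1, (cpt_rp r k).2]
    rfl
  · intro i hi
    simp only [Finset.mem_filter, Finset.mem_univ, true_and] at hi
    have hi2 := (con_iff hb r i).1 hi.2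
    funext x
    exact (hi2 x).symm
  · intro j _
    rfl

/-- The sum over the labellings for a choice of flips. -/
def soTerm (κ : L → K) (bar : L → L) (t : Fin 3 → Fin 3 → Bool) (F : (H0 → L) → ℤ) : ℤ :=
  ∑ i : H0 → L, (if (Finset.univ.image fun h => κ (i h)) = Finset.univ ∧ conA i ∧
      conB bar t i then F i else 0)

theorem soTerm_eq_zero (hb : ∀ i, bar (bar i) = i) (κ : L → K) (hκ : ∀ i, κ (bar i) = κ i)
    (t : Fin 3 → Fin 3 → Bool) (ht : numMin2 t < Fintype.card K) (F : (H0 → L) → ℤ) :
    soTerm κ bar t F = 0 := by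
  have hκb : ∀ s x, κ (bb bar s x) = κ x := by
    intro s x
    cases s <;> simp [bb, hκ]
  unfold soTerm
  refine Finset.sum_eq_zero fun i _ => ?_
  rw [if_neg]
  rintro ⟨h1, h2, h3⟩
  have h4 := card_le_minima2 idx0 stA (stB t) 18 (fun x => κ (i x))
    (fun x => by
      show κ (i (stA x)) = κ (i x)
      rw [conA_st h2])
    (fun x => by
      show κ (i (stB t x)) = κ (i x)
      rw [← conB_st hb h3 x, hκb]) h1
  unfold numMin2 at ht
  omega

theorem act_pair (f : Fin 3 → Fin 3 → Bool) (i : H0 → L) (x : H0) :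
    ∃ c, (act bar f i x, act bar f i (k33.e x)) = rb bar c (i x, i (k33.e x)) := by
  obtain ⟨⟨b, p⟩, q⟩ | u := x
  · cases b
    · exact ⟨f p q, pr_act_false f i p q⟩
    · exact ⟨f q p, pr_act_true f i q p⟩
  · exact u.elim

theorem act_image (hb : ∀ i, bar (bar i) = i) (κ : L → K) (hκ : ∀ i, κ (bar i) = κ i)
    (f : Fin 3 → Fin 3 → Bool) (i : H0 → L) :
    (Finset.univ.image fun h => κ (act bar f i h)) = Finset.univ.image fun h => κ (i h) := by
  have key : ∀ i : H0 → L, (Finset.univ.image fun h => κ (act bar f i h)) ⊆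
      Finset.univ.image fun h => κ (i h) := by
    intro i a ha
    obtain ⟨x, _, hx⟩ := Finset.mem_image.1 ha
    obtain ⟨c, hc⟩ := act_pair (bar := bar) f i x
    have h1 : act bar f i x = (rb bar c (i x, i (k33.e x))).1 := congrArg Prod.fst hc
    rw [← hx]
    show κ (act bar f i x) ∈ _
    rw [h1]
    cases c
    · exact Finset.mem_image.2 ⟨x, Finset.mem_univ _, rfl⟩
    · refine Finset.mem_image.2 ⟨k33.e x, Finset.mem_univ _, ?_⟩
      show κ (i (k33.e x)) = κ (bar (i (k33.e x)))
      rw [hκ]
  refine Finset.Subset.antisymm (key i) ?_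
  have := key (act bar f i)
  rwa [act_act hb] at this

theorem topW_so (hb : ∀ i, bar (bar i) = i) (κ : L → K) (hκ : ∀ i, κ (bar i) = κ i)
    (hh : L → ℤ) (hhb : ∀ i, hh (bar i) = - hh i) {m : ℕ} (M : Fin m → H0) (n : Fin m → ℕ) :
    topW κ (Co bar) (legv hh) k33.e
      (fun S => pw (resl κ S (fun a => 2 * (hh a.2 - hh a.1))) M n) =
      512 * ∑ t : Fin 3 → Fin 3 → Bool, (∏ q, ∏ p, sg (t q p)) *
        soTerm κ bar t (fun i => ∏ j, (2 * (hh (i (k33.e (M j))) - hh (i (M j)))) ^ n j) := by
  rw [topW_core]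
  set P : (H0 → L) → ℤ := fun i => if (Finset.univ.image fun h => κ (i h)) = Finset.univ then
    ∏ j, (2 * (hh (i (k33.e (M j))) - hh (i (M j)))) ^ n j else 0 with hP
  have h1 : ∀ i : H0 → L, (if (Finset.univ.image fun h => κ (i h)) = Finset.univ then
        (∏ v, Co bar (i (Sum.inl (v, 0)), i (k33.e (Sum.inl (v, 0))))
          (i (Sum.inl (v, 1)), i (k33.e (Sum.inl (v, 1))))
          (i (Sum.inl (v, 2)), i (k33.e (Sum.inl (v, 2))))) *
        ∏ j, (fun a : L × L => 2 * (hh a.2 - hh a.1)) (i (M j), i (k33.e (M j))) ^ n j else 0) =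
      prodF (Co bar) i * (prodS (Co bar) i * P i) := by
    intro i
    rw [hP]
    by_cases hi : (Finset.univ.image fun h => κ (i h)) = Finset.univ
    · simp only [if_pos hi]
      rw [Fintype.prod_prod_type, Fintype.prod_bool, ← mul_assoc, mul_comm (prodF (Co bar) i)]
      rfl
    · simp only [if_neg hi, mul_zero]
  rw [Finset.sum_congr rfl fun i _ => h1 i]
  rw [sum_flip hb (fun i => prodS (Co bar) i * P i)]
  · congr 1
    unfold soTerm
    simp only [Finset.mul_sum]
    rw [Finset.sum_comm]
    refine Finset.sum_congr rfl fun i _ => ?_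
    rw [prodF_T, prodS_Co, Finset.sum_mul, Finset.mul_sum]
    refine Finset.sum_congr rfl fun t _ => ?_
    rw [hP]
    by_cases c1 : (Finset.univ.image fun h => κ (i h)) = Finset.univ
    · by_cases c2 : conA i
      · by_cases c3 : conB bar t i
        · simp only [if_pos c1, if_pos c2, if_pos c3, if_pos (And.intro c1 (And.intro c2 c3))]
          ring
        · have hn : ¬ ((Finset.univ.image fun h => κ (i h)) = Finset.univ ∧ conA i ∧
            conB bar t i) := fun h => c3 h.2.2
          rw [if_neg c3, if_neg hn]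
          ring
      · have hn : ¬ ((Finset.univ.image fun h => κ (i h)) = Finset.univ ∧ conA i ∧
          conB bar t i) := fun h => c2 h.2.1
        rw [if_neg c2, if_neg hn]
        ring
    · have hn : ¬ ((Finset.univ.image fun h => κ (i h)) = Finset.univ ∧ conA i ∧
        conB bar t i) := fun h => c1 h.1
      simp only [if_neg c1]
      rw [if_neg hn]
      ring
  · intro f i
    show prodS (Co bar) (act bar f i) * P (act bar f i) = _ * (prodS (Co bar) i * P i)
    have e1 : P (act bar f i) = P i := by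
      rw [hP]
      simp only [act_image hb κ hκ f i]
      refine if_congr Iff.rfl ?_ rfl
      refine Finset.prod_congr rfl fun j _ => ?_
      obtain ⟨c, hc⟩ := act_pair (bar := bar) f i (M j)
      have h1 : act bar f i (M j) = (rb bar c (i (M j), i (k33.e (M j)))).1 :=
        congrArg Prod.fst hc
      have h2 : act bar f i (k33.e (M j)) = (rb bar c (i (M j), i (k33.e (M j)))).2 :=
        congrArg Prod.snd hc
      rw [h1, h2]
      cases c
      · rfl
      · show (2 * (hh (bar (i (M j))) - hh (bar (i (k33.e (M j)))))) ^ n j = _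
        rw [hhb, hhb]
        congr 1
        ring
    have e2 : prodS (Co bar) (act bar f i) = (∏ p, ∏ q, sg (f p q)) * prodS (Co bar) i := by
      unfold prodS
      rw [Finset.prod_comm, ← Finset.prod_mul_distrib]
      refine Finset.prod_congr rfl fun q _ => ?_
      rw [pr_act_true, pr_act_true, pr_act_true]
      exact Co_rb hb (fun p => f p q) (fun p => pr i true q p)
    rw [e1, e2]
    ring

theorem goodt_inj : Function.Injective goodt := by
  intro a b
  revert a b
  decide +kernel

/-- The signs of the six choices. -/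
def sgnt : Fin 6 → ℤ
  | 0 => -1
  | 1 => -1
  | 2 => 1
  | 3 => -1
  | 4 => 1
  | 5 => 1

theorem sgnt_eq : ∀ r, (∏ q, ∏ p, sg (goodt r q p)) = sgnt r := by
  decide +kernel

theorem topW_so' (hb : ∀ i, bar (bar i) = i) (κ : L → Fin 4) (hκ : ∀ i, κ (bar i) = κ i)
    (hh : L → ℤ) (hhb : ∀ i, hh (bar i) = - hh i) {m : ℕ} (M : Fin m → H0) (n : Fin m → ℕ) :
    topW κ (Co bar) (legv hh) k33.e
      (fun S => pw (resl κ S (fun a => 2 * (hh a.2 - hh a.1))) M n) =
      512 * ∑ r : Fin 6, sgnt r *
        ∑ j : Fin 4 → L, if (Finset.univ.image fun k => κ (j k)) = Finset.univ then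
          ∏ l, (2 * (hh (bb bar (bet r (k33.e (M l))) (j (cpt r (k33.e (M l))))) -
            hh (bb bar (bet r (M l)) (j (cpt r (M l)))))) ^ n l else 0 := by
  rw [topW_so hb κ hκ hh hhb]
  congr 1
  rw [← Finset.sum_subset (Finset.subset_univ (Finset.univ.image goodt))]
  · rw [Finset.sum_image (fun a _ b _ h => goodt_inj h)]
    refine Finset.sum_congr rfl fun r _ => ?_
    rw [sgnt_eq]
    congr 1
    unfold soTerm
    rw [sum_comps hb κ hκ r]
  · intro t _ ht
    rw [soTerm_eq_zero hb κ hκ t _, mul_zero]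
    rw [mk9_eq t] at ht ⊢
    rcases numMin2_lt (t 0 0) (t 0 1) (t 0 2) (t 1 0) (t 1 1) (t 1 2) (t 2 0) (t 2 1)
      (t 2 2) with h | ⟨r, hr⟩
    · simpa using h
    · exact absurd (Finset.mem_image.2 ⟨r, Finset.mem_univ r, hr⟩) ht

end

end Pool.Agent.Helper5.Vass
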