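import Pool.Agent.Helper5.Vass.Legs

set_option autoImplicit false

/-!
# The structure tensors of the general linear and orthogonal Lie algebras
-/

namespace Pool.Agent.Helper5.Vass

open Equiv Finset

section
variable {L K : Type} [Fintype L] [DecidableEq L] [DecidableEq K]

/-- The trace of the product of three matrix units. -/
def T (x y z : L × L) : ℤ := if x.2 = y.1 ∧ y.2 = z.1 ∧ z.2 = x.1 then 1 else 0

/-- The trace of the product of four matrix units. -/
def Q (x y z w : L × L) : ℤ := if x.2 = y.1 ∧ y.2 = z.1 ∧ z.2 = w.1 ∧ w.2 = x.1 then 1 else 0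

theorem T_cyc (x y z : L × L) : T x y z = T y z x := by
  unfold T
  refine if_congr ?_ rfl rfl
  tauto

theorem Q_cyc (x y z w : L × L) : Q x y z w = Q y z w x := by
  unfold Q
  refine if_congr ?_ rfl rfl
  tauto

theorem T_glue (a b c d : L × L) : ∑ z : L × L, T a b z * T z.swap c d = Q a b c d := by
  rw [Finset.sum_eq_single (b.2, a.1)]
  · unfold T Q
    by_cases h1 : a.2 = b.1
    · by_cases h2 : b.2 = c.1
      · by_cases h3 : c.2 = d.1
        · by_cases h4 : d.2 = a.1
          · simp [h1, h2, h3, h4]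
          · simp [h1, h2, h3, h4]
        · simp [h1, h2, h3]
      · simp [h1, h2]
    · simp [h1]
  · intro z _ hz
    unfold T
    have : ¬ (a.2 = b.1 ∧ b.2 = z.1 ∧ z.2 = a.1) := by
      rintro ⟨_, h2, h3⟩
      exact hz (Prod.ext h2.symm h3)
    rw [if_neg this, zero_mul]
  · simp

/-- The structure tensor of the general linear Lie algebra. -/
def Cg (x y z : L × L) : ℤ := T x y z - T y x z

theorem Cg_sum (a b c d : L × L) : ∑ z : L × L, Cg z a b * Cg z.swap c d =
    Q a b c d - Q a b d c - Q b a c d + Q b a d c := by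
  simp only [← T_glue]
  rw [← Finset.sum_sub_distrib, ← Finset.sum_sub_distrib, ← Finset.sum_add_distrib]
  refine Finset.sum_congr rfl fun z _ => ?_
  unfold Cg
  rw [T_cyc z a b, T_cyc a z b, T_cyc z b a, T_cyc c z.swap d]
  ring

theorem isLie_Cg : IsLie (Cg : L × L → L × L → L × L → ℤ) Prod.swap where
  invol x := Prod.swap_swap x
  cyc x y z := by
    unfold Cg
    rw [T_cyc x y z, T_cyc y x z, T_cyc x z y]
  anti x y z := by
    unfold Cg
    ring
  jacobi a b c d := by
    rw [Finset.sum_add_distrib, Finset.sum_add_distrib, Cg_sum, Cg_sum, Cg_sum]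
    rw [Q_cyc a b c d, Q_cyc a b d c, Q_cyc b d c a, Q_cyc d c a b, Q_cyc b a c d,
      Q_cyc b a d c, Q_cyc a d c b, Q_cyc d c b a, Q_cyc b c a d, Q_cyc c b d a, Q_cyc b d a c,
      Q_cyc d a c b]
    ring

/-- The vector placed on the legs. -/
def legv (hh : L → ℤ) (x : L × L) : ℤ := if x.1 = x.2 then hh x.1 else 0

theorem T_leg (hh : L → ℤ) (a b : L × L) :
    ∑ z : L × L, T a b z * legv hh z.swap = if a.2 = b.1 ∧ b.2 = a.1 then hh a.1 else 0 := by
  rw [Finset.sum_eq_single (a.1, a.1)]
  · unfold T legv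
    by_cases h1 : a.2 = b.1
    · by_cases h2 : b.2 = a.1
      · simp [h1, h2]
      · simp [h1, h2]
    · simp [h1]
  · intro z _ hz
    unfold T legv
    by_cases h : a.2 = b.1 ∧ b.2 = z.1 ∧ z.2 = a.1
    · have h4 : z.swap.1 ≠ z.swap.2 := by
        intro h5
        apply hz
        have h6 : z.2 = z.1 := h5
        exact Prod.ext (by rw [← h6, h.2.2]) h.2.2
      rw [if_neg h4, mul_zero]
    · rw [if_neg h, zero_mul]
  · simp

theorem Cg_leg (hh : L → ℤ) (a b : L × L) :
    ∑ z : L × L, Cg a.swap b z * legv hh z.swap = if a = b then hh a.2 - hh a.1 else 0 := by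
  unfold Cg
  simp only [sub_mul]
  rw [Finset.sum_sub_distrib, T_leg, T_leg]
  by_cases hab : a = b
  · subst hab
    simp
  · rw [if_neg hab, if_neg, if_neg, sub_zero]
    · rintro ⟨h1, h2⟩
      exact hab (Prod.ext h2 h1.symm)
    · rintro ⟨h1, h2⟩
      exact hab (Prod.ext h1 h2.symm)

/-- The transformation of matrix units under the anti-involution, up to sign. -/
def rho (bar : L → L) (x : L × L) : L × L := (bar x.2, bar x.1)

/-- The structure tensor of the orthogonal Lie algebra. -/
def Co (bar : L → L) (x y z : L × L) : ℤ :=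
  T x y z - T (rho bar x) y z - T x (rho bar y) z - T x y (rho bar z) +
    T (rho bar x) (rho bar y) z + T (rho bar x) y (rho bar z) + T x (rho bar y) (rho bar z) -
    T (rho bar x) (rho bar y) (rho bar z)

variable {bar : L → L}

theorem rho_rho (hb : ∀ i, bar (bar i) = i) (x : L × L) : rho bar (rho bar x) = x := by
  unfold rho
  simp [hb]

theorem T_rev (hb : ∀ i, bar (bar i) = i) (x y z : L × L) :
    T (rho bar x) (rho bar y) (rho bar z) = T y x z := by
  have hinj : ∀ i j, bar i = bar j ↔ i = j := fun i j => by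
    constructor
    · intro h
      rw [← hb i, h, hb]
    · rintro rfl
      rfl
  unfold T rho
  simp only [hinj]
  refine if_congr ?_ rfl rfl
  constructor
  · rintro ⟨h1, h2, h3⟩
    exact ⟨h1.symm, h3.symm, h2.symm⟩
  · rintro ⟨h1, h2, h3⟩
    exact ⟨h1.symm, h3.symm, h2.symm⟩

theorem T_rev' (hb : ∀ i, bar (bar i) = i) (x y z : L × L) :
    T (rho bar x) y z = T (rho bar y) x (rho bar z) := by
  have := T_rev hb x (rho bar y) (rho bar z)
  rw [rho_rho hb, rho_rho hb] at this
  exact this

theorem Co_odd (hb : ∀ i, bar (bar i) = i) (x y z : L × L) :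
    Co bar (rho bar x) y z = - Co bar x y z := by
  unfold Co
  rw [rho_rho hb]
  ring

theorem Co_cyc (x y z : L × L) : Co bar x y z = Co bar y z x := by
  unfold Co
  rw [T_cyc x y z, T_cyc (rho bar x) y z, T_cyc x (rho bar y) z, T_cyc x y (rho bar z),
    T_cyc (rho bar x) (rho bar y) z, T_cyc (rho bar x) y (rho bar z),
    T_cyc x (rho bar y) (rho bar z), T_cyc (rho bar x) (rho bar y) (rho bar z)]
  ring

theorem Co_anti (hb : ∀ i, bar (bar i) = i) (x y z : L × L) :
    Co bar y x z = - Co bar x y z := by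
  unfold Co
  have h1 := T_rev hb x y z
  have h2 := T_rev hb (rho bar x) y z
  have h3 := T_rev hb x (rho bar y) z
  have h4 := T_rev hb x y (rho bar z)
  have h5 := T_rev hb (rho bar x) (rho bar y) z
  have h6 := T_rev hb (rho bar x) y (rho bar z)
  have h7 := T_rev hb x (rho bar y) (rho bar z)
  have h8 := T_rev hb (rho bar x) (rho bar y) (rho bar z)
  simp only [rho_rho hb] at h2 h3 h4 h5 h6 h7 h8
  rw [← h1, ← h2, ← h3, ← h4, ← h5, ← h6, ← h7, ← h8]
  ring

/-- The four-fold signed sum. -/
def P4 (bar : L → L) (f : L × L → L × L → ℤ) (x y : L × L) : ℤ :=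
  f x y - f (rho bar x) y - f x (rho bar y) + f (rho bar x) (rho bar y)

theorem Co_eq (z a b : L × L) :
    Co bar z a b = P4 bar (fun a b => T z a b) a b - P4 bar (fun a b => T (rho bar z) a b) a b := by
  unfold Co P4
  ring

theorem Co_sum_half (hb : ∀ i, bar (bar i) = i) (f g : L × L → ℤ) :
    ∑ z : L × L, (f z - f (rho bar z)) * (g z - g (rho bar z)) =
      2 * ∑ z : L × L, f z * g z - 2 * ∑ z : L × L, f z * g (rho bar z) := by
  have hinv : Function.Involutive (rho bar) := rho_rho hb
  have e1 : ∑ z : L × L, f (rho bar z) * g (rho bar z) = ∑ z : L × L, f z * g z :=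
    Equiv.sum_comp hinv.toPerm (fun z => f z * g z)
  have e2 : ∑ z : L × L, f (rho bar z) * g z = ∑ z : L × L, f z * g (rho bar z) := by
    rw [← Equiv.sum_comp hinv.toPerm (fun z => f z * g (rho bar z))]
    refine Finset.sum_congr rfl fun z _ => ?_
    show f (rho bar z) * g z = f (rho bar z) * g (rho bar (rho bar z))
    rw [rho_rho hb]
  have : ∀ z, (f z - f (rho bar z)) * (g z - g (rho bar z)) =
      f z * g z - f z * g (rho bar z) - f (rho bar z) * g z + f (rho bar z) * g (rho bar z) :=
    fun z => by ring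
  simp only [this]
  rw [Finset.sum_add_distrib, Finset.sum_sub_distrib, Finset.sum_sub_distrib, e1, e2]
  ring

/-- The sixteen-fold signed sum of `Q`. -/
def Q16 (bar : L → L) (a b c d : L × L) : ℤ :=
  P4 bar (fun a b => P4 bar (fun c d => Q a b c d) c d) a b

theorem P4_sum (a b c d : L × L) :
    ∑ z : L × L, P4 bar (fun a b => T z a b) a b * P4 bar (fun c d => T z.swap c d) c d =
      Q16 bar a b c d := by
  unfold Q16 P4
  simp only [← T_glue]
  simp only [← Finset.sum_sub_distrib, ← Finset.sum_add_distrib]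
  refine Finset.sum_congr rfl fun z _ => ?_
  simp only [T_cyc z]
  ring

theorem Co_sum (hb : ∀ i, bar (bar i) = i) (a b c d : L × L) :
    ∑ z : L × L, Co bar z a b * Co bar z.swap c d =
      2 * Q16 bar a b c d - 2 * Q16 bar a b d c := by
  have hs : ∀ z : L × L, rho bar z.swap = (rho bar z).swap := fun z => rfl
  have h1 : ∀ z : L × L, Co bar z a b * Co bar z.swap c d =
      (P4 bar (fun a b => T z a b) a b - P4 bar (fun a b => T (rho bar z) a b) a b) *
      (P4 bar (fun c d => T z.swap c d) c d - P4 bar (fun c d => T (rho bar z).swap c d) c d) := by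
    intro z
    rw [Co_eq z a b, Co_eq z.swap c d, hs]
  simp only [h1]
  rw [Co_sum_half hb (fun z => P4 bar (fun a b => T z a b) a b)
    (fun z => P4 bar (fun c d => T z.swap c d) c d)]
  rw [P4_sum, ← P4_sum a b d c]
  congr 2
  refine Finset.sum_congr rfl fun z _ => ?_
  congr 1
  have h2 : ∀ c d : L × L, T (rho bar z).swap c d = T z.swap (rho bar d) (rho bar c) := by
    intro c d
    rw [← hs, T_rev' hb, T_cyc]
  simp only [P4, h2, rho_rho hb]
  ring

theorem Q16_cyc (a b c d : L × L) : Q16 bar a b c d = Q16 bar b c d a := by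
  unfold Q16 P4
  simp only [Q_cyc a, Q_cyc (rho bar a)]
  ring

theorem isLie_Co (hb : ∀ i, bar (bar i) = i) :
    IsLie (Co bar : L × L → L × L → L × L → ℤ) Prod.swap where
  invol x := Prod.swap_swap x
  cyc x y z := Co_cyc x y z
  anti x y z := Co_anti hb x y z
  jacobi a b c d := by
    rw [Finset.sum_add_distrib, Finset.sum_add_distrib, Co_sum hb, Co_sum hb, Co_sum hb]
    rw [Q16_cyc a b c d, Q16_cyc a b d c, Q16_cyc b d c a, Q16_cyc d c a b, Q16_cyc b c a d,
      Q16_cyc c a d b, Q16_cyc a d b c, Q16_cyc d b c a]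
    ring

theorem rho_swap (x : L × L) : (rho bar x).swap = rho bar x.swap := rfl

theorem legv_rho {hh : L → ℤ} (hb : ∀ i, bar (bar i) = i) (hhb : ∀ i, hh (bar i) = - hh i)
    (x : L × L) : legv hh (rho bar x) = - legv hh x := by
  have hinj : ∀ i j, bar i = bar j ↔ i = j := fun i j => by
    constructor
    · intro h
      rw [← hb i, h, hb]
    · rintro rfl
      rfl
  unfold legv rho
  simp only [hinj]
  by_cases h : x.1 = x.2
  · rw [if_pos h, if_pos h.symm, hhb, h]
  · rw [if_neg h, if_neg (fun h' => h h'.symm), neg_zero]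

theorem T_leg_rho {hh : L → ℤ} (hb : ∀ i, bar (bar i) = i) (hhb : ∀ i, hh (bar i) = - hh i)
    (a b : L × L) : ∑ z : L × L, T a b (rho bar z) * legv hh z.swap =
      - (if a.2 = b.1 ∧ b.2 = a.1 then hh a.1 else 0) := by
  have hinv : Function.Involutive (rho bar) := rho_rho hb
  rw [← T_leg, ← Finset.sum_neg_distrib, ← Equiv.sum_comp hinv.toPerm]
  refine Finset.sum_congr rfl fun z _ => ?_
  show T a b (rho bar (rho bar z)) * legv hh (rho bar z).swap = _
  rw [rho_rho hb, rho_swap, legv_rho hb hhb]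
  ring

theorem Co_leg {hh : L → ℤ} (hb : ∀ i, bar (bar i) = i) (hhb : ∀ i, hh (bar i) = - hh i)
    (a b : L × L) :
    ∑ z : L × L, Co bar a.swap b z * legv hh z.swap =
      (if a = b then 2 * (hh a.2 - hh a.1) else 0) -
        (if a = rho bar b then 2 * (hh a.2 - hh a.1) else 0) := by
  have h1 : ∀ z : L × L, Co bar a.swap b z * legv hh z.swap =
      T a.swap b z * legv hh z.swap - T (rho bar a.swap) b z * legv hh z.swap -
      T a.swap (rho bar b) z * legv hh z.swap - T a.swap b (rho bar z) * legv hh z.swap +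
      T (rho bar a.swap) (rho bar b) z * legv hh z.swap +
      T (rho bar a.swap) b (rho bar z) * legv hh z.swap +
      T a.swap (rho bar b) (rho bar z) * legv hh z.swap -
      T (rho bar a.swap) (rho bar b) (rho bar z) * legv hh z.swap := by
    intro z
    unfold Co
    ring
  simp only [h1]
  rw [Finset.sum_sub_distrib, Finset.sum_add_distrib, Finset.sum_add_distrib,
    Finset.sum_add_distrib, Finset.sum_sub_distrib, Finset.sum_sub_distrib,
    Finset.sum_sub_distrib, T_leg, T_leg, T_leg, T_leg, T_leg_rho hb hhb, T_leg_rho hb hhb,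
    T_leg_rho hb hhb, T_leg_rho hb hhb]
  have hinj : ∀ i j, bar i = bar j ↔ i = j := fun i j => by
    constructor
    · intro h
      rw [← hb i, h, hb]
    · rintro rfl
      rfl
  have c1 : (a.swap.2 = b.1 ∧ b.2 = a.swap.1) ↔ a = b := by
    constructor
    · rintro ⟨h1, h2⟩
      exact Prod.ext h1 h2.symm
    · rintro rfl
      exact ⟨rfl, rfl⟩
  have c2 : ((rho bar a.swap).2 = b.1 ∧ b.2 = (rho bar a.swap).1) ↔ a = rho bar b := by
    constructor
    · rintro ⟨h1, h2⟩
      refine Prod.ext ?_ ?_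
      · show a.1 = bar b.2
        rw [h2]
        exact (hb _).symm
      · show a.2 = bar b.1
        rw [← h1]
        exact (hb _).symm
    · rintro rfl
      exact ⟨hb _, (hb _).symm⟩
  have c3 : (a.swap.2 = (rho bar b).1 ∧ (rho bar b).2 = a.swap.1) ↔ a = rho bar b := by
    constructor
    · rintro ⟨h1, h2⟩
      exact Prod.ext h1 h2.symm
    · rintro rfl
      exact ⟨rfl, rfl⟩
  have c4 : ((rho bar a.swap).2 = (rho bar b).1 ∧ (rho bar b).2 = (rho bar a.swap).1) ↔
      a = b := by
    constructor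
    · rintro ⟨h1, h2⟩
      exact Prod.ext ((hinj _ _).1 h2).symm ((hinj _ _).1 h1)
    · rintro rfl
      exact ⟨rfl, rfl⟩
  simp only [c1, c2, c3, c4]
  have v1 : hh a.swap.1 = hh a.2 := rfl
  have v2 : hh (rho bar a.swap).1 = - hh a.1 := hhb _
  rw [v1, v2]
  split_ifs <;> ring

/-! ### Restriction to a set of labels -/

variable (κ : L → K) (S : Finset K)

/-- Both components of the label have type in `S`. -/
def inS (x : L × L) : Prop := κ x.1 ∈ S ∧ κ x.2 ∈ S

instance : DecidablePred (inS κ S) := fun x => by unfold inS; infer_instance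

theorem inS_swap (x : L × L) : inS κ S x.swap ↔ inS κ S x := by
  unfold inS
  exact And.comm

theorem inS_rho (hκ : ∀ i, κ (bar i) = κ i) (x : L × L) : inS κ S (rho bar x) ↔ inS κ S x := by
  unfold inS rho
  simp only [hκ]
  exact And.comm

/-- The restriction of a tensor to the labels with type in `S`. -/
def resC (C : L × L → L × L → L × L → ℤ) (x y z : L × L) : ℤ :=
  if inS κ S x ∧ inS κ S y ∧ inS κ S z then C x y z else 0

/-- The restriction of a weight to the labels with type in `S`. -/
def resl (lam : L × L → ℤ) (x : L × L) : ℤ := if inS κ S x then lam x else 0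

/-- A tensor is local if the labels of each argument occur in the two other ones. -/
def IsLocal (C : L × L → L × L → L × L → ℤ) : Prop :=
  ∀ x y z, C x y z ≠ 0 → inS κ S y → inS κ S z → inS κ S x

variable {κ S} {C : L × L → L × L → L × L → ℤ}

theorem resC_mul (hloc : IsLocal κ S C) (z a b c d : L × L) :
    resC κ S C z a b * resC κ S C z.swap c d =
      if inS κ S a ∧ inS κ S b ∧ inS κ S c ∧ inS κ S d then C z a b * C z.swap c d else 0 := by
  unfold resC
  by_cases ho : inS κ S a ∧ inS κ S b ∧ inS κ S c ∧ inS κ S d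
  · obtain ⟨h1, h2, h3, h4⟩ := ho
    by_cases hz : inS κ S z
    · have hz' := (inS_swap κ S z).2 hz
      simp only [h1, h2, h3, h4, hz, hz', and_self, if_true]
    · have h5 : C z a b = 0 := by
        by_contra hne
        exact hz (hloc z a b hne h1 h2)
      simp only [h1, h2, h3, h4, hz, h5, and_self, if_true, false_and, if_false, zero_mul]
  · rw [if_neg ho]
    by_cases h1 : inS κ S z ∧ inS κ S a ∧ inS κ S b
    · by_cases h2 : inS κ S z.swap ∧ inS κ S c ∧ inS κ S d
      · exact absurd ⟨h1.2.1, h1.2.2, h2.2.1, h2.2.2⟩ ho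
      · rw [if_neg h2, mul_zero]
    · rw [if_neg h1, zero_mul]

theorem isLie_res (hL : IsLie C Prod.swap) (hloc : IsLocal κ S C) :
    IsLie (resC κ S C) Prod.swap where
  invol := hL.invol
  cyc x y z := by
    unfold resC
    rw [hL.cyc x y z]
    refine if_congr ?_ rfl rfl
    tauto
  anti x y z := by
    unfold resC
    rw [hL.anti x y z]
    by_cases h : inS κ S x ∧ inS κ S y ∧ inS κ S z
    · rw [if_pos h, if_pos ⟨h.2.1, h.1, h.2.2⟩]
    · rw [if_neg h, if_neg (fun h' => h ⟨h'.2.1, h'.1, h'.2.2⟩), neg_zero]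
  jacobi a b c d := by
    simp only [resC_mul hloc]
    by_cases ho : inS κ S a ∧ inS κ S b ∧ inS κ S c ∧ inS κ S d
    · have h1 : inS κ S b ∧ inS κ S c ∧ inS κ S a ∧ inS κ S d := by tauto
      have h2 : inS κ S c ∧ inS κ S a ∧ inS κ S b ∧ inS κ S d := by tauto
      simp only [if_pos ho, if_pos h1, if_pos h2]
      exact hL.jacobi a b c d
    · have h1 : ¬ (inS κ S b ∧ inS κ S c ∧ inS κ S a ∧ inS κ S d) := by tauto
      have h2 : ¬ (inS κ S c ∧ inS κ S a ∧ inS κ S b ∧ inS κ S d) := by tauto
      simp only [if_neg ho, if_neg h1, if_neg h2, add_zero, Finset.sum_const_zero]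

theorem isOdd_res {l : L × L → ℤ} (hκ : ∀ i, κ (bar i) = κ i)
    (hρ : IsOdd C Prod.swap (rho bar) l) : IsOdd (resC κ S C) Prod.swap (rho bar) l where
  invol := hρ.invol
  comm := hρ.comm
  odd x y z := by
    unfold resC
    rw [hρ.odd x y z]
    simp only [inS_rho κ S hκ]
    split_ifs <;> simp
  oddl := hρ.oddl

theorem res_leg (hL : IsLie C Prod.swap) (hloc : IsLocal κ S C) (l : L × L → ℤ)
    (a b : L × L) : ∑ z : L × L, resC κ S C a.swap b z * l z.swap =
      if inS κ S a ∧ inS κ S b then ∑ z : L × L, C a.swap b z * l z.swap else 0 := by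
  by_cases h : inS κ S a ∧ inS κ S b
  · rw [if_pos h]
    refine Finset.sum_congr rfl fun z _ => ?_
    unfold resC
    have ha := (inS_swap κ S a).2 h.1
    by_cases hz : inS κ S z
    · rw [if_pos ⟨ha, h.2, hz⟩]
    · rw [if_neg (fun hh => hz hh.2.2)]
      have : C a.swap b z = 0 := by
        by_contra hne
        rw [hL.cyc, hL.cyc] at hne
        exact hz (hloc z a.swap b hne ha h.2)
      rw [this]
  · rw [if_neg h]
    refine Finset.sum_eq_zero fun z _ => ?_
    unfold resC
    rw [if_neg, zero_mul]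
    rintro ⟨h1, h2, _⟩
    exact h ⟨(inS_swap κ S a).1 h1, h2⟩

theorem T_local (x y z : L × L) (h : T x y z ≠ 0) (hy : inS κ S y) (hz : inS κ S z) :
    inS κ S x := by
  unfold T at h
  by_cases hc : x.2 = y.1 ∧ y.2 = z.1 ∧ z.2 = x.1
  · exact ⟨by rw [← hc.2.2]; exact hz.2, by rw [hc.1]; exact hy.1⟩
  · rw [if_neg hc] at h
    exact absurd rfl h

theorem Cg_local : IsLocal κ S (Cg : L × L → L × L → L × L → ℤ) := by
  intro x y z h hy hz
  unfold Cg at h
  by_cases h1 : T x y z = 0
  · have h2 : T y x z ≠ 0 := by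
      intro h3
      rw [h1, h3] at h
      exact h rfl
    rw [T_cyc] at h2
    exact T_local x z y h2 hz hy
  · exact T_local x y z h1 hy hz

theorem Co_local (hκ : ∀ i, κ (bar i) = κ i) : IsLocal κ S (Co bar) := by
  intro x y z h hy hz
  by_contra hx
  have key : ∀ x' y' z' : L × L, (inS κ S x' ↔ inS κ S x) → (inS κ S y' ↔ inS κ S y) →
      (inS κ S z' ↔ inS κ S z) → T x' y' z' = 0 := by
    intro x' y' z' hx' hy' hz'
    by_contra hne
    exact hx (hx'.1 (T_local x' y' z' hne (hy'.2 hy) (hz'.2 hz)))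
  apply h
  unfold Co
  have r := fun w => inS_rho (bar := bar) κ S hκ w
  rw [key x y z Iff.rfl Iff.rfl Iff.rfl, key _ y z (r x) Iff.rfl Iff.rfl,
    key x _ z Iff.rfl (r y) Iff.rfl, key x y _ Iff.rfl Iff.rfl (r z),
    key _ _ z (r x) (r y) Iff.rfl, key _ y _ (r x) Iff.rfl (r z), key x _ _ Iff.rfl (r y) (r z),
    key _ _ _ (r x) (r y) (r z)]
  ring

/-- The weights of the legs for the general linear tensor. -/
theorem Cg_res_leg (hh : L → ℤ) (a b : L × L) :
    ∑ z : L × L, resC κ S Cg a.swap b z * legv hh z.swap =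
      if a = b then resl κ S (fun a => hh a.2 - hh a.1) a else 0 := by
  rw [res_leg isLie_Cg Cg_local, Cg_leg]
  unfold resl
  by_cases hab : a = b
  · subst hab
    simp
  · simp [hab]

theorem Co_res_leg {hh : L → ℤ} (hb : ∀ i, bar (bar i) = i) (hκ : ∀ i, κ (bar i) = κ i)
    (hhb : ∀ i, hh (bar i) = - hh i) (a b : L × L) :
    ∑ z : L × L, resC κ S (Co bar) a.swap b z * legv hh z.swap =
      (if a = b then resl κ S (fun a => 2 * (hh a.2 - hh a.1)) a else 0) -
        (if a = rho bar b then resl κ S (fun a => 2 * (hh a.2 - hh a.1)) a else 0) := by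
  rw [res_leg (isLie_Co hb) (Co_local hκ), Co_leg hb hhb]
  unfold resl
  by_cases ha : inS κ S a
  · by_cases hb' : inS κ S b
    · simp [ha, hb']
    · have h1 : a ≠ b := by
        rintro rfl
        exact hb' ha
      have h2 : a ≠ rho bar b := by
        rintro rfl
        exact hb' ((inS_rho κ S hκ b).1 ha)
      simp [ha, hb', h1, h2]
  · simp [ha]

end

end Pool.Agent.Helper5.Vass
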