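import Pool.Agent.Helper5.Vass.Defs

set_option autoImplicit false

/-!
# Weight systems from structure tensors
-/

namespace Pool.Agent.Helper5.Vass

open Equiv Finset

section
variable {V U I : Type} [Fintype V] [DecidableEq V] [Fintype U] [DecidableEq U] [Fintype I]
  [DecidableEq I]

/-- The product of the vertex weights of a labelling of the half-edges. -/
def Fprod (C : I → I → I → ℤ) (l : I → ℤ) (x : HalfEdge V U → I) : ℤ :=
  (∏ v, C (x (Sum.inl (v, 0))) (x (Sum.inl (v, 1))) (x (Sum.inl (v, 2)))) * ∏ u, l (x (Sum.inr u))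

/-- The weight of a graph, with an extra weight `w`. -/
def W (C : I → I → I → ℤ) (τ : I → I) (l : I → ℤ) (e : HalfEdge V U → HalfEdge V U)
    (w : (HalfEdge V U → I) → ℤ) : ℤ :=
  ∑ x : HalfEdge V U → I, if ∀ h, x (e h) = τ (x h) then Fprod C l x * w x else 0

/-- Structure tensors satisfying the antisymmetry and Jacobi identities. -/
structure IsLie (C : I → I → I → ℤ) (τ : I → I) : Prop where
  invol : ∀ x, τ (τ x) = x
  cyc : ∀ x y z, C x y z = C y z x
  anti : ∀ x y z, C y x z = - C x y z
  jacobi : ∀ a b c d, ∑ z, (C z a b * C (τ z) c d + C z b c * C (τ z) a d +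
    C z c a * C (τ z) b d) = 0

variable {C : I → I → I → ℤ} {τ : I → I} {l : I → ℤ}

theorem W_map (G : UTGraph V U) (π : Perm (HalfEdge V U)) :
    W C τ l (G.map π).e (fun _ => 1) =
      ∑ x : HalfEdge V U → I, if ∀ h, x (G.e h) = τ (x h) then Fprod C l (x ∘ π.symm) else 0 := by
  unfold W
  symm
  refine Fintype.sum_equiv (Equiv.arrowCongr π (Equiv.refl I)) _ _ ?_
  intro x
  have hiff : (∀ h, x (G.e h) = τ (x h)) ↔
      ∀ h, (Equiv.arrowCongr π (Equiv.refl I)) x ((G.map π).e h) =
        τ ((Equiv.arrowCongr π (Equiv.refl I)) x h) := by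
    constructor
    · intro hx h
      simpa [UTGraph.map, Equiv.arrowCongr] using hx (π.symm h)
    · intro hx h
      simpa [UTGraph.map, Equiv.arrowCongr] using hx (π h)
  by_cases hc : ∀ h, x (G.e h) = τ (x h)
  · rw [if_pos hc, if_pos (hiff.1 hc)]
    simp [Equiv.arrowCongr, Function.comp_def]
  · rw [if_neg hc, if_neg (fun h => hc (hiff.2 h))]

theorem Fprod_iso (hcyc : ∀ x y z, C x y z = C y z x) (π : Perm (HalfEdge V U))
    (hπ : IsOrientedIso π) (x : HalfEdge V U → I) : Fprod C l (x ∘ π.symm) = Fprod C l x := by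
  obtain ⟨α, r, β, h1, h2⟩ := hπ
  have h1' : ∀ v i, π.symm (Sum.inl (α v, i + r v)) = Sum.inl (v, i) := by
    intro v i; rw [← h1, Equiv.symm_apply_apply]
  have h2' : ∀ u, π.symm (Sum.inr (β u)) = Sum.inr u := by
    intro u; rw [← h2, Equiv.symm_apply_apply]
  unfold Fprod
  congr 1
  · rw [← Equiv.prod_comp α]
    refine Finset.prod_congr rfl fun v _ => ?_
    have key : ∀ i, π.symm (Sum.inl (α v, i)) = Sum.inl (v, i - r v) := by
      intro i
      have := h1' v (i - r v)
      rwa [sub_add_cancel] at this
    simp only [Function.comp_apply, key]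
    generalize r v = s
    have h3 : s = 0 ∨ s = 1 ∨ s = 2 := by revert s; decide
    rcases h3 with rfl | rfl | rfl
    · rfl
    · rw [show (0 : Fin 3) - 1 = 2 from rfl, show (1 : Fin 3) - 1 = 0 from rfl,
        show (2 : Fin 3) - 1 = 1 from rfl, hcyc]
    · rw [show (0 : Fin 3) - 2 = 1 from rfl, show (1 : Fin 3) - 2 = 2 from rfl,
        show (2 : Fin 3) - 2 = 0 from rfl, ← hcyc]
  · rw [← Equiv.prod_comp β]
    refine Finset.prod_congr rfl fun u _ => ?_
    simp only [Function.comp_apply, h2']

theorem W_iso (hL : IsLie C τ) (G : UTGraph V U) (π : Perm (HalfEdge V U))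
    (hπ : IsOrientedIso π) :
    W C τ l (G.map π).e (fun _ => 1) = W C τ l G.e (fun _ => 1) := by
  rw [W_map]
  unfold W
  refine Finset.sum_congr rfl fun x _ => ?_
  rw [Fprod_iso hL.cyc π hπ, mul_one]

theorem W_as (hL : IsLie C τ) (G : UTGraph V U) (v : V) :
    W C τ l G.e (fun _ => 1) + W C τ l (G.map (flipAt v)).e (fun _ => 1) = 0 := by
  rw [W_map]
  unfold W
  rw [← Finset.sum_add_distrib]
  refine Finset.sum_eq_zero fun x _ => ?_
  have hF : Fprod C l (x ∘ (flipAt (U := U) v).symm) = - Fprod C l x := by
    unfold Fprod flipAt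
    rw [← neg_mul]
    congr 1
    · rw [← Finset.mul_prod_erase univ _ (Finset.mem_univ v),
        ← Finset.mul_prod_erase univ (fun v => C (x (Sum.inl (v, 0))) _ _) (Finset.mem_univ v),
        ← neg_mul]
      congr 1
      · simp only [Function.comp_apply, Equiv.symm_swap, Equiv.swap_apply_left,
          Equiv.swap_apply_right]
        rw [Equiv.swap_apply_of_ne_of_ne (by simp) (by simp)]
        rw [hL.cyc, hL.anti, ← hL.cyc]
      · refine Finset.prod_congr rfl fun v' hv' => ?_
        have hne : v' ≠ v := Finset.ne_of_mem_erase hv'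
        simp only [Function.comp_apply, Equiv.symm_swap]
        rw [Equiv.swap_apply_of_ne_of_ne (by simp [hne]) (by simp [hne]),
          Equiv.swap_apply_of_ne_of_ne (by simp [hne]) (by simp [hne]),
          Equiv.swap_apply_of_ne_of_ne (by simp [hne]) (by simp [hne])]
  rw [hF]
  split_ifs <;> ring

/-- Replacing the labels of the two halves of an edge. -/
def upd (τ : I → I) (p q : HalfEdge V U) (x : HalfEdge V U → I) (z : I) : HalfEdge V U → I :=
  Function.update (Function.update x p z) q (τ z)

theorem upd_fix {G : UTGraph V U} {p q : HalfEdge V U} (hpq : G.e p = q) (hτ : ∀ x, τ (τ x) = x)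
    {x : HalfEdge V U → I} (hx : ∀ h, x (G.e h) = τ (x h)) (z : I) :
    ∀ h, upd τ p q x z (G.e h) = τ (upd τ p q x z h) := by
  have hne : p ≠ q := by rw [← hpq]; exact (G.fpf p).symm
  have hqp : G.e q = p := by rw [← hpq, G.invol]
  intro h
  unfold upd
  by_cases h1 : h = p
  · subst h1
    rw [hpq, Function.update_self, Function.update_of_ne hne, Function.update_self]
  · by_cases h2 : h = q
    · subst h2
      rw [hqp, Function.update_of_ne hne, Function.update_self, Function.update_self, hτ]
    · have h3 : G.e h ≠ p := fun hh => h2 (by rw [← hpq, ← hh, G.invol])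
      have h4 : G.e h ≠ q := fun hh => h1 (by rw [← hqp, ← hh, G.invol])
      rw [Function.update_of_ne h4, Function.update_of_ne h3, Function.update_of_ne h2,
        Function.update_of_ne h1, hx]

theorem sum_upd {G : UTGraph V U} {p q : HalfEdge V U} (hpq : G.e p = q) (hτ : ∀ x, τ (τ x) = x)
    (g : (HalfEdge V U → I) → ℤ) :
    ∑ x : HalfEdge V U → I, (if ∀ h, x (G.e h) = τ (x h) then ∑ z, g (upd τ p q x z) else 0) =
      Fintype.card I * ∑ x : HalfEdge V U → I, (if ∀ h, x (G.e h) = τ (x h) then g x else 0) := by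
  have hne : p ≠ q := by rw [← hpq]; exact (G.fpf p).symm
  rw [← Finset.sum_filter, ← Finset.sum_filter, ← Finset.sum_product']
  have : (Fintype.card I : ℤ) * ∑ x ∈ univ.filter (fun x : HalfEdge V U → I =>
      ∀ h, x (G.e h) = τ (x h)), g x = ∑ y ∈ (univ.filter (fun x : HalfEdge V U → I =>
      ∀ h, x (G.e h) = τ (x h))) ×ˢ (univ : Finset I), g y.1 := by
    rw [Finset.sum_product]
    simp [Finset.mul_sum, Finset.card_univ]
  rw [this]
  refine Finset.sum_nbij' (fun y => (upd τ p q y.1 y.2, y.1 p)) (fun y => (upd τ p q y.1 y.2, y.1 p))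
    ?_ ?_ ?_ ?_ ?_
  · intro y hy
    simp only [Finset.mem_product, Finset.mem_filter, Finset.mem_univ, true_and, and_true] at hy ⊢
    exact upd_fix hpq hτ hy y.2
  · intro y hy
    simp only [Finset.mem_product, Finset.mem_filter, Finset.mem_univ, true_and, and_true] at hy ⊢
    exact upd_fix hpq hτ hy y.2
  · intro y hy
    simp only [Finset.mem_product, Finset.mem_filter, Finset.mem_univ, true_and, and_true] at hy
    ext h
    · unfold upd
      by_cases h2 : h = q
      · subst h2
        simp only [Function.update_self]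
        rw [← hpq, hy]
      · by_cases h1 : h = p
        · subst h1
          simp [Function.update_of_ne h2]
        · simp [Function.update_of_ne h2, Function.update_of_ne h1]
    · unfold upd
      simp [Function.update_of_ne hne]
  · intro y hy
    simp only [Finset.mem_product, Finset.mem_filter, Finset.mem_univ, true_and, and_true] at hy
    ext h
    · unfold upd
      by_cases h2 : h = q
      · subst h2
        simp only [Function.update_self]
        rw [← hpq, hy]
      · by_cases h1 : h = p
        · subst h1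
          simp [Function.update_of_ne h2]
        · simp [Function.update_of_ne h2, Function.update_of_ne h1]
    · unfold upd
      simp [Function.update_of_ne hne]
  · intro y _
    rfl

/-- The part of the product of the vertex weights away from `v` and `w`. -/
def Rprod (C : I → I → I → ℤ) (l : I → ℤ) (v w : V) (x : HalfEdge V U → I) : ℤ :=
  (∏ v' ∈ (univ.erase v).erase w,
    C (x (Sum.inl (v', 0))) (x (Sum.inl (v', 1))) (x (Sum.inl (v', 2)))) * ∏ u, l (x (Sum.inr u))

theorem Fprod_eq (v w : V) (hvw : w ≠ v) (x : HalfEdge V U → I) :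
    Fprod C l x = C (x (Sum.inl (v, 0))) (x (Sum.inl (v, 1))) (x (Sum.inl (v, 2))) *
      C (x (Sum.inl (w, 0))) (x (Sum.inl (w, 1))) (x (Sum.inl (w, 2))) * Rprod C l v w x := by
  unfold Fprod Rprod
  rw [← Finset.mul_prod_erase univ _ (Finset.mem_univ v),
    ← Finset.mul_prod_erase (univ.erase v) _ (Finset.mem_erase.2 ⟨hvw, Finset.mem_univ w⟩)]
  ring

theorem Rprod_congr (v w : V) (x y : HalfEdge V U → I)
    (h1 : ∀ v' i, v' ≠ v → v' ≠ w → x (Sum.inl (v', i)) = y (Sum.inl (v', i)))
    (h2 : ∀ u, x (Sum.inr u) = y (Sum.inr u)) : Rprod C l v w x = Rprod C l v w y := by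
  unfold Rprod
  congr 1
  · refine Finset.prod_congr rfl fun v' hv' => ?_
    have hw : v' ≠ w := Finset.ne_of_mem_erase hv'
    have hv : v' ≠ v := Finset.ne_of_mem_erase (Finset.mem_of_mem_erase hv')
    rw [h1 v' _ hv hw, h1 v' _ hv hw, h1 v' _ hv hw]
  · refine Finset.prod_congr rfl fun u _ => ?_
    rw [h2]

theorem rot_fix (v w : V) {h : HalfEdge V U} (h1 : h ≠ Sum.inl (v, 1)) (h2 : h ≠ Sum.inl (v, 2))
    (h3 : h ≠ Sum.inl (w, 1)) : (rotAt v w).symm h = h := by
  rw [Equiv.symm_apply_eq]
  unfold rotAt
  rw [Equiv.Perm.mul_apply, Equiv.swap_apply_of_ne_of_ne h2 h3, Equiv.swap_apply_of_ne_of_ne h1 h2]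

theorem rot_a (v w : V) :
    (rotAt v w).symm (Sum.inl (v, 1) : HalfEdge V U) = Sum.inl (w, 1) := by
  rw [Equiv.symm_apply_eq]
  unfold rotAt
  rw [Equiv.Perm.mul_apply, Equiv.swap_apply_right, Equiv.swap_apply_right]

theorem rot_b (v w : V) (hvw : w ≠ v) :
    (rotAt v w).symm (Sum.inl (v, 2) : HalfEdge V U) = Sum.inl (v, 1) := by
  rw [Equiv.symm_apply_eq]
  unfold rotAt
  have h1 : swap (Sum.inl (v, 2)) (Sum.inl (w, 1)) (Sum.inl (v, 1) : HalfEdge V U) =
      Sum.inl (v, 1) :=
    Equiv.swap_apply_of_ne_of_ne (by simp) (by simpa using hvw.symm)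
  rw [Equiv.Perm.mul_apply, h1, Equiv.swap_apply_left]

theorem rot_c (v w : V) (hvw : w ≠ v) :
    (rotAt v w).symm (Sum.inl (w, 1) : HalfEdge V U) = Sum.inl (v, 2) := by
  rw [Equiv.symm_apply_eq]
  unfold rotAt
  rw [Equiv.Perm.mul_apply, Equiv.swap_apply_left,
    Equiv.swap_apply_of_ne_of_ne (by simpa using hvw) (by simp)]

theorem rot2_symm (v w : V) (h : HalfEdge V U) :
    (rotAt v w * rotAt v w).symm h = (rotAt v w).symm ((rotAt v w).symm h) := by
  rw [Equiv.symm_apply_eq]
  simp

theorem W_ihx [Nonempty I] (hL : IsLie C τ) (G : UTGraph V U) (v w : V)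
    (h : G.e (Sum.inl (v, 0)) = Sum.inl (w, 0)) :
    W C τ l G.e (fun _ => 1) + W C τ l (G.map (rotAt v w)).e (fun _ => 1) +
      W C τ l (G.map (rotAt v w * rotAt v w)).e (fun _ => 1) = 0 := by
  have hvw : w ≠ v := by
    rintro rfl
    exact G.fpf _ h
  rw [W_map, W_map]
  unfold W
  rw [← Finset.sum_add_distrib, ← Finset.sum_add_distrib]
  set g : (HalfEdge V U → I) → ℤ := fun x => Fprod C l x + Fprod C l (x ∘ (rotAt v w).symm) +
    Fprod C l (x ∘ (rotAt v w * rotAt v w).symm) with hg
  have h0 : ∑ x : HalfEdge V U → I, (if ∀ h, x (G.e h) = τ (x h) then g x else 0) = 0 := by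
    have h1 := sum_upd h hL.invol g
    have h2 : ∑ x : HalfEdge V U → I, (if ∀ h, x (G.e h) = τ (x h) then
        ∑ z, g (upd τ (Sum.inl (v, 0)) (Sum.inl (w, 0)) x z) else 0) = 0 := by
      refine Finset.sum_eq_zero fun x _ => ?_
      split_ifs with hx
      · set a := x (Sum.inl (v, 1)) with ha
        set b := x (Sum.inl (v, 2)) with hb
        set c := x (Sum.inl (w, 1)) with hc
        set d := x (Sum.inl (w, 2)) with hd
        have e1 : ∀ z, g (upd τ (Sum.inl (v, 0)) (Sum.inl (w, 0)) x z) =
            (C z a b * C (τ z) c d + C z b c * C (τ z) a d + C z c a * C (τ z) b d) *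
              Rprod C l v w x := by
          intro z
          set y := upd τ (Sum.inl (v, 0)) (Sum.inl (w, 0)) x z with hy
          have y1 : y (Sum.inl (v, 0)) = z := by
            simp [hy, upd, Function.update_of_ne, hvw.symm]
          have y2 : y (Sum.inl (w, 0)) = τ z := by
            simp [hy, upd]
          have y3 : y (Sum.inl (v, 1)) = a := by
            simp [hy, upd, ha]
          have y4 : y (Sum.inl (v, 2)) = b := by
            simp [hy, upd, hb]
          have y5 : y (Sum.inl (w, 1)) = c := by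
            simp [hy, upd, hc]
          have y6 : y (Sum.inl (w, 2)) = d := by
            simp [hy, upd, hd]
          have R1 : Rprod C l v w y = Rprod C l v w x := by
            refine Rprod_congr v w _ _ ?_ ?_
            · intro v' i h1 h2
              simp [hy, upd, h1, h2]
            · intro u
              simp [hy, upd]
          have fixo : ∀ v' i, v' ≠ v → v' ≠ w →
              (rotAt v w).symm (Sum.inl (v', i) : HalfEdge V U) = Sum.inl (v', i) := by
            intro v' i h1 h2
            exact rot_fix v w (by simp [h1]) (by simp [h1]) (by simp [h2])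
          have fixu : ∀ u, (rotAt v w).symm (Sum.inr u : HalfEdge V U) = Sum.inr u := by
            intro u
            exact rot_fix v w (by simp) (by simp) (by simp)
          have fix1 : (rotAt v w).symm (Sum.inl (v, 0) : HalfEdge V U) = Sum.inl (v, 0) :=
            rot_fix v w (by simp) (by simp) (by simp)
          have fix2 : (rotAt v w).symm (Sum.inl (w, 0) : HalfEdge V U) = Sum.inl (w, 0) :=
            rot_fix v w (by simp) (by simp) (by simp)
          have fix3 : (rotAt v w).symm (Sum.inl (w, 2) : HalfEdge V U) = Sum.inl (w, 2) :=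
            rot_fix v w (by simp) (by simp [hvw]) (by simp)
          have R2 : Rprod C l v w (y ∘ (rotAt v w).symm) = Rprod C l v w x := by
            rw [← R1]
            refine Rprod_congr v w _ _ ?_ ?_
            · intro v' i h1 h2
              simp only [Function.comp_apply]
              rw [fixo v' i h1 h2]
            · intro u
              simp only [Function.comp_apply]
              rw [fixu]
          have R3 : Rprod C l v w (y ∘ (rotAt v w * rotAt v w).symm) = Rprod C l v w x := by
            rw [← R1]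
            refine Rprod_congr v w _ _ ?_ ?_
            · intro v' i h1 h2
              simp only [Function.comp_apply, rot2_symm]
              rw [fixo v' i h1 h2, fixo v' i h1 h2]
            · intro u
              simp only [Function.comp_apply, rot2_symm]
              rw [fixu, fixu]
          simp only [hg]
          simp only [Fprod_eq v w hvw]
          rw [R1, R2, R3]
          simp only [Function.comp_apply, rot2_symm, fix1, fix2, fix3, rot_a v w, rot_b v w hvw,
            rot_c v w hvw, y1, y2, y3, y4, y5, y6]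
          ring
        rw [Finset.sum_congr rfl fun z _ => e1 z, ← Finset.sum_mul, hL.jacobi, zero_mul]
      · rfl
    rw [h2] at h1
    have h3 : (Fintype.card I : ℤ) ≠ 0 := by
      exact_mod_cast Fintype.card_ne_zero
    exact (mul_eq_zero.1 h1.symm).resolve_left h3
  refine Eq.trans ?_ h0
  refine Finset.sum_congr rfl fun x _ => ?_
  by_cases hx : ∀ h, x (G.e h) = τ (x h)
  · rw [if_pos hx, if_pos hx, if_pos hx, if_pos hx, hg, mul_one]
  · rw [if_neg hx, if_neg hx, if_neg hx, if_neg hx]
    rfl

/-- Functions on graphs satisfying the relations. -/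
structure IsWeight (f : UTGraph V U → ℤ) : Prop where
  iso : ∀ G π, IsOrientedIso π → f (G.map π) = f G
  as : ∀ G v, f G + f (G.map (flipAt v)) = 0
  ihx : ∀ G v w, G.e (Sum.inl (v, 0)) = Sum.inl (w, 0) →
    f G + f (G.map (rotAt v w)) + f (G.map (rotAt v w * rotAt v w)) = 0

theorem isWeight_W [Nonempty I] (hL : IsLie C τ) :
    IsWeight (fun G : UTGraph V U => W C τ l G.e (fun _ => 1)) where
  iso G π hπ := W_iso hL G π hπ
  as G v := W_as hL G v
  ihx G v w h := W_ihx hL G v w h

theorem IsWeight.sum {ι : Type} (s : Finset ι) (a : ι → ℤ) (f : ι → UTGraph V U → ℤ)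
    (hf : ∀ i, IsWeight (f i)) : IsWeight (fun G => ∑ i ∈ s, a i * f i G) where
  iso G π hπ := Finset.sum_congr rfl fun i _ => by rw [(hf i).iso G π hπ]
  as G v := by
    rw [← Finset.sum_add_distrib]
    refine Finset.sum_eq_zero fun i _ => ?_
    rw [← mul_add, (hf i).as G v, mul_zero]
  ihx G v w h := by
    rw [← Finset.sum_add_distrib, ← Finset.sum_add_distrib]
    refine Finset.sum_eq_zero fun i _ => ?_
    rw [← mul_add, ← mul_add, (hf i).ihx G v w h, mul_zero]

theorem IsWeight.functional {f : UTGraph V U → ℤ} (hf : IsWeight f) :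
    ∃ φ : BSpace V U →ₗ[ℚ] ℚ, ∀ G, φ (cls G) = (f G : ℚ) := by
  refine ⟨Submodule.liftQ _ (Finsupp.linearCombination ℚ (fun G => (f G : ℚ))) ?_, ?_⟩
  · rw [Submodule.span_le]
    rintro x (hx : Rel V U x)
    rw [SetLike.mem_coe, LinearMap.mem_ker]
    cases hx with
    | iso G π h =>
      simp [hf.iso G π h]
    | as G v =>
      have := hf.as G v
      simp only [map_add, Finsupp.linearCombination_single, one_smul]
      exact_mod_cast this
    | ihx G v w h =>
      have := hf.ihx G v w h
      simp only [map_add, Finsupp.linearCombination_single, one_smul]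
      exact_mod_cast this
  · intro G
    unfold cls
    rw [Submodule.liftQ_apply]
    simp

end

end Pool.Agent.Helper5.Vass
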